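import Pool.Agent.H80GE.Transfer

/-!
# The factor of Host and Kra of a compact group extension is characteristic for almost everywhere convergence
-/

set_option autoImplicit false

open MeasureTheory Filter Topology Finset
open scoped ComplexConjugate ENNReal

namespace Pool.Agent.H80GE

section SkewPerm

variable {Y K : Type*} [MeasurableSpace Y] [Group K]

/-- the skew product as a permutation -/
def skE (S : Y ≃ᵐ Y) (σ : Y → K) : Equiv.Perm (Y × K) where
  toFun := sk S σ
  invFun z := (S.symm z.1, (σ (S.symm z.1))⁻¹ * z.2)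
  left_inv z := by simp [sk]
  right_inv z := by simp [sk]

lemma skE_symm_meas [MeasurableSpace K] [MeasurableMul₂ K] [MeasurableInv K] (S : Y ≃ᵐ Y) {σ : Y → K}
    (hσ : Measurable σ) : Measurable (skE S σ).symm := by
  change Measurable (fun z : Y × K => (S.symm z.1, (σ (S.symm z.1))⁻¹ * z.2))
  exact (S.symm.measurable.comp measurable_fst).prodMk
    (((hσ.comp (S.symm.measurable.comp measurable_fst)).inv).mul measurable_snd)

end SkewPerm

section Cor

variable {Y K : Type*} [MeasurableSpace Y] [Group K] [MeasurableSpace K] [MeasurableMul₂ K]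
  {μ : Measure Y} [IsProbabilityMeasure μ] {ρ : Measure K} [IsProbabilityMeasure ρ] [ρ.IsMulLeftInvariant]
  {S : Y → Y} {σ : Y → K} {m : ℕ} {a : Fin m → ℕ} {f : Fin m → Y × K → ℂ}

/-- the functions of the correlation on the extension -/
noncomputable def mix (ρ : Measure K) (S : Y → Y) (σ : Y → K) (a : Fin m → ℕ) (f : Fin m → Y × K → ℂ) (d : ℕ)
    (j0 l : Fin m) (x : Y × K) : ℂ :=
  if l = j0 then f j0 ((sk S σ)^[a j0 * d] x) * conj (f j0 x) else psi ρ S σ a f d l x.1

lemma mix_meas (hS : Measurable S) (hσ : Measurable σ) (hf : ∀ j, Measurable (f j)) (d : ℕ) (j0 l : Fin m) :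
    Measurable (mix ρ S σ a f d j0 l) := by
  unfold mix
  split_ifs
  · exact ((hf j0).comp ((sk_meas hS hσ).iterate _)).mul (Complex.continuous_conj.measurable.comp (hf j0))
  · exact (psi_meas hS hσ hf d l).comp measurable_fst

omit [MeasurableSpace Y] [MeasurableMul₂ K] [ρ.IsMulLeftInvariant] in
lemma mix_bound (hf1 : ∀ j x, ‖f j x‖ ≤ 1) (d : ℕ) (j0 l : Fin m) (x : Y × K) :
    ‖mix ρ S σ a f d j0 l x‖ ≤ 1 := by
  unfold mix
  split_ifs
  · rw [norm_mul, RCLike.norm_conj]
    exact mul_le_one₀ (hf1 _ _) (norm_nonneg _) (hf1 _ _)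
  · unfold psi
    refine (norm_integral_le_of_norm_le_const (C := 1) (Eventually.of_forall fun κ => ?_)).trans (by simp)
    rw [norm_mul, RCLike.norm_conj]
    exact mul_le_one₀ (hf1 _ _) (norm_nonneg _) (hf1 _ _)

lemma mix_cor (hS : Measurable S) (hσ : Measurable σ) (hf : ∀ j, Measurable (f j)) (hf1 : ∀ j x, ‖f j x‖ ≤ 1)
    (d : ℕ) (j0 : Fin m) (t : Fin m → ℕ) :
    ∫ y, ∏ j, psi ρ S σ a f d j (S^[t j] y) ∂μ = ∫ x, ∏ l, mix ρ S σ a f d j0 l ((sk S σ)^[t l] x) ∂(μ.prod ρ) := by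
  have hm : Measurable (fun x => ∏ l, mix ρ S σ a f d j0 l ((sk S σ)^[t l] x)) :=
    Finset.measurable_prod _ fun l _ => (mix_meas hS hσ hf d j0 l).comp ((sk_meas hS hσ).iterate _)
  have hi : Integrable (fun x => ∏ l, mix ρ S σ a f d j0 l ((sk S σ)^[t l] x)) (μ.prod ρ) :=
    Integrable.of_bound hm.aestronglyMeasurable 1 (Eventually.of_forall fun x =>
      prod_norm_le_one _ _ fun l => mix_bound hf1 d j0 l _)
  rw [integral_prod _ hi]
  refine integral_congr_ae (Eventually.of_forall fun y => ?_)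
  simp only
  have e1 : ∀ κ : K, ∏ l, mix ρ S σ a f d j0 l ((sk S σ)^[t l] (y, κ)) =
      mix ρ S σ a f d j0 j0 ((sk S σ)^[t j0] (y, κ)) *
        ∏ l ∈ Finset.univ.erase j0, psi ρ S σ a f d l (S^[t l] y) := by
    intro κ
    rw [← Finset.mul_prod_erase Finset.univ _ (Finset.mem_univ j0)]
    congr 1
    refine Finset.prod_congr rfl fun l hl => ?_
    rw [Finset.mem_erase] at hl
    rw [sk_iter]
    unfold mix
    rw [if_neg hl.1]
  simp_rw [e1]
  rw [integral_mul_const, ← Finset.mul_prod_erase Finset.univ _ (Finset.mem_univ j0)]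
  congr 1
  unfold mix
  simp only [if_true]
  unfold psi
  rw [← integral_mul_left_eq_self (μ := ρ) (fun κ => f j0 ((sk S σ)^[a j0 * d] (S^[t j0] y, κ)) *
    conj (f j0 (S^[t j0] y, κ))) (co S σ (t j0) y)]
  refine integral_congr_ae (Eventually.of_forall fun κ => ?_)
  simp only [sk_iter (S := S) (σ := σ) (t j0)]

end Cor

section Main

variable {Y K : Type*} [MeasurableSpace Y] [Group K] [TopologicalSpace K] [IsTopologicalGroup K]
  [CompactSpace K] [T2Space K] [SecondCountableTopology K] [MeasurableSpace K] [BorelSpace K]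
  {μ : Measure Y} [IsProbabilityMeasure μ] {ρ : Measure K} [ρ.IsHaarMeasure] [IsProbabilityMeasure ρ]

/-- from the fibre averages to the points of the extension -/
lemma AV_zero_of_BB {S : Y → Y} (hS : MeasurePreserving S μ μ) {σ : Y → K} (hσ : Measurable σ) {m : ℕ}
    {a : Fin m → ℕ} {f : Fin m → Y × K → ℂ} (hf : ∀ j, Measurable (f j)) (hf1 : ∀ j x, ‖f j x‖ ≤ 1)
    (hBB : ∀ᵐ y ∂μ, Tendsto (fun N => BB ρ S σ a f N y) atTop (𝓝 0)) :
    ∀ᵐ x ∂(μ.prod ρ), Tendsto (fun N => AV (sk S σ) a f N x) atTop (𝓝 0) := by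
  have hT := mp_sk μ ρ hS hσ
  have hconv : ∀ᵐ x ∂(μ.prod ρ), ∃ L, Tendsto (fun N => AV (sk S σ) a f N x) atTop (𝓝 L) ∧ L = 0 := by
    have hz := zero_of_approx (μ.prod ρ) (fun N x => AV (sk S σ) a f N x) ?_
    · filter_upwards [hz] with x hx
      exact ⟨0, hx, rfl⟩
    intro δ hδ ε hε
    set ε' : ℝ := ε * (δ / 2) / ((m + 1) * (m + 1)) with hε'
    have hε'0 : 0 < ε' := by positivity
    have happ := fun j => approx (ρ := ρ) μ (hf j) (hf1 j) ε' hε'0
    choose q hqm hq0 hqQ hq1 hqa using happ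
    choose Q hQ using hqQ
    obtain ⟨Q', hQ'0, hQ'⟩ : ∃ Q' : ℝ, 0 < Q' ∧ ∀ j l, |q j l| ≤ Q' := by
      refine ⟨∑ j, |Q j| + 1, by positivity, fun j l => ?_⟩
      rw [abs_of_nonneg (hq0 j l)]
      have h1 : |Q j| ≤ ∑ j, |Q j| := Finset.single_le_sum (f := fun j => |Q j|) (fun _ _ => abs_nonneg _)
        (Finset.mem_univ j)
      have h2 := hQ j l
      have h3 := le_abs_self (Q j)
      linarith
    have hcvm : ∀ j, Measurable (cv ρ (q j) (f j)) := fun j => cv_meas (hqm j) (hf j)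
    have hcv1 : ∀ j x, ‖cv ρ (q j) (f j) x‖ ≤ 1 := by
      intro j x
      unfold cv
      calc ‖∫ l, f j (x.1, x.2 * l) * ((q j l : ℝ) : ℂ) ∂ρ‖ ≤ ∫ l, ‖f j (x.1, x.2 * l) * ((q j l : ℝ) : ℂ)‖ ∂ρ :=
            norm_integral_le_integral_norm _
        _ ≤ ∫ l, q j l ∂ρ := by
            refine integral_mono_of_nonneg (Eventually.of_forall fun l => norm_nonneg _) ?_
              (Eventually.of_forall fun l => ?_)
            · exact Integrable.of_bound (hqm j).aestronglyMeasurable Q'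
                (Eventually.of_forall fun l => by rw [Real.norm_eq_abs]; exact hQ' j l)
            · change ‖f j (x.1, x.2 * l) * ((q j l : ℝ) : ℂ)‖ ≤ q j l
              rw [norm_mul, Complex.norm_real, Real.norm_eq_abs, abs_of_nonneg (hq0 j l)]
              exact mul_le_of_le_one_left (hq0 j l) (hf1 _ _)
        _ = 1 := hq1 j
    have hcl := close (μ.prod ρ) hT a f (fun j => cv ρ (q j) (f j)) hf hcvm 1 le_rfl hf1 hcv1 ε' hqa (δ / 2)
      (by positivity)
    -- the averages of the convolutions tend to zero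
    have hcv0 : ∀ᵐ x ∂(μ.prod ρ), Tendsto (fun N => AV (sk S σ) a (fun j => cv ρ (q j) (f j)) N x) atTop (𝓝 0) := by
      have h1 : ∀ᵐ x ∂(μ.prod ρ), Tendsto (fun N => BB ρ S σ a f N x.1) atTop (𝓝 0) :=
        Measure.quasiMeasurePreserving_fst.ae hBB
      filter_upwards [h1] with x hx
      have h2 : Tendsto (fun N => (Q' ^ m) ^ 2 * BB ρ S σ a f N x.1) atTop (𝓝 0) := by
        have := hx.const_mul ((Q' ^ m) ^ 2)
        rwa [mul_zero] at this
      have h3 : Tendsto (fun N => ‖AV (sk S σ) a (fun j => cv ρ (q j) (f j)) N x‖ ^ 2) atTop (𝓝 0) := by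
        refine squeeze_zero (fun N => by positivity) (fun N => ?_) h2
        exact smooth_le hS.measurable hσ hf hf1 q hqm hQ'0 hQ' N x.1 x.2
      have h4 := h3.sqrt
      rw [Real.sqrt_zero] at h4
      simp_rw [Real.sqrt_sq (norm_nonneg _)] at h4
      exact tendsto_zero_iff_norm_tendsto_zero.2 h4
    have hsub : {x | ¬ ∀ᶠ N : ℕ in atTop, ‖AV (sk S σ) a f N x‖ ≤ δ} ≤ᵐ[μ.prod ρ]
        {x | ¬ ∀ᶠ N : ℕ in atTop, ‖AV (sk S σ) a f N x - AV (sk S σ) a (fun j => cv ρ (q j) (f j)) N x‖ ≤ δ / 2} := by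
      filter_upwards [hcv0] with x hx hbad
      change ¬ _
      intro hev
      apply hbad
      have h1 := (tendsto_zero_iff_norm_tendsto_zero.1 hx).eventually (eventually_le_nhds (show (0 : ℝ) < δ / 2 by positivity))
      filter_upwards [hev, h1] with N h2 h3
      have := norm_add_le (AV (sk S σ) a f N x - AV (sk S σ) a (fun j => cv ρ (q j) (f j)) N x)
        (AV (sk S σ) a (fun j => cv ρ (q j) (f j)) N x)
      rw [sub_add_cancel] at this
      linarith
    refine (measure_mono_ae hsub).trans (hcl.trans ?_)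
    apply ENNReal.ofReal_le_ofReal
    have e : (m : ℝ) * (1 ^ m * (m + 1) * ε' / (δ / 2)) = ε * (m / (m + 1)) := by
      rw [hε', one_pow]; field_simp
    rw [e]
    have e3 : (m : ℝ) / (m + 1) ≤ 1 := by rw [div_le_one (by positivity)]; linarith
    nlinarith
  filter_upwards [hconv] with x hx
  obtain ⟨L, hL, rfl⟩ := hx
  exact hL

/-- from smallness in measure to convergence to zero of the fibre averages -/
lemma BB_zero {S : Y → Y} {σ : Y → K} {m : ℕ} {a : Fin m → ℕ} {f : Fin m → Y × K → ℂ}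
    (h : ∀ η : ℝ, 0 < η → ∀ ε : ℝ, 0 < ε → μ {y | ¬ ∀ᶠ N : ℕ in atTop, BB ρ S σ a f N y ≤ η} ≤ ENNReal.ofReal ε) :
    ∀ᵐ y ∂μ, Tendsto (fun N => BB ρ S σ a f N y) atTop (𝓝 0) := by
  have hBn : ∀ N y, 0 ≤ BB ρ S σ a f N y := fun N y => integral_nonneg fun κ => by positivity
  have h1 := zero_of_approx μ (fun N y => ((BB ρ S σ a f N y : ℝ) : ℂ)) (fun δ hδ ε hε => by
    refine le_trans (le_of_eq ?_) (h δ hδ ε hε)
    congr 1
    ext y
    simp only [Complex.norm_real, Real.norm_eq_abs, abs_of_nonneg (hBn _ _)])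
  filter_upwards [h1] with y hy
  have := (Complex.continuous_re.tendsto _).comp hy
  simpa [Function.comp_def] using this

/-- The functions with seminorm zero are negligible almost everywhere. -/
theorem hk_main (S : Y ≃ᵐ Y) (hS : MeasurePreserving S μ μ) {σ : Y → K} (hσ : Measurable σ) {m : ℕ}
    (a : Fin m → ℕ) (hinj : Function.Injective a) (ha0 : ∀ j, 0 < a j)
    (hY : ∀ g : Fin m → Y → ℂ, (∀ j, Measurable (g j)) → (∃ C, ∀ j y, ‖g j y‖ ≤ C) →
      ∀ᵐ y ∂μ, ∃ L, Tendsto (fun N => AV S a g N y) atTop (𝓝 L))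
    (f : Fin m → Y × K → ℂ) (hf : ∀ j, Measurable (f j)) (hf1 : ∀ j x, ‖f j x‖ ≤ 1) (i j : Fin m) (hij : i ≠ j)
    (hbox : box (μ.prod ρ) (sk S σ) ((a j : ℤ) - a i).natAbs (m - 1) (f j) = 0) :
    ∀ᵐ x ∂(μ.prod ρ), Tendsto (fun N => AV (sk S σ) a f N x) atTop (𝓝 0) := by
  apply AV_zero_of_BB hS hσ hf hf1
  apply BB_zero
  intro η hη ε hε
  have hT : MeasurePreserving (skE S σ) (μ.prod ρ) (μ.prod ρ) := mp_sk μ ρ hS hσ
  have hTi : Measurable (skE S σ).symm := skE_symm_meas S hσ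
  obtain ⟨n, hn⟩ : ∃ n, m = n + 2 := by
    have h2 : 2 ≤ m := by
      have hi := i.2
      have hj := j.2
      have hne : (i : ℕ) ≠ j := fun h => hij (Fin.ext h)
      omega
    exact ⟨m - 2, by omega⟩
  have hcard : (Finset.univ : Finset (Fin m)).card = n + 2 := by rw [Finset.card_univ, Fintype.card_fin, hn]
  have hbinj : Set.InjOn (fun l : Fin m => (a l : ℤ)) ((Finset.univ : Finset (Fin m)) : Set (Fin m)) := by
    intro x _ y _ hxy
    exact hinj (by simpa using hxy)
  set ε1 : ℝ := ε * η / 3 with hε1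
  have hε1p : 0 < ε1 := by positivity
  obtain ⟨δ1, hδ1, hI⟩ := cor_small hT hTi n Finset.univ hcard (fun l : Fin m => (a l : ℤ)) hbinj j (Finset.mem_univ _)
    i (Finset.mem_univ _) hij (ε1 / 2) (by positivity)
  set c : ℕ → ℕ → ℂ := fun d k => ∫ y, ∏ l, psi ρ S σ a f d l (S^[a l * (k + 1)] y) ∂μ with hc
  have hc1 : ∀ d k, ‖c d k‖ ≤ 1 := by
    intro d k
    refine (norm_integral_le_of_norm_le_const (C := 1) (Eventually.of_forall fun y => ?_)).trans (by simp)
    refine prod_norm_le_one _ _ fun l => ?_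
    have := psi_bound (ρ := ρ) (S := S) (σ := σ) (a := a) hf1 d l (S^[a l * (k + 1)] y)
    simpa using this
  set β : ℕ → ℝ≥0∞ := fun h => box (μ.prod ρ) (sk S σ) ((a j : ℤ) - a i).natAbs n
    (fun x => f j ((sk S σ)^[h] x) * conj (f j x)) with hβ
  have hlim : limsup (fun H : ℕ => (H : ℝ≥0∞)⁻¹ * ∑ h ∈ range H, β h) atTop ≤
      ENNReal.ofReal (ε1 * δ1 / (4 * a j)) := by
    have hm1 : m - 1 = n + 1 := by omega
    rw [hm1] at hbox
    change limsup (fun H : ℕ => (H : ℝ≥0∞)⁻¹ * ∑ h ∈ range H, β h) atTop = 0 at hbox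
    rw [hbox]
    exact zero_le
  have hgood : ∀ d, β (a j * d) ≤ ENNReal.ofReal δ1 → ∀ᶠ N : ℕ in atTop, ‖av N (c d)‖ ≤ ε1 := by
    intro d hd
    have h1 := hI (mix ρ S σ a f d j) (mix_meas hS.measurable hσ hf d j) (mix_bound hf1 d j) (by
      refine le_trans (le_of_eq ?_) hd
      simp only [hβ]
      unfold mix
      simp only [if_true]
      rfl)
    set CC : ℕ → ℂ := fun k => ∫ x, ∏ l, mix ρ S σ a f d j l ((skE S σ ^ ((a l : ℤ) * (k : ℤ)) : Equiv.Perm (Y × K)) x)
      ∂(μ.prod ρ) with hCC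
    have hCC1 : ∀ k, ‖CC k‖ ≤ 1 := by
      intro k
      refine (norm_integral_le_of_norm_le_const (C := 1) (Eventually.of_forall fun x => ?_)).trans (by simp)
      exact prod_norm_le_one _ _ fun l => mix_bound hf1 d j l _
    have hcC : ∀ k, c d k = CC (k + 1) := by
      intro k
      simp only [hc, hCC]
      rw [mix_cor hS.measurable hσ hf hf1 d j (fun l => a l * (k + 1))]
      refine integral_congr_ae (Eventually.of_forall fun x => ?_)
      simp only
      refine Finset.prod_congr rfl fun l _ => ?_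
      congr 1
    obtain ⟨N1, hN1⟩ := exists_nat_gt (4 / ε1)
    filter_upwards [h1, eventually_gt_atTop (max N1 0)] with N hN hNN
    have hN0 : 0 < N := (le_max_right _ _).trans_lt hNN
    have hNR : (0 : ℝ) < N := by exact_mod_cast hN0
    have hN1' : 4 / ε1 < N := hN1.trans (by exact_mod_cast (le_max_left _ _).trans_lt hNN)
    have h6 := av_shift_le hCC1 N 1
    have h7 : av N (c d) = av N (fun k => CC (k + 1)) := by
      unfold av
      congr 1
      exact Finset.sum_congr rfl fun k _ => hcC k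
    rw [h7]
    have h8 : 2 * (1 : ℝ) * (1 : ℕ) / N ≤ ε1 / 2 := by
      rw [div_le_iff₀ hNR]
      rw [div_lt_iff₀ hε1p] at hN1'
      push_cast
      nlinarith
    have h9 := norm_sub_norm_le (av N (fun k => CC (k + 1))) (av N CC)
    have h10 : ‖av N CC‖ ≤ ε1 / 2 := hN
    linarith
  obtain ⟨H, hH, hev⟩ := double_small c hc1 β (a j) (ha0 j) δ1 ε1 hδ1 hε1p hgood hlim
  have hfin := core (μ := μ) (ρ := ρ) (a := a) hS hσ hf hf1 (fun d => by
    refine hY (fun l => psi ρ S σ a f d l) (fun l => psi_meas hS.measurable hσ hf d l) ⟨1, fun l y => ?_⟩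
    have := psi_bound (ρ := ρ) (S := S) (σ := σ) (a := a) hf1 d l y
    simpa using this) (3 * ε1) H hH hev η hη
  refine hfin.trans (ENNReal.ofReal_le_ofReal ?_)
  rw [hε1]
  apply le_of_eq
  field_simp

end Main

end Pool.Agent.H80GE
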