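import Pool.Agent.H80GE.Approx
import Pool.Agent.H165R3.BPE

/-!
# Closure of almost everywhere convergence under approximation in the mean
-/

set_option autoImplicit false

open MeasureTheory Filter Topology Finset
open scoped ComplexConjugate ENNReal

namespace Pool.Agent.H80GE

variable {X : Type*} [MeasurableSpace X]

/-- the multiple averages -/
noncomputable def AV (T : X → X) {m : ℕ} (a : Fin m → ℕ) (f : Fin m → X → ℂ) (N : ℕ) (x : X) : ℂ :=
  av N (fun n => ∏ j, f j (T^[a j * (n + 1)] x))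

lemma avg_small (ν : Measure X) [IsProbabilityMeasure ν] {T : X → X}
    (hT : MeasurePreserving T ν ν) (a : ℕ) (u : X → ℝ) (hu : Measurable u) (B : ℝ) (h0 : ∀ z, 0 ≤ u z)
    (hB : ∀ z, u z ≤ B) (δ : ℝ) (hδ : 0 < δ) :
    ν {z | ¬ ∀ᶠ N : ℕ in atTop, (N : ℝ)⁻¹ * ∑ n ∈ range N, u (T^[a * (n + 1)] z) ≤ δ} ≤
      ENNReal.ofReal ((∫ z, u z ∂ν) / δ) := by
  have hTa : MeasurePreserving (T^[a]) ν ν := hT.iterate a
  set κ : X → ℝ := fun z => u (T^[a] z) with hκ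
  have hκm : Measurable κ := hu.comp hTa.measurable
  have hκb : ∀ z, |κ z| ≤ B := fun z => by
    rw [abs_of_nonneg (h0 _)]; exact hB _
  have hbirk := Pool.Agent.H165R3.BPE.birkhoff hTa κ hκm B hκb
  set E : X → ℝ := ν[κ | MeasurableSpace.invariants (T^[a])] with hE
  have hE0 : 0 ≤ᵐ[ν] E := condExp_nonneg (Eventually.of_forall fun z => h0 _)
  have hEi : Integrable E ν := integrable_condExp
  have hEint : ∫ z, E z ∂ν = ∫ z, u z ∂ν := by
    rw [hE, integral_condExp (MeasurableSpace.invariants_le _)]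
    have h4 := integral_map (μ := ν) (φ := T^[a]) (f := u) hTa.measurable.aemeasurable hu.aestronglyMeasurable
    rw [hTa.map_eq] at h4
    exact h4.symm
  have hmark := mul_meas_ge_le_integral_of_nonneg hE0 hEi δ
  rw [hEint] at hmark
  have hsub : {z | ¬ ∀ᶠ N : ℕ in atTop, (N : ℝ)⁻¹ * ∑ n ∈ range N, u (T^[a * (n + 1)] z) ≤ δ} ≤ᵐ[ν] {z | δ ≤ E z} := by
    filter_upwards [hbirk] with z hz hbad
    change δ ≤ E z
    by_contra hcon
    rw [not_le] at hcon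
    apply hbad
    have h2 := (tendsto_order.1 hz).2 _ hcon
    filter_upwards [h2] with N hN
    refine le_trans (le_of_eq ?_) hN.le
    congr 1
    refine Finset.sum_congr rfl fun n _ => ?_
    simp only [hκ]
    rw [← Function.iterate_mul, ← Function.iterate_add_apply]
    congr 2
    ring
  calc ν {z | ¬ ∀ᶠ N : ℕ in atTop, (N : ℝ)⁻¹ * ∑ n ∈ range N, u (T^[a * (n + 1)] z) ≤ δ}
      ≤ ν {z | δ ≤ E z} := measure_mono_ae hsub
    _ = ENNReal.ofReal (ν.real {z | δ ≤ E z}) := by rw [ofReal_measureReal]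
    _ ≤ ENNReal.ofReal ((∫ z, u z ∂ν) / δ) := by
        apply ENNReal.ofReal_le_ofReal
        rw [le_div_iff₀ hδ, mul_comm]
        exact hmark

lemma prod_sub_le {ι : Type*} [DecidableEq ι] (C : ℝ) (hC : 1 ≤ C) (s : Finset ι) (u v : ι → ℂ)
    (hu : ∀ j, ‖u j‖ ≤ C) (hv : ∀ j, ‖v j‖ ≤ C) :
    ‖∏ j ∈ s, u j - ∏ j ∈ s, v j‖ ≤ C ^ s.card * ∑ j ∈ s, ‖u j - v j‖ := by
  have hC0 : 0 ≤ C := by linarith
  have hvm : ∀ s : Finset ι, ‖∏ j ∈ s, v j‖ ≤ C ^ s.card := by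
    intro s
    rw [norm_prod]
    calc ∏ j ∈ s, ‖v j‖ ≤ ∏ _j ∈ s, C := Finset.prod_le_prod (fun _ _ => norm_nonneg _) fun j _ => hv j
      _ = C ^ s.card := by rw [Finset.prod_const]
  induction s using Finset.induction_on with
  | empty => simp
  | insert i s hi ih =>
    rw [Finset.prod_insert hi, Finset.prod_insert hi, Finset.sum_insert hi, Finset.card_insert_of_notMem hi]
    have h1 : u i * (∏ j ∈ s, u j) - v i * (∏ j ∈ s, v j) =
        u i * (∏ j ∈ s, u j - ∏ j ∈ s, v j) + (u i - v i) * (∏ j ∈ s, v j) := by ring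
    rw [h1]
    have hs0 : 0 ≤ ∑ j ∈ s, ‖u j - v j‖ := Finset.sum_nonneg fun _ _ => norm_nonneg _
    calc ‖u i * (∏ j ∈ s, u j - ∏ j ∈ s, v j) + (u i - v i) * (∏ j ∈ s, v j)‖
        ≤ ‖u i‖ * ‖∏ j ∈ s, u j - ∏ j ∈ s, v j‖ + ‖u i - v i‖ * ‖∏ j ∈ s, v j‖ := by
          refine (norm_add_le _ _).trans ?_
          rw [norm_mul, norm_mul]
      _ ≤ C * (C ^ s.card * ∑ j ∈ s, ‖u j - v j‖) + ‖u i - v i‖ * C ^ s.card :=
          add_le_add (mul_le_mul (hu i) ih (norm_nonneg _) hC0) (mul_le_mul_of_nonneg_left (hvm s) (norm_nonneg _))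
      _ ≤ C * (C ^ s.card * ∑ j ∈ s, ‖u j - v j‖) + ‖u i - v i‖ * (C ^ s.card * C) := by
          gcongr
          calc C ^ s.card = C ^ s.card * 1 := (mul_one _).symm
            _ ≤ C ^ s.card * C := by gcongr
      _ = C ^ (s.card + 1) * (‖u i - v i‖ + ∑ j ∈ s, ‖u j - v j‖) := by ring

/-- functions which are close in the mean have close averages -/
lemma close (ν : Measure X) [IsProbabilityMeasure ν] {T : X → X} (hT : MeasurePreserving T ν ν) {m : ℕ}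
    (a : Fin m → ℕ) (f g : Fin m → X → ℂ) (hf : ∀ j, Measurable (f j)) (hg : ∀ j, Measurable (g j)) (C : ℝ)
    (hC : 1 ≤ C) (hfC : ∀ j x, ‖f j x‖ ≤ C) (hgC : ∀ j x, ‖g j x‖ ≤ C) (ε : ℝ)
    (hfg : ∀ j, ∫ x, ‖f j x - g j x‖ ∂ν ≤ ε) (δ : ℝ) (hδ : 0 < δ) :
    ν {x | ¬ ∀ᶠ N : ℕ in atTop, ‖AV T a f N x - AV T a g N x‖ ≤ δ} ≤
      ENNReal.ofReal (m * (C ^ m * (m + 1) * ε / δ)) := by
  have hC0 : 0 < C := by linarith
  set δ' : ℝ := δ / (C ^ m * (m + 1)) with hδ'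
  have hδ'0 : 0 < δ' := by positivity
  set u : Fin m → X → ℝ := fun j x => ‖f j x - g j x‖ with hu
  have hum : ∀ j, Measurable (u j) := fun j => ((hf j).sub (hg j)).norm
  have hub : ∀ j x, u j x ≤ C + C := fun j x => (norm_sub_le _ _).trans (add_le_add (hfC j x) (hgC j x))
  set U : Fin m → Set X := fun j =>
    {z | ¬ ∀ᶠ N : ℕ in atTop, (N : ℝ)⁻¹ * ∑ n ∈ range N, u j (T^[a j * (n + 1)] z) ≤ δ'} with hU
  have hsub : {x | ¬ ∀ᶠ N : ℕ in atTop, ‖AV T a f N x - AV T a g N x‖ ≤ δ} ⊆ ⋃ j ∈ (Finset.univ : Finset (Fin m)), U j := by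
    intro x hx
    by_contra hcon
    apply hx
    have hev : ∀ j : Fin m, ∀ᶠ N : ℕ in atTop, (N : ℝ)⁻¹ * ∑ n ∈ range N, u j (T^[a j * (n + 1)] x) ≤ δ' := by
      intro j
      by_contra hne
      exact hcon (Set.mem_biUnion (Finset.mem_coe.2 (Finset.mem_univ j)) hne)
    filter_upwards [Filter.eventually_all.2 hev] with N hN
    unfold AV av
    rw [← mul_sub, ← Finset.sum_sub_distrib, norm_mul, norm_inv, Complex.norm_natCast]
    calc (N : ℝ)⁻¹ * ‖∑ n ∈ range N, (∏ j, f j (T^[a j * (n + 1)] x) - ∏ j, g j (T^[a j * (n + 1)] x))‖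
        ≤ (N : ℝ)⁻¹ * ∑ n ∈ range N, C ^ m * ∑ j, u j (T^[a j * (n + 1)] x) := by
          gcongr
          refine norm_sum_le_of_le _ fun n _ => ?_
          have := prod_sub_le C hC Finset.univ (fun j => f j (T^[a j * (n + 1)] x))
            (fun j => g j (T^[a j * (n + 1)] x)) (fun j => hfC j _) (fun j => hgC j _)
          rw [Finset.card_univ, Fintype.card_fin] at this
          exact this
      _ = C ^ m * ∑ j, (N : ℝ)⁻¹ * ∑ n ∈ range N, u j (T^[a j * (n + 1)] x) := by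
          rw [← Finset.mul_sum, Finset.sum_comm, ← Finset.mul_sum]
          ring
      _ ≤ C ^ m * ∑ _j : Fin m, δ' := by
          gcongr with j _
          exact hN j
      _ ≤ δ := by
          rw [Finset.sum_const, Finset.card_univ, Fintype.card_fin, nsmul_eq_mul, hδ']
          have e : C ^ m * ((m : ℝ) * (δ / (C ^ m * (m + 1)))) = δ * (m / (m + 1)) := by field_simp
          rw [e]
          have e3 : (m : ℝ) / (m + 1) ≤ 1 := by rw [div_le_one (by positivity)]; linarith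
          nlinarith
  refine (measure_mono hsub).trans ((measure_biUnion_finset_le _ _).trans ?_)
  have hUb : ∀ j ∈ (Finset.univ : Finset (Fin m)), ν (U j) ≤ ENNReal.ofReal (C ^ m * (m + 1) * ε / δ) := by
    intro j _
    refine (avg_small ν hT (a j) (u j) (hum j) (C + C) (fun z => norm_nonneg _) (hub j) δ' hδ'0).trans ?_
    apply ENNReal.ofReal_le_ofReal
    have e : C ^ m * (m + 1) * ε / δ = ε / δ' := by rw [hδ']; field_simp
    rw [e]
    gcongr
    exact hfg j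
  refine (Finset.sum_le_sum hUb).trans ?_
  rw [Finset.sum_const, Finset.card_univ, Fintype.card_fin, nsmul_eq_mul, ← ENNReal.ofReal_natCast,
    ← ENNReal.ofReal_mul (by positivity)]

/-- a criterion for convergence almost everywhere -/
lemma conv_of_approx (ν : Measure X) (F : ℕ → X → ℂ)
    (h : ∀ δ : ℝ, 0 < δ → ∀ ε : ℝ, 0 < ε → ∃ G : ℕ → X → ℂ,
      (∀ᵐ x ∂ν, ∃ L, Tendsto (fun N => G N x) atTop (𝓝 L)) ∧
      ν {x | ¬ ∀ᶠ N : ℕ in atTop, ‖F N x - G N x‖ ≤ δ} ≤ ENNReal.ofReal ε) :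
    ∀ᵐ x ∂ν, ∃ L, Tendsto (fun N => F N x) atTop (𝓝 L) := by
  have key : ∀ k : ℕ, ∀ᵐ x ∂ν, ∃ N0 : ℕ, ∀ N ≥ N0, ∀ M ≥ N0, ‖F N x - F M x‖ ≤ 3 / ((k : ℝ) + 1) := by
    intro k
    set δ : ℝ := 1 / ((k : ℝ) + 1) with hδ
    have hδ0 : 0 < δ := by positivity
    rw [ae_iff, ← nonpos_iff_eq_zero]
    apply ENNReal.le_of_forall_pos_le_add
    intro η hη _
    rw [zero_add]
    obtain ⟨G, hG, hGF⟩ := h δ hδ0 η (by exact_mod_cast hη)
    have hsub : {x | ¬ ∃ N0 : ℕ, ∀ N ≥ N0, ∀ M ≥ N0, ‖F N x - F M x‖ ≤ 3 / ((k : ℝ) + 1)} ≤ᵐ[ν]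
        {x | ¬ ∀ᶠ N : ℕ in atTop, ‖F N x - G N x‖ ≤ δ} := by
      filter_upwards [hG] with x hx hbad
      change ¬ ∀ᶠ N : ℕ in atTop, ‖F N x - G N x‖ ≤ δ
      intro hev
      apply hbad
      obtain ⟨L, hL⟩ := hx
      have h1 := (Metric.tendsto_nhds.1 hL) (δ / 2) (by positivity)
      obtain ⟨N0, hN0⟩ := eventually_atTop.1 (hev.and h1)
      refine ⟨N0, fun N hN M hM => ?_⟩
      obtain ⟨a1, a2⟩ := hN0 N hN
      obtain ⟨b1, b2⟩ := hN0 M hM
      rw [dist_eq_norm] at a2 b2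
      have e : F N x - F M x = (F N x - G N x) + (G N x - L) - (G M x - L) - (F M x - G M x) := by ring
      have e3 : 3 / ((k : ℝ) + 1) = 3 * δ := by rw [hδ]; ring
      rw [e, e3]
      calc _ ≤ ‖F N x - G N x‖ + ‖G N x - L‖ + ‖G M x - L‖ + ‖F M x - G M x‖ := by
            refine (norm_sub_le _ _).trans (add_le_add ((norm_sub_le _ _).trans (add_le_add (norm_add_le _ _) le_rfl)) le_rfl)
        _ ≤ 3 * δ := by linarith
    refine (measure_mono_ae hsub).trans (hGF.trans (le_of_eq ?_))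
    exact ENNReal.ofReal_coe_nnreal
  filter_upwards [ae_all_iff.2 key] with x hx
  apply cauchySeq_tendsto_of_complete
  rw [Metric.cauchySeq_iff]
  intro ε hε
  obtain ⟨k, hk⟩ := exists_nat_one_div_lt (show 0 < ε / 3 by positivity)
  obtain ⟨N0, hN0⟩ := hx k
  refine ⟨N0, fun N hN M hM => ?_⟩
  rw [dist_eq_norm]
  refine (hN0 N hN M hM).trans_lt ?_
  have : 3 / ((k : ℝ) + 1) = 3 * (1 / ((k : ℝ) + 1)) := by ring
  rw [this]
  linarith

lemma zero_of_approx (ν : Measure X) (F : ℕ → X → ℂ)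
    (h : ∀ δ : ℝ, 0 < δ → ∀ ε : ℝ, 0 < ε → ν {x | ¬ ∀ᶠ N : ℕ in atTop, ‖F N x‖ ≤ δ} ≤ ENNReal.ofReal ε) :
    ∀ᵐ x ∂ν, Tendsto (fun N => F N x) atTop (𝓝 0) := by
  have key : ∀ k : ℕ, ∀ᵐ x ∂ν, ∀ᶠ N : ℕ in atTop, ‖F N x‖ ≤ 1 / ((k : ℝ) + 1) := by
    intro k
    rw [ae_iff, ← nonpos_iff_eq_zero]
    apply ENNReal.le_of_forall_pos_le_add
    intro η hη _
    rw [zero_add]
    refine (h _ (by positivity) η (by exact_mod_cast hη)).trans (le_of_eq ?_)
    exact ENNReal.ofReal_coe_nnreal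
  filter_upwards [ae_all_iff.2 key] with x hx
  rw [tendsto_zero_iff_norm_tendsto_zero, Metric.tendsto_atTop]
  intro ε hε
  obtain ⟨k, hk⟩ := exists_nat_one_div_lt hε
  obtain ⟨N0, hN0⟩ := eventually_atTop.1 (hx k)
  refine ⟨N0, fun N hN => ?_⟩
  rw [Real.dist_eq, sub_zero, abs_of_nonneg (norm_nonneg _)]
  exact (hN0 N hN).trans_lt hk

/-- abstract form of the bound for the double averages -/
lemma double_small (c : ℕ → ℕ → ℂ) (hc1 : ∀ d k, ‖c d k‖ ≤ 1) (β : ℕ → ℝ≥0∞) (e : ℕ) (he : 0 < e) (δ1 ε1 : ℝ)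
    (hδ1 : 0 < δ1) (hε1 : 0 < ε1)
    (hgood : ∀ d, β (e * d) ≤ ENNReal.ofReal δ1 → ∀ᶠ N : ℕ in atTop, ‖av N (c d)‖ ≤ ε1)
    (hlim : limsup (fun H : ℕ => (H : ℝ≥0∞)⁻¹ * ∑ h ∈ range H, β h) atTop ≤ ENNReal.ofReal (ε1 * δ1 / (4 * e))) :
    ∃ H : ℕ, 0 < H ∧ ∀ᶠ N : ℕ in atTop,
      ((H : ℝ)⁻¹) ^ 2 * ∑ h ∈ range H, ∑ h' ∈ range H, (av N (c (Nat.dist h h'))).re ≤ 3 * ε1 := by
  have heR : (0 : ℝ) < e := by exact_mod_cast he
  set δ : ℝ := ε1 * δ1 / (4 * e) with hδ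
  have hδp : 0 < δ := by positivity
  have hcnt := count_bad β e he δ δ1 hδp hlim
  obtain ⟨H, hH1, hHc⟩ := ((eventually_ge_atTop 1).and hcnt).exists
  have hHR : (0 : ℝ) < H := by exact_mod_cast hH1
  set B := (range H).filter fun d => ¬ β (e * d) ≤ ENNReal.ofReal δ1 with hB
  have hBH : (B.card : ℝ) ≤ ε1 / 2 * H := by
    have h1 : δ1 * (B.card : ℝ) ≤ δ1 * (ε1 / 2 * H) := by
      refine hHc.trans (le_of_eq ?_)
      rw [hδ]
      field_simp
      ring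
    exact le_of_mul_le_mul_left h1 hδ1
  have hgood' : ∀ᶠ N : ℕ in atTop, ∀ d ∈ (range H).filter (fun d => β (e * d) ≤ ENNReal.ofReal δ1),
      ‖av N (c d)‖ ≤ ε1 := by
    rw [Filter.eventually_all_finset]
    intro d hd
    rw [Finset.mem_filter] at hd
    exact hgood d hd.2
  refine ⟨H, hH1, ?_⟩
  filter_upwards [hgood'] with N hN
  set lb : ℕ → ℝ := fun d => if β (e * d) ≤ ENNReal.ofReal δ1 then ε1 else 1 with hlb
  have hlb0 : ∀ d, 0 ≤ lb d := by
    intro d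
    simp only [hlb]
    split_ifs
    · exact hε1.le
    · exact zero_le_one
  have hle : ∀ h ∈ range H, ∀ h' ∈ range H, (av N (c (Nat.dist h h'))).re ≤ lb (Nat.dist h h') := by
    intro h hh h' hh'
    rw [Finset.mem_range] at hh hh'
    have hdH : Nat.dist h h' < H := by unfold Nat.dist; omega
    refine (Complex.re_le_norm _).trans ?_
    simp only [hlb]
    split_ifs with hg
    · exact hN _ (Finset.mem_filter.2 ⟨Finset.mem_range.2 hdH, hg⟩)
    · exact av_norm_le zero_le_one (hc1 _)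
  have hsumlb : ∑ d ∈ range H, lb d ≤ ε1 * H + B.card := by
    have h1 : ∀ d ∈ range H, lb d ≤ ε1 + (if ¬ β (e * d) ≤ ENNReal.ofReal δ1 then 1 else 0) := by
      intro d _
      simp only [hlb]
      by_cases hg : β (e * d) ≤ ENNReal.ofReal δ1
      · simp [hg]
      · simp only [hg, if_false, not_false_eq_true, if_true]
        linarith
    refine (Finset.sum_le_sum h1).trans (le_of_eq ?_)
    rw [Finset.sum_add_distrib, Finset.sum_const, Finset.card_range, nsmul_eq_mul, Finset.sum_boole]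
    ring
  calc ((H : ℝ)⁻¹) ^ 2 * ∑ h ∈ range H, ∑ h' ∈ range H, (av N (c (Nat.dist h h'))).re
      ≤ ((H : ℝ)⁻¹) ^ 2 * ∑ h ∈ range H, ∑ h' ∈ range H, lb (Nat.dist h h') := by
        gcongr with h hh h' hh'
        exact hle h hh h' hh'
    _ ≤ ((H : ℝ)⁻¹) ^ 2 * (2 * H * (ε1 * H + ε1 / 2 * H)) := by
        gcongr
        refine (sum_dist_le H lb hlb0).trans ?_
        gcongr
        linarith
    _ = 3 * ε1 := by
        field_simp
        ring

end Pool.Agent.H80GE
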