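import Pool.Agent.H80GE.Vdc

/-!
# Host-Kra seminorms and multiple correlations
-/

set_option autoImplicit false

open MeasureTheory Filter Topology Finset
open scoped ComplexConjugate ENNReal

namespace Pool.Agent.H80GE

variable {X : Type*} [MeasurableSpace X]

/-- `box μ T b k f` is the power `2 ^ (k + 1)` of the seminorm of Host and Kra of order `k + 1`
(with the power `T ^ b` at the lowest level) -/
noncomputable def box (μ : Measure X) (T : X → X) (b : ℕ) : ℕ → (X → ℂ) → ℝ≥0∞
  | 0, f => limsup (fun N : ℕ => ∫⁻ x, ‖(N : ℂ)⁻¹ * ∑ n ∈ range N, f (T^[b * n] x)‖ₑ ^ 2 ∂μ) atTop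
  | k + 1, f => limsup (fun H : ℕ => (H : ℝ≥0∞)⁻¹ * ∑ h ∈ range H,
      box μ T b k (fun x => f (T^[h] x) * conj (f x))) atTop

lemma box_comp {μ : Measure X} {T : X → X} (hT : Measurable T) (b : ℕ) {R : X → X}
    (hR : MeasurePreserving R μ μ) (hc : ∀ x, R (T x) = T (R x)) (k : ℕ) {f : X → ℂ} (hf : Measurable f) :
    box μ T b k (fun x => f (R x)) = box μ T b k f := by
  have hcn : ∀ n x, R (T^[n] x) = T^[n] (R x) := by
    intro n
    induction n with
    | zero => intro x; rfl
    | succ n ih =>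
      intro x
      rw [Function.iterate_succ_apply, Function.iterate_succ_apply, ih, hc]
  induction k generalizing f with
  | zero =>
    unfold box
    congr 1
    funext N
    simp_rw [hcn]
    have hm : Measurable (fun x => ‖(N : ℂ)⁻¹ * ∑ n ∈ range N, f (T^[b * n] x)‖ₑ ^ 2) := by
      refine Measurable.pow_const (Measurable.enorm ?_) 2
      exact (Finset.measurable_sum _ fun n _ => hf.comp (hT.iterate _)).const_mul _
    exact hR.lintegral_comp hm
  | succ k ih =>
    unfold box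
    congr 1
    funext H
    congr 1
    refine Finset.sum_congr rfl fun h _ => ?_
    have hm : Measurable (fun x => f (T^[h] x) * conj (f x)) :=
      (hf.comp (hT.iterate _)).mul (Complex.continuous_conj.measurable.comp hf)
    rw [← ih hm]
    simp_rw [hcn]

lemma box_conj {μ : Measure X} {T : X → X} (b : ℕ) (k : ℕ) (f : X → ℂ) :
    box μ T b k (fun x => conj (f x)) = box μ T b k f := by
  induction k generalizing f with
  | zero =>
    unfold box
    congr 1
    funext N
    congr 1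
    funext x
    have e : (N : ℂ)⁻¹ * ∑ n ∈ range N, conj (f (T^[b * n] x)) =
        conj ((N : ℂ)⁻¹ * ∑ n ∈ range N, f (T^[b * n] x)) := by
      rw [map_mul, map_sum, map_inv₀, Complex.conj_natCast]
    rw [e]
    congr 1
    rw [enorm_eq_iff_norm_eq, RCLike.norm_conj]
  | succ k ih =>
    unfold box
    congr 1
    funext H
    congr 1
    refine Finset.sum_congr rfl fun h _ => ?_
    rw [← ih]
    congr 1
    funext x
    simp

section Perm

variable {μ : Measure X} {T : Equiv.Perm X}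

lemma mp_zpow (hT : MeasurePreserving T μ μ) (hTi : Measurable T.symm) (z : ℤ) :
    MeasurePreserving (T ^ z : Equiv.Perm X) μ μ := by
  have hinv : MeasurePreserving (T⁻¹ : Equiv.Perm X) μ μ := by
    have e : (T⁻¹ : Equiv.Perm X) = T.symm := rfl
    rw [e]
    let Te : X ≃ᵐ X := ⟨T, hT.measurable, hTi⟩
    have h : MeasurePreserving Te μ μ := hT
    exact h.symm
  have hn : ∀ (P : Equiv.Perm X), MeasurePreserving P μ μ → ∀ n : ℕ, MeasurePreserving (P ^ n : Equiv.Perm X) μ μ := by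
    intro P hP n
    rw [← Equiv.Perm.iterate_eq_pow]
    exact hP.iterate n
  rcases Int.eq_nat_or_neg z with ⟨n, rfl | rfl⟩
  · rw [zpow_natCast]; exact hn T hT n
  · rw [zpow_neg, zpow_natCast, ← inv_pow]; exact hn _ hinv n

lemma zpow_commute (z : ℤ) (x : X) : (T ^ z : Equiv.Perm X) (T x) = T ((T ^ z : Equiv.Perm X) x) := by
  rw [← Equiv.Perm.mul_apply, ← Equiv.Perm.mul_apply]
  congr 1
  rw [← zpow_add_one, ← zpow_one_add, add_comm]

lemma iter_eq (n : ℕ) (x : X) : T^[n] x = (T ^ (n : ℤ) : Equiv.Perm X) x := by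
  rw [zpow_natCast, ← Equiv.Perm.iterate_eq_pow]

lemma box_zpow (hT : MeasurePreserving T μ μ) (hTi : Measurable T.symm) (b k : ℕ) {f : X → ℂ}
    (hf : Measurable f) (z : ℤ) :
    box μ T b k (fun x => f ((T ^ z : Equiv.Perm X) x) * conj (f x)) =
      box μ T b k (fun x => f (T^[z.natAbs] x) * conj (f x)) := by
  have hm : ∀ n : ℕ, Measurable (fun x => f (T^[n] x) * conj (f x)) := fun n =>
    (hf.comp (hT.measurable.iterate _)).mul (Complex.continuous_conj.measurable.comp hf)
  rcases Int.eq_nat_or_neg z with ⟨n, rfl | rfl⟩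
  · simp only [Int.natAbs_natCast]
    simp_rw [iter_eq]
  · simp only [Int.natAbs_neg, Int.natAbs_natCast]
    have e : (fun x => f ((T ^ (-(n : ℤ)) : Equiv.Perm X) x) * conj (f x)) =
        fun x => (fun y => conj (f (T^[n] y) * conj (f y))) ((T ^ (-(n : ℤ)) : Equiv.Perm X) x) := by
      funext x
      have h1 : T^[n] ((T ^ (-(n : ℤ)) : Equiv.Perm X) x) = x := by
        rw [iter_eq, ← Equiv.Perm.mul_apply, ← zpow_add]
        simp
      simp only [h1, map_mul, Complex.conj_conj]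
      ring
    rw [e, box_comp hT.measurable b (mp_zpow hT hTi _) (zpow_commute _) k
      (f := fun y => conj (f (T^[n] y) * conj (f y)))
      (Complex.continuous_conj.measurable.comp (hm n)), box_conj]

end Perm

/-- the norm of an integral with a factor of norm at most one -/
lemma norm_int_sq_le {Ω : Type*} [MeasurableSpace Ω] (P : Measure Ω) [IsProbabilityMeasure P] {F g : Ω → ℂ}
    (hF : ∀ ω, ‖F ω‖ ≤ 1) (hg : AEStronglyMeasurable g P) {D : ℝ} (hD : ∀ ω, ‖g ω‖ ≤ D) :
    ‖∫ ω, F ω * g ω ∂P‖ ^ 2 ≤ ∫ ω, ‖g ω‖ ^ 2 ∂P := by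
  have i1 : Integrable (fun ω => ‖g ω‖) P :=
    (Integrable.of_bound hg D (Eventually.of_forall hD)).norm
  have i2 : Integrable (fun ω => ‖g ω‖ ^ 2) P := by
    refine Integrable.of_bound (hg.norm.pow 2) (D ^ 2) (Eventually.of_forall fun ω => ?_)
    rw [norm_pow, norm_norm]
    exact pow_le_pow_left₀ (norm_nonneg _) (hD ω) 2
  have h1 : ‖∫ ω, F ω * g ω ∂P‖ ≤ ∫ ω, ‖g ω‖ ∂P := by
    refine (norm_integral_le_integral_norm _).trans ?_
    refine integral_mono_of_nonneg (Eventually.of_forall fun ω => norm_nonneg _) i1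
      (Eventually.of_forall fun ω => ?_)
    change ‖F ω * g ω‖ ≤ ‖g ω‖
    rw [norm_mul]
    exact mul_le_of_le_one_left (norm_nonneg _) (hF ω)
  calc ‖∫ ω, F ω * g ω ∂P‖ ^ 2 ≤ (∫ ω, ‖g ω‖ ∂P) ^ 2 := by gcongr
    _ ≤ ∫ ω, ‖g ω‖ ^ 2 ∂P := sq_int_le P i1 i2

lemma prod_norm_le_one {ι : Type*} (s : Finset ι) (v : ι → ℂ) (h : ∀ l, ‖v l‖ ≤ 1) : ‖∏ l ∈ s, v l‖ ≤ 1 := by
  rw [norm_prod]
  exact Finset.prod_le_one (fun _ _ => norm_nonneg _) fun l _ => h l

end Pool.Agent.H80GE
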