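import Pool.Agent.H80GE.HKClose

/-!
# Weakly mixing systems: correlations in the mean and the seminorms
-/

set_option autoImplicit false

open MeasureTheory Filter Topology Finset
open scoped ComplexConjugate ENNReal

namespace Pool.Agent.H80GE

section Erg

variable {B : Type*} [MeasurableSpace B] {ν : Measure B} [IsProbabilityMeasure ν] {T : B → B}

/-- the ergodic theorem for bounded real functions on an ergodic system -/
lemma erg_real (hT : Ergodic T ν) (f : B → ℝ) (hf : Measurable f) (C : ℝ) (hb : ∀ x, |f x| ≤ C) :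
    ∀ᵐ x ∂ν, Tendsto (fun n : ℕ => (n : ℝ)⁻¹ * ∑ k ∈ range n, f (T^[k] x)) atTop (𝓝 (∫ x, f x ∂ν)) := by
  have hbirk := Pool.Agent.H165R3.BPE.birkhoff hT.toMeasurePreserving f hf C hb
  have hfi : Integrable f ν := Integrable.of_bound hf.aestronglyMeasurable C
    (Eventually.of_forall fun x => by rw [Real.norm_eq_abs]; exact hb x)
  set g : B → ℝ := ν[f | MeasurableSpace.invariants T] with hg
  have hgm' : Measurable[MeasurableSpace.invariants T] g := stronglyMeasurable_condExp.measurable
  have hgm : Measurable g := hgm'.mono (MeasurableSpace.invariants_le T) le_rfl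
  have hgT : g ∘ T = g := MeasurableSpace.comp_eq_of_measurable_invariants hgm'
  obtain ⟨c, hc⟩ := hT.toPreErgodic.ae_eq_const_of_ae_eq_comp hgm hgT
  have hc2 : c = ∫ x, f x ∂ν := by
    have h1 : ∫ x, g x ∂ν = ∫ x, f x ∂ν := integral_condExp (MeasurableSpace.invariants_le T)
    have h2 : ∫ x, g x ∂ν = c := by
      rw [integral_congr_ae hc]
      simp
    rw [← h1, h2]
  filter_upwards [hbirk, hc] with x hx hcx
  have h3 : g x = c := hcx
  rw [h3, hc2] at hx
  exact hx

lemma erg_complex (hT : Ergodic T ν) (f : B → ℂ) (hf : Measurable f) (C : ℝ) (hb : ∀ x, ‖f x‖ ≤ C) :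
    ∀ᵐ x ∂ν, Tendsto (fun n : ℕ => av n (fun k => f (T^[k] x))) atTop (𝓝 (∫ x, f x ∂ν)) := by
  have h1 := erg_real hT (fun x => (f x).re) (Complex.measurable_re.comp hf) C
    (fun x => (Complex.abs_re_le_norm _).trans (hb x))
  have h2 := erg_real hT (fun x => (f x).im) (Complex.measurable_im.comp hf) C
    (fun x => (Complex.abs_im_le_norm _).trans (hb x))
  have hfi : Integrable f ν := Integrable.of_bound hf.aestronglyMeasurable C (Eventually.of_forall hb)
  have e1 : ∫ x, (f x).re ∂ν = (∫ x, f x ∂ν).re := integral_re hfi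
  have e2 : ∫ x, (f x).im ∂ν = (∫ x, f x ∂ν).im := integral_im hfi
  rw [e1] at h1
  rw [e2] at h2
  filter_upwards [h1, h2] with x hx1 hx2
  have h3 : Tendsto (fun n : ℕ => (((n : ℝ)⁻¹ * ∑ k ∈ range n, (f (T^[k] x)).re : ℝ) : ℂ) +
      (((n : ℝ)⁻¹ * ∑ k ∈ range n, (f (T^[k] x)).im : ℝ) : ℂ) * Complex.I) atTop
      (𝓝 ((((∫ x, f x ∂ν).re : ℝ) : ℂ) + (((∫ x, f x ∂ν).im : ℝ) : ℂ) * Complex.I)) :=
    ((Complex.continuous_ofReal.tendsto _).comp hx1).add
      (((Complex.continuous_ofReal.tendsto _).comp hx2).mul_const _)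
  rw [Complex.re_add_im] at h3
  refine h3.congr fun n => ?_
  unfold av
  push_cast
  rw [mul_assoc, ← mul_add, Finset.sum_mul, ← Finset.sum_add_distrib]
  congr 1
  exact Finset.sum_congr rfl fun k _ => Complex.re_add_im _

end Erg

section WM

variable {Y : Type*} [MeasurableSpace Y] {μ : Measure Y} [IsProbabilityMeasure μ] {S : Y → Y}

/-- for functions of integral zero -/
lemma wm_cesaro0 (hE : Ergodic (Prod.map S S) (μ.prod μ)) (F G : Y → ℂ)
    (hF : Measurable F) (hG : Measurable G) {C : ℝ} (hFC : ∀ y, ‖F y‖ ≤ C) (hGC : ∀ y, ‖G y‖ ≤ C)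
    (hF0 : ∫ y, F y ∂μ = 0) :
    Tendsto (fun N : ℕ => (N : ℝ)⁻¹ * ∑ n ∈ range N, ‖∫ y, F (S^[n] y) * G y ∂μ‖) atTop (𝓝 0) := by
  set A : ℕ → ℂ := fun n => ∫ y, F (S^[n] y) * G y ∂μ with hA
  have hmapit : ∀ n (z : Y × Y), (Prod.map S S)^[n] z = (S^[n] z.1, S^[n] z.2) := by
    intro n z
    rw [Prod.map_iterate]
    rfl
  set FF : Y × Y → ℂ := fun z => F z.1 * conj (F z.2) with hFF
  set GG : Y × Y → ℂ := fun z => G z.1 * conj (G z.2) with hGG
  have hFFm : Measurable FF := (hF.comp measurable_fst).mul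
    (Complex.continuous_conj.measurable.comp (hF.comp measurable_snd))
  have hGGm : Measurable GG := (hG.comp measurable_fst).mul
    (Complex.continuous_conj.measurable.comp (hG.comp measurable_snd))
  have hFFb : ∀ z, ‖FF z‖ ≤ C * C := by
    intro z
    simp only [hFF]
    rw [norm_mul, RCLike.norm_conj]
    exact mul_le_mul (hFC _) (hFC _) (norm_nonneg _) ((norm_nonneg _).trans (hFC z.1))
  have hGGb : ∀ z, ‖GG z‖ ≤ C * C := by
    intro z
    simp only [hGG]
    rw [norm_mul, RCLike.norm_conj]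
    exact mul_le_mul (hGC _) (hGC _) (norm_nonneg _) ((norm_nonneg _).trans (hGC z.1))
  have hsq : ∀ n, ((‖A n‖ ^ 2 : ℝ) : ℂ) = ∫ z, FF ((Prod.map S S)^[n] z) * GG z ∂(μ.prod μ) := by
    intro n
    have h1 : ((‖A n‖ ^ 2 : ℝ) : ℂ) = A n * conj (A n) := by
      rw [Complex.mul_conj, Complex.normSq_eq_norm_sq]
    rw [h1]
    simp only [hA]
    rw [← integral_conj]
    have h2 := integral_prod_mul (μ := μ) (ν := μ) (fun y => F (S^[n] y) * G y)
      (fun y => conj (F (S^[n] y) * G y))
    rw [← h2]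
    refine integral_congr_ae (Eventually.of_forall fun z => ?_)
    simp only [hFF, hGG, hmapit, map_mul]
    ring
  have hFF0 : ∫ z, FF z ∂(μ.prod μ) = 0 := by
    simp only [hFF]
    rw [integral_prod_mul (μ := μ) (ν := μ) (fun y => F y) (fun y => conj (F y)), hF0, zero_mul]
  have herg := erg_complex hE FF hFFm (C * C) hFFb
  rw [hFF0] at herg
  have hlim : Tendsto (fun N : ℕ => ∫ z, av N (fun n => FF ((Prod.map S S)^[n] z)) * GG z ∂(μ.prod μ)) atTop
      (𝓝 (∫ z, (0 : ℂ) * GG z ∂(μ.prod μ))) := by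
    refine tendsto_integral_of_dominated_convergence (fun _ => (C * C) * (C * C)) (fun N => ?_) (integrable_const _)
      (fun N => Eventually.of_forall fun z => ?_) ?_
    · refine Measurable.aestronglyMeasurable (Measurable.mul ?_ hGGm)
      exact (Finset.measurable_sum _ fun n _ => hFFm.comp (hE.measurable.iterate n)).const_mul _
    · rw [norm_mul]
      have hCC : 0 ≤ C * C := (norm_nonneg _).trans (hFFb z)
      exact mul_le_mul (av_norm_le hCC fun n => hFFb _) (hGGb _) (norm_nonneg _) hCC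
    · filter_upwards [herg] with z hz
      exact hz.mul_const _
  simp only [zero_mul, integral_zero] at hlim
  have hlim2 : Tendsto (fun N : ℕ => (N : ℝ)⁻¹ * ∑ n ∈ range N, ‖A n‖ ^ 2) atTop (𝓝 0) := by
    have h1 : ∀ N : ℕ, (((N : ℝ)⁻¹ * ∑ n ∈ range N, ‖A n‖ ^ 2 : ℝ) : ℂ) =
        ∫ z, av N (fun n => FF ((Prod.map S S)^[n] z)) * GG z ∂(μ.prod μ) := by
      intro N
      push_cast
      have h2 : ∀ n ∈ range N, ((‖A n‖ : ℂ)) ^ 2 = ∫ z, FF ((Prod.map S S)^[n] z) * GG z ∂(μ.prod μ) := by
        intro n _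
        rw [← hsq]
        push_cast
        rfl
      rw [Finset.sum_congr rfl h2]
      unfold av
      rw [← integral_finsetSum, ← integral_const_mul]
      · refine integral_congr_ae (Eventually.of_forall fun z => ?_)
        simp only
        rw [mul_assoc, Finset.sum_mul]
      · intro n _
        refine Integrable.of_bound ((hFFm.comp (hE.measurable.iterate n)).mul hGGm).aestronglyMeasurable
          ((C * C) * (C * C)) (Eventually.of_forall fun z => ?_)
        rw [norm_mul]
        exact mul_le_mul (hFFb _) (hGGb _) (norm_nonneg _) ((norm_nonneg _).trans (hFFb z))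
    simp_rw [← h1] at hlim
    have h3 := (Complex.continuous_re.tendsto _).comp hlim
    rw [Complex.zero_re] at h3
    refine h3.congr fun N => ?_
    simp only [Function.comp_apply]
    exact Complex.ofReal_re _
  -- Cauchy-Schwarz
  have hcs : ∀ N : ℕ, (N : ℝ)⁻¹ * ∑ n ∈ range N, ‖A n‖ ≤ √((N : ℝ)⁻¹ * ∑ n ∈ range N, ‖A n‖ ^ 2) := by
    intro N
    apply Real.le_sqrt_of_sq_le
    rcases Nat.eq_zero_or_pos N with rfl | hN
    · simp
    · have hN' : (0 : ℝ) < N := by exact_mod_cast hN
      have h2 : (∑ n ∈ range N, ‖A n‖) ^ 2 ≤ (N : ℝ) * ∑ n ∈ range N, ‖A n‖ ^ 2 := by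
        have := sq_sum_le_card_mul_sum_sq (s := range N) (f := fun n => ‖A n‖)
        simpa using this
      calc ((N : ℝ)⁻¹ * ∑ n ∈ range N, ‖A n‖) ^ 2 = (N : ℝ)⁻¹ ^ 2 * (∑ n ∈ range N, ‖A n‖) ^ 2 := by ring
        _ ≤ (N : ℝ)⁻¹ ^ 2 * ((N : ℝ) * ∑ n ∈ range N, ‖A n‖ ^ 2) := by gcongr
        _ = (N : ℝ)⁻¹ * ∑ n ∈ range N, ‖A n‖ ^ 2 := by field_simp
  have hs := hlim2.sqrt
  rw [Real.sqrt_zero] at hs
  exact squeeze_zero (fun N => by positivity) hcs hs

/-- correlations in the mean -/
lemma wm_cesaro (hS : MeasurePreserving S μ μ) (hE : Ergodic (Prod.map S S) (μ.prod μ)) (F G : Y → ℂ)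
    (hF : Measurable F) (hG : Measurable G) {C : ℝ} (hFC : ∀ y, ‖F y‖ ≤ C) (hGC : ∀ y, ‖G y‖ ≤ C) :
    Tendsto (fun N : ℕ => (N : ℝ)⁻¹ * ∑ n ∈ range N,
      ‖∫ y, F (S^[n] y) * G y ∂μ - (∫ y, F y ∂μ) * ∫ y, G y ∂μ‖) atTop (𝓝 0) := by
  set c : ℂ := ∫ y, F y ∂μ with hc
  have hY : Nonempty Y := by
    by_contra h
    rw [not_nonempty_iff] at h
    have := measure_univ (μ := μ)
    rw [Measure.eq_zero_of_isEmpty μ] at this
    simp at this
  obtain ⟨y0⟩ := hY
  have hC0 : 0 ≤ C := (norm_nonneg _).trans (hFC y0)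
  have hFi : Integrable F μ := Integrable.of_bound hF.aestronglyMeasurable C (Eventually.of_forall hFC)
  have hGi : Integrable G μ := Integrable.of_bound hG.aestronglyMeasurable C (Eventually.of_forall hGC)
  have hcC : ‖c‖ ≤ C := by
    rw [hc]
    refine (norm_integral_le_of_norm_le_const (Eventually.of_forall hFC)).trans (by simp)
  have h := wm_cesaro0 hE (fun y => F y - c) G (hF.sub_const c) hG (C := 2 * C)
    (fun y => (norm_sub_le _ _).trans (by linarith [hFC y])) (fun y => (hGC y).trans (by linarith)) (by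
      rw [integral_sub hFi (integrable_const _), integral_const, hc]
      simp)
  refine h.congr fun N => ?_
  congr 1
  refine Finset.sum_congr rfl fun n _ => ?_
  congr 1
  have hi : Integrable (fun y => F (S^[n] y) * G y) μ := by
    refine Integrable.of_bound ((hF.comp (hS.measurable.iterate n)).mul hG).aestronglyMeasurable (C * C)
      (Eventually.of_forall fun y => ?_)
    rw [norm_mul]
    exact mul_le_mul (hFC _) (hGC _) (norm_nonneg _) hC0
  have e : ∀ y, (F (S^[n] y) - c) * G y = F (S^[n] y) * G y - c * G y := fun y => by ring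
  simp_rw [e]
  rw [integral_sub hi (hGi.const_mul _), integral_const_mul]

/-- sums over multiples -/
lemma sub_sum (φ : ℕ → ℝ) (h0 : ∀ n, 0 ≤ φ n) (b : ℕ) (hb : 0 < b) (N : ℕ) :
    (N : ℝ)⁻¹ * ∑ n ∈ range N, φ (b * n) ≤ b * (((b * N : ℕ) : ℝ)⁻¹ * ∑ n ∈ range (b * N), φ n) := by
  rcases Nat.eq_zero_or_pos N with rfl | hN
  · simp
  · have hN' : (0 : ℝ) < N := by exact_mod_cast hN
    have hb' : (0 : ℝ) < b := by exact_mod_cast hb
    have h3 : ∑ d ∈ range N, φ (b * d) ≤ ∑ x ∈ range (b * N), φ x := by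
      have hinj : Set.InjOn (fun d => b * d) (range N : Set ℕ) := by
        intro x _ y _ hxy
        exact Nat.eq_of_mul_eq_mul_left hb hxy
      rw [← Finset.sum_image (f := φ) hinj]
      refine Finset.sum_le_sum_of_subset_of_nonneg ?_ fun i _ _ => h0 i
      intro x hx
      rw [Finset.mem_image] at hx
      obtain ⟨d, hd, rfl⟩ := hx
      rw [Finset.mem_range] at hd ⊢
      exact Nat.mul_lt_mul_of_pos_left hd hb
    calc (N : ℝ)⁻¹ * ∑ n ∈ range N, φ (b * n) ≤ (N : ℝ)⁻¹ * ∑ n ∈ range (b * N), φ n := by gcongr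
      _ = _ := by push_cast; field_simp

lemma sub_tendsto (φ : ℕ → ℝ) (h0 : ∀ n, 0 ≤ φ n) (b : ℕ) (hb : 0 < b)
    (h : Tendsto (fun N : ℕ => (N : ℝ)⁻¹ * ∑ n ∈ range N, φ n) atTop (𝓝 0)) :
    Tendsto (fun N : ℕ => (N : ℝ)⁻¹ * ∑ n ∈ range N, φ (b * n)) atTop (𝓝 0) := by
  have h1 : Tendsto (fun N : ℕ => b * N) atTop atTop := tendsto_id.const_mul_atTop' hb
  have h2 := (h.comp h1).const_mul (b : ℝ)
  rw [mul_zero] at h2
  exact squeeze_zero (fun N => mul_nonneg (by positivity) (Finset.sum_nonneg fun n _ => h0 _))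
    (fun N => sub_sum φ h0 b hb N) h2

/-- the seminorms of a weakly mixing system -/
lemma wm_box (hS : MeasurePreserving S μ μ) (hE : Ergodic (Prod.map S S) (μ.prod μ)) (b : ℕ) (hb : 0 < b) (k : ℕ) :
    ∀ F : Y → ℂ, Measurable F → (∀ y, ‖F y‖ ≤ 1) → box μ S b k F ≤ ‖∫ y, F y ∂μ‖ₑ := by
  induction k with
  | zero =>
    intro F hF hF1
    have hFc : Measurable (fun y => conj (F y)) := Complex.continuous_conj.measurable.comp hF
    have hces := wm_cesaro hS hE F (fun y => conj (F y)) hF hFc (C := 1) hF1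
      (fun y => by rw [RCLike.norm_conj]; exact hF1 y)
    have hces2 := sub_tendsto _ (fun n => norm_nonneg _) b hb hces
    set I : ℂ := ∫ y, F y ∂μ with hI
    have hIc : ∫ y, conj (F y) ∂μ = conj I := integral_conj
    rw [hIc] at hces2
    have hI1 : ‖I‖ ≤ 1 := by
      rw [hI]
      refine (norm_integral_le_of_norm_le_const (Eventually.of_forall hF1)).trans (by simp)
    -- the square of the average
    have hbound : ∀ N : ℕ, 0 < N → ∫ y, ‖av N (fun n => F (S^[b * n] y))‖ ^ 2 ∂μ ≤
        ‖I‖ ^ 2 + 2 * ((N : ℝ)⁻¹ * ∑ n ∈ range N,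
          ‖∫ y, F (S^[b * n] y) * conj (F y) ∂μ - I * conj I‖) := by
      intro N hN
      have hNR : (0 : ℝ) < N := by exact_mod_cast hN
      have hFn : ∀ n, Measurable (fun y => F (S^[n] y)) := fun n => hF.comp (hS.measurable.iterate n)
      have hi : ∀ n n', Integrable (fun y => F (S^[b * n] y) * conj (F (S^[b * n'] y))) μ := by
        intro n n'
        refine Integrable.of_bound ((hFn _).mul (Complex.continuous_conj.measurable.comp (hFn _))).aestronglyMeasurable 1
          (Eventually.of_forall fun y => ?_)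
        rw [norm_mul, RCLike.norm_conj]
        exact mul_le_one₀ (hF1 _) (norm_nonneg _) (hF1 _)
      have hre : ∀ n n', Integrable (fun y => (F (S^[b * n] y) * conj (F (S^[b * n'] y))).re) μ :=
        fun n n' => (hi n n').re
      simp_rw [av_expand]
      rw [integral_const_mul, integral_finsetSum _ fun h _ => integrable_finsetSum _ fun h' _ => hre _ _]
      have hin : ∀ h, ∫ y, ∑ h' ∈ range N, (F (S^[b * h] y) * conj (F (S^[b * h'] y))).re ∂μ =
          ∑ h' ∈ range N, (∫ y, F (S^[b * h] y) * conj (F (S^[b * h'] y)) ∂μ).re := by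
        intro h
        rw [integral_finsetSum _ fun h' _ => hre _ _]
        exact Finset.sum_congr rfl fun h' _ => integral_re (hi _ _)
      simp_rw [hin]
      set l : ℕ → ℝ := fun d => ‖∫ y, F (S^[b * d] y) * conj (F y) ∂μ - I * conj I‖ with hl
      have hterm : ∀ h h', (∫ y, F (S^[b * h] y) * conj (F (S^[b * h'] y)) ∂μ).re ≤ ‖I‖ ^ 2 + l (Nat.dist h h') := by
        intro h h'
        have gen : ∀ p d : ℕ, ∫ y, F (S^[b * (p + d)] y) * conj (F (S^[b * p] y)) ∂μ =
            ∫ y, F (S^[b * d] y) * conj (F y) ∂μ := by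
          intro p d
          have hmp := hS.iterate (b * p)
          have hm : AEStronglyMeasurable (fun y => F (S^[b * d] y) * conj (F y)) (Measure.map (S^[b * p]) μ) :=
            ((hFn _).mul hFc).aestronglyMeasurable
          have h3 := integral_map (μ := μ) hmp.measurable.aemeasurable hm
          rw [hmp.map_eq] at h3
          rw [h3]
          refine integral_congr_ae (Eventually.of_forall fun y => ?_)
          simp only
          rw [← Function.iterate_add_apply]
          congr 3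
          ring
        have hII : (I * conj I).re = ‖I‖ ^ 2 := by
          rw [Complex.mul_conj, Complex.normSq_eq_norm_sq, Complex.ofReal_re]
        have hfin : ∀ z : ℂ, z.re ≤ ‖I‖ ^ 2 + ‖z - I * conj I‖ := by
          intro z
          have := Complex.re_le_norm (z - I * conj I)
          rw [Complex.sub_re, hII] at this
          linarith
        rcases le_total h' h with hle | hle
        · have e : h = h' + Nat.dist h h' := by unfold Nat.dist; omega
          have e2 := gen h' (Nat.dist h h')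
          rw [← e] at e2
          rw [e2]
          exact hfin _
        · have e : h' = h + Nat.dist h h' := by unfold Nat.dist; omega
          have e2 := gen h (Nat.dist h h')
          rw [← e] at e2
          have e3 : ∫ y, F (S^[b * h] y) * conj (F (S^[b * h'] y)) ∂μ =
              conj (∫ y, F (S^[b * h'] y) * conj (F (S^[b * h] y)) ∂μ) := by
            rw [← integral_conj]
            refine integral_congr_ae (Eventually.of_forall fun y => ?_)
            simp only [map_mul, Complex.conj_conj]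
            ring
          rw [e3, Complex.conj_re, e2]
          exact hfin _
      calc ((N : ℝ)⁻¹) ^ 2 * ∑ h ∈ range N, ∑ h' ∈ range N, (∫ y, F (S^[b * h] y) * conj (F (S^[b * h'] y)) ∂μ).re
          ≤ ((N : ℝ)⁻¹) ^ 2 * ∑ h ∈ range N, ∑ h' ∈ range N, (‖I‖ ^ 2 + l (Nat.dist h h')) := by
            gcongr with h _ h' _
            exact hterm h h'
        _ ≤ ((N : ℝ)⁻¹) ^ 2 * (N * (N * ‖I‖ ^ 2) + 2 * N * ∑ d ∈ range N, l d) := by
            gcongr
            simp only [Finset.sum_add_distrib, Finset.sum_const, Finset.card_range, nsmul_eq_mul]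
            have := sum_dist_le N l fun d => norm_nonneg _
            linarith
        _ = _ := by
            field_simp
    have hlim : Tendsto (fun N : ℕ => ‖I‖ ^ 2 + 2 * ((N : ℝ)⁻¹ * ∑ n ∈ range N,
          ‖∫ y, F (S^[b * n] y) * conj (F y) ∂μ - I * conj I‖)) atTop (𝓝 (‖I‖ ^ 2)) := by
      have := (hces2.const_mul 2).const_add (‖I‖ ^ 2)
      simpa using this
    unfold box
    have hle : ∀ᶠ N : ℕ in atTop, ∫⁻ y, ‖(N : ℂ)⁻¹ * ∑ n ∈ range N, F (S^[b * n] y)‖ₑ ^ 2 ∂μ ≤
        ENNReal.ofReal (‖I‖ ^ 2 + 2 * ((N : ℝ)⁻¹ * ∑ n ∈ range N,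
          ‖∫ y, F (S^[b * n] y) * conj (F y) ∂μ - I * conj I‖)) := by
      filter_upwards [eventually_gt_atTop 0] with N hN
      have hm : Measurable (fun y => av N (fun n => F (S^[b * n] y))) :=
        (Finset.measurable_sum _ fun n _ => hF.comp (hS.measurable.iterate _)).const_mul _
      have hi2 : Integrable (fun y => ‖av N (fun n => F (S^[b * n] y))‖ ^ 2) μ := by
        refine Integrable.of_bound (hm.norm.pow_const 2).aestronglyMeasurable 1 (Eventually.of_forall fun y => ?_)
        rw [norm_pow, norm_norm]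
        exact pow_le_one₀ (norm_nonneg _) (av_norm_le zero_le_one fun n => hF1 _)
      have e1 : ∫⁻ y, ‖(N : ℂ)⁻¹ * ∑ n ∈ range N, F (S^[b * n] y)‖ₑ ^ 2 ∂μ =
          ENNReal.ofReal (∫ y, ‖av N (fun n => F (S^[b * n] y))‖ ^ 2 ∂μ) := by
        rw [ofReal_integral_eq_lintegral_ofReal hi2 (Eventually.of_forall fun y => by positivity)]
        congr 1
        funext y
        rw [ENNReal.ofReal_pow (norm_nonneg _), ofReal_norm]
        rfl
      rw [e1]
      exact ENNReal.ofReal_le_ofReal (hbound N hN)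
    refine (limsup_le_limsup hle).trans ?_
    have h2 := (ENNReal.continuous_ofReal.tendsto _).comp hlim
    have h3 := h2.limsup_eq
    refine (le_of_eq h3).trans ?_
    rw [← ofReal_norm]
    apply ENNReal.ofReal_le_ofReal
    nlinarith [norm_nonneg I]
  | succ k ih =>
    intro F hF hF1
    have hFc : Measurable (fun y => conj (F y)) := Complex.continuous_conj.measurable.comp hF
    set I : ℂ := ∫ y, F y ∂μ with hI
    have hI1 : ‖I‖ ≤ 1 := by
      rw [hI]
      refine (norm_integral_le_of_norm_le_const (Eventually.of_forall hF1)).trans (by simp)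
    have hces := wm_cesaro hS hE F (fun y => conj (F y)) hF hFc (C := 1) hF1
      (fun y => by rw [RCLike.norm_conj]; exact hF1 y)
    have hIc : ∫ y, conj (F y) ∂μ = conj I := integral_conj
    rw [hIc] at hces
    unfold box
    have hle : ∀ N : ℕ, (N : ℝ≥0∞)⁻¹ * ∑ h ∈ range N, box μ S b k (fun x => F (S^[h] x) * conj (F x)) ≤
        ENNReal.ofReal (‖I‖ ^ 2 + (N : ℝ)⁻¹ * ∑ n ∈ range N, ‖∫ y, F (S^[n] y) * conj (F y) ∂μ - I * conj I‖) := by
      intro N
      rcases Nat.eq_zero_or_pos N with rfl | hN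
      · simp
      · have hNR : (0 : ℝ) < N := by exact_mod_cast hN
        have h1 : ∀ h ∈ range N, box μ S b k (fun x => F (S^[h] x) * conj (F x)) ≤
            ENNReal.ofReal (‖I‖ ^ 2 + ‖∫ y, F (S^[h] y) * conj (F y) ∂μ - I * conj I‖) := by
          intro h _
          refine (ih (fun x => F (S^[h] x) * conj (F x)) ((hF.comp (hS.measurable.iterate h)).mul hFc)
            (fun y => ?_)).trans ?_
          · rw [norm_mul, RCLike.norm_conj]
            exact mul_le_one₀ (hF1 _) (norm_nonneg _) (hF1 _)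
          · rw [← ofReal_norm]
            apply ENNReal.ofReal_le_ofReal
            have hII : ‖I * conj I‖ = ‖I‖ ^ 2 := by rw [norm_mul, RCLike.norm_conj, sq]
            have := norm_add_le (∫ y, F (S^[h] y) * conj (F y) ∂μ - I * conj I) (I * conj I)
            rw [sub_add_cancel, hII] at this
            linarith
        calc (N : ℝ≥0∞)⁻¹ * ∑ h ∈ range N, box μ S b k (fun x => F (S^[h] x) * conj (F x))
            ≤ (N : ℝ≥0∞)⁻¹ * ∑ h ∈ range N,
              ENNReal.ofReal (‖I‖ ^ 2 + ‖∫ y, F (S^[h] y) * conj (F y) ∂μ - I * conj I‖) := by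
              gcongr with h hh
              exact h1 h hh
          _ = _ := by
              rw [← ENNReal.ofReal_sum_of_nonneg fun i _ => by positivity, Finset.sum_add_distrib, Finset.sum_const,
                Finset.card_range, nsmul_eq_mul, ← ENNReal.ofReal_natCast, ← ENNReal.ofReal_inv_of_pos hNR,
                ← ENNReal.ofReal_mul (by positivity)]
              congr 1
              field_simp
    have hlim : Tendsto (fun N : ℕ => ‖I‖ ^ 2 + (N : ℝ)⁻¹ * ∑ n ∈ range N,
          ‖∫ y, F (S^[n] y) * conj (F y) ∂μ - I * conj I‖) atTop (𝓝 (‖I‖ ^ 2)) := by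
      have := hces.const_add (‖I‖ ^ 2)
      simpa using this
    refine (limsup_le_limsup (Eventually.of_forall hle)).trans ?_
    have h2 := (ENNReal.continuous_ofReal.tendsto _).comp hlim
    have h3 := h2.limsup_eq
    refine (le_of_eq h3).trans ?_
    rw [← ofReal_norm]
    apply ENNReal.ofReal_le_ofReal
    nlinarith [norm_nonneg I]

end WM

end Pool.Agent.H80GE
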