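import Pool.Agent.H80GE.Smooth

/-!
# Approximation by convolutions in the fibres
-/

set_option autoImplicit false

open MeasureTheory Filter Topology Finset
open scoped ComplexConjugate ENNReal BoundedContinuousFunction

namespace Pool.Agent.H80GE

section Approx

variable {Y K : Type*} [MeasurableSpace Y] [Group K] [TopologicalSpace K] [IsTopologicalGroup K]
  [CompactSpace K] [T2Space K] [SecondCountableTopology K] [MeasurableSpace K] [BorelSpace K]
  {ρ : Measure K}

omit [T2Space K] [SecondCountableTopology K] in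
lemma right_inv [ρ.IsHaarMeasure] [IsProbabilityMeasure ρ] : ρ.IsMulRightInvariant := by
  refine ⟨fun g => ?_⟩
  have h := Measure.isMulInvariant_eq_smul_of_compactSpace (Measure.map (fun x => x * g) ρ) ρ
  have h1 : (Measure.map (fun x => x * g) ρ) Set.univ = 1 := by
    rw [Measure.map_apply (measurable_mul_const g) MeasurableSet.univ, Set.preimage_univ, measure_univ]
  rw [h] at h1 ⊢
  rw [Measure.smul_apply, measure_univ, ENNReal.smul_def, smul_eq_mul, mul_one] at h1
  have h2 : (Measure.map (fun x => x * g) ρ).haarScalarFactor ρ = 1 := by exact_mod_cast h1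
  rw [h2, one_smul]

lemma trans_cont [IsProbabilityMeasure ρ] [ρ.IsMulRightInvariant] {h : K → ℂ} (hh : Measurable h) {D : ℝ}
    (hD : ∀ κ, ‖h κ‖ ≤ D) : Tendsto (fun l => ∫ κ, ‖h (κ * l) - h κ‖ ∂ρ) (𝓝 1) (𝓝 0) := by
  have h1 : TopologicalSpace.PseudoMetrizableSpace K := inferInstance
  have h2 : ρ.WeaklyRegular := inferInstance
  have h3 : NormalSpace K := inferInstance
  have hi : Integrable h ρ := Integrable.of_bound hh.aestronglyMeasurable D (Eventually.of_forall hD)
  rw [Metric.tendsto_nhds]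
  intro ε hε
  obtain ⟨φ, hφ, hφi⟩ := hi.exists_boundedContinuous_integral_sub_le (ε := ε / 3) (by positivity)
  have hlim : Tendsto (fun l => ∫ κ, ‖φ (κ * l) - φ κ‖ ∂ρ) (𝓝 1) (𝓝 (∫ κ, (0 : ℝ) ∂ρ)) := by
    refine tendsto_integral_filter_of_dominated_convergence (fun _ => 2 * ‖φ‖) ?_ ?_ (integrable_const _) ?_
    · refine Eventually.of_forall fun l => Continuous.aestronglyMeasurable ?_
      exact ((φ.continuous.comp (continuous_mul_const l)).sub φ.continuous).norm
    · refine Eventually.of_forall fun l => Eventually.of_forall fun κ => ?_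
      rw [norm_norm]
      calc ‖φ (κ * l) - φ κ‖ ≤ ‖φ (κ * l)‖ + ‖φ κ‖ := norm_sub_le _ _
        _ ≤ ‖φ‖ + ‖φ‖ := add_le_add (φ.norm_coe_le_norm _) (φ.norm_coe_le_norm _)
        _ = 2 * ‖φ‖ := by ring
    · refine Eventually.of_forall fun κ => ?_
      have h1 : Continuous (fun l : K => ‖φ (κ * l) - φ κ‖) :=
        ((φ.continuous.comp (continuous_const_mul κ)).sub continuous_const).norm
      have h2 := h1.tendsto 1
      simpa using h2
  rw [integral_zero] at hlim
  have hev := (Metric.tendsto_nhds.1 hlim) (ε / 3) (by positivity)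
  filter_upwards [hev] with l hl
  rw [Real.dist_eq, sub_zero, abs_of_nonneg (integral_nonneg fun κ => norm_nonneg _)] at hl ⊢
  have i1 : Integrable (fun κ => ‖h κ - φ κ‖) ρ := (hi.sub hφi).norm
  have i2 : Integrable (fun κ => ‖h (κ * l) - φ (κ * l)‖) ρ := i1.comp_mul_right l
  have i3 : Integrable (fun κ => ‖φ (κ * l) - φ κ‖) ρ := by
    exact ((hφi.comp_mul_right l).sub hφi).norm
  have h5 : ∫ κ, ‖h (κ * l) - φ (κ * l)‖ ∂ρ = ∫ κ, ‖h κ - φ κ‖ ∂ρ :=
    integral_mul_right_eq_self (μ := ρ) (fun κ => ‖h κ - φ κ‖) l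
  have h6 : ∫ κ, ‖h (κ * l) - h κ‖ ∂ρ ≤
      ∫ κ, (‖h (κ * l) - φ (κ * l)‖ + ‖φ (κ * l) - φ κ‖ + ‖h κ - φ κ‖) ∂ρ := by
    refine integral_mono_of_nonneg (Eventually.of_forall fun κ => norm_nonneg _) ((i2.add i3).add i1)
      (Eventually.of_forall fun κ => ?_)
    change ‖h (κ * l) - h κ‖ ≤ _
    have e : h (κ * l) - h κ = (h (κ * l) - φ (κ * l)) + (φ (κ * l) - φ κ) - (h κ - φ κ) := by ring
    rw [e]
    exact (norm_sub_le _ _).trans (add_le_add (norm_add_le _ _) le_rfl)
  have i23 : Integrable (fun κ => ‖h (κ * l) - φ (κ * l)‖ + ‖φ (κ * l) - φ κ‖) ρ := i2.add i3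
  rw [integral_add i23 i1, integral_add i2 i3, h5] at h6
  linarith

/-- approximation by convolutions -/
lemma approx [ρ.IsHaarMeasure] [IsProbabilityMeasure ρ] (μ : Measure Y) [IsProbabilityMeasure μ]
    {f : Y × K → ℂ} (hf : Measurable f) {D : ℝ} (hD : ∀ z, ‖f z‖ ≤ D) (ε : ℝ) (hε : 0 < ε) :
    ∃ q : K → ℝ, Measurable q ∧ (∀ l, 0 ≤ q l) ∧ (∃ Q, ∀ l, q l ≤ Q) ∧ ∫ l, q l ∂ρ = 1 ∧
      ∫ z, ‖f z - cv ρ q f z‖ ∂(μ.prod ρ) ≤ ε := by
  have hri := right_inv (ρ := ρ)
  -- the modulus of continuity
  have hlim : Tendsto (fun l => ∫ y, ∫ κ, ‖f (y, κ * l) - f (y, κ)‖ ∂ρ ∂μ) (𝓝 1) (𝓝 (∫ y, (0 : ℝ) ∂μ)) := by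
    have hm : ∀ l : K, Measurable (fun p : Y × K => ‖f (p.1, p.2 * l) - f (p.1, p.2)‖) := fun l =>
      ((hf.comp (measurable_fst.prodMk (measurable_snd.mul_const l))).sub hf).norm
    refine tendsto_integral_filter_of_dominated_convergence (fun _ => 2 * D) ?_ ?_ (integrable_const _) ?_
    · refine Eventually.of_forall fun l => ?_
      exact ((hm l).stronglyMeasurable.integral_prod_right' (ν := ρ)).aestronglyMeasurable
    · refine Eventually.of_forall fun l => Eventually.of_forall fun y => ?_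
      refine (norm_integral_le_of_norm_le_const (C := 2 * D) (Eventually.of_forall fun κ => ?_)).trans (by simp)
      rw [norm_norm]
      calc ‖f (y, κ * l) - f (y, κ)‖ ≤ ‖f (y, κ * l)‖ + ‖f (y, κ)‖ := norm_sub_le _ _
        _ ≤ D + D := add_le_add (hD _) (hD _)
        _ = 2 * D := by ring
    · refine Eventually.of_forall fun y => ?_
      exact trans_cont (h := fun κ => f (y, κ)) (hf.comp (measurable_const.prodMk measurable_id)) (fun κ => hD _)
  rw [integral_zero] at hlim
  have hev := (Metric.tendsto_nhds.1 hlim) ε hε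
  obtain ⟨V, hV, hVo, h1V⟩ := eventually_nhds_iff.1 hev
  have hVpos : 0 < ρ V := hVo.measure_pos ρ ⟨1, h1V⟩
  have hVr : 0 < ρ.real V := ENNReal.toReal_pos hVpos.ne' (measure_ne_top _ _)
  refine ⟨V.indicator (fun _ => (ρ.real V)⁻¹), measurable_const.indicator hVo.measurableSet,
    fun l => Set.indicator_nonneg (fun _ _ => by positivity) l, ⟨(ρ.real V)⁻¹, fun l => ?_⟩, ?_, ?_⟩
  · exact Set.indicator_le_self' (fun _ _ => by positivity) l
  · rw [integral_indicator_const _ hVo.measurableSet, smul_eq_mul, mul_inv_cancel₀ hVr.ne']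
  · set q : K → ℝ := V.indicator (fun _ => (ρ.real V)⁻¹) with hq
    have hqm : Measurable q := measurable_const.indicator hVo.measurableSet
    have hq0 : ∀ l, 0 ≤ q l := fun l => Set.indicator_nonneg (fun _ _ => by positivity) l
    have hqQ : ∀ l, q l ≤ (ρ.real V)⁻¹ := fun l => Set.indicator_le_self' (fun _ _ => by positivity) l
    have hq1 : ∫ l, q l ∂ρ = 1 := by
      rw [hq, integral_indicator_const _ hVo.measurableSet, smul_eq_mul, mul_inv_cancel₀ hVr.ne']
    have hqi : Integrable q ρ := Integrable.of_bound hqm.aestronglyMeasurable (ρ.real V)⁻¹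
      (Eventually.of_forall fun l => by rw [Real.norm_eq_abs, abs_of_nonneg (hq0 l)]; exact hqQ l)
    have hD0 : ∀ z : Y × K, 0 ≤ D := fun z => (norm_nonneg _).trans (hD z)
    -- pointwise bound
    have hpt : ∀ z, ‖f z - cv ρ q f z‖ ≤ ∫ l, ‖f (z.1, z.2 * l) - f z‖ * q l ∂ρ := by
      intro z
      have hi1 : Integrable (fun l => f z * ((q l : ℝ) : ℂ)) ρ := (hqi.ofReal (𝕜 := ℂ)).const_mul _
      have hi2 : Integrable (fun l => f (z.1, z.2 * l) * ((q l : ℝ) : ℂ)) ρ := by
        refine Integrable.of_bound ((hf.comp (measurable_const.prodMk (measurable_const_mul _))).mul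
          (Complex.measurable_ofReal.comp hqm)).aestronglyMeasurable (D * (ρ.real V)⁻¹)
          (Eventually.of_forall fun l => ?_)
        rw [norm_mul, Complex.norm_real, Real.norm_eq_abs, abs_of_nonneg (hq0 l)]
        exact mul_le_mul (hD _) (hqQ l) (hq0 l) (hD0 z)
      have e : f z = ∫ l, f z * ((q l : ℝ) : ℂ) ∂ρ := by
        rw [integral_const_mul, integral_complex_ofReal, hq1]
        simp
      have e2 : f z - cv ρ q f z = ∫ l, (f z - f (z.1, z.2 * l)) * ((q l : ℝ) : ℂ) ∂ρ := by
        conv_lhs => rw [e]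
        unfold cv
        rw [← integral_sub hi1 hi2]
        refine integral_congr_ae (Eventually.of_forall fun l => ?_)
        simp only
        ring
      rw [e2]
      refine (norm_integral_le_integral_norm _).trans (le_of_eq ?_)
      refine integral_congr_ae (Eventually.of_forall fun l => ?_)
      simp only
      rw [norm_mul, Complex.norm_real, Real.norm_eq_abs, abs_of_nonneg (hq0 l), norm_sub_rev]
    -- integrate and interchange
    have hbd : ∀ p : (Y × K) × K, ‖‖f (p.1.1, p.1.2 * p.2) - f p.1‖ * q p.2‖ ≤ 2 * D * (ρ.real V)⁻¹ := by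
      intro p
      rw [norm_mul, norm_norm, Real.norm_eq_abs, abs_of_nonneg (hq0 _)]
      refine mul_le_mul ?_ (hqQ _) (hq0 _) (by linarith [hD0 p.1])
      exact (norm_sub_le _ _).trans (by linarith [hD (p.1.1, p.1.2 * p.2), hD p.1])
    have hmm : Measurable (fun p : (Y × K) × K => ‖f (p.1.1, p.1.2 * p.2) - f p.1‖ * q p.2) := by
      refine (((hf.comp ?_).sub (hf.comp measurable_fst)).norm).mul (hqm.comp measurable_snd)
      exact (measurable_fst.comp measurable_fst).prodMk ((measurable_snd.comp measurable_fst).mul measurable_snd)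
    have hI : Integrable (fun p : (Y × K) × K => ‖f (p.1.1, p.1.2 * p.2) - f p.1‖ * q p.2) ((μ.prod ρ).prod ρ) :=
      Integrable.of_bound hmm.aestronglyMeasurable _ (Eventually.of_forall hbd)
    have hcvm : Measurable (cv ρ q f) := cv_meas hqm hf
    calc ∫ z, ‖f z - cv ρ q f z‖ ∂(μ.prod ρ) ≤
          ∫ z, ∫ l, ‖f (z.1, z.2 * l) - f z‖ * q l ∂ρ ∂(μ.prod ρ) :=
          integral_mono_of_nonneg (Eventually.of_forall fun z => norm_nonneg _) hI.integral_prod_left
            (Eventually.of_forall hpt)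
      _ = ∫ l, ∫ z, ‖f (z.1, z.2 * l) - f z‖ * q l ∂(μ.prod ρ) ∂ρ := integral_integral_swap hI
      _ = ∫ l, (∫ y, ∫ κ, ‖f (y, κ * l) - f (y, κ)‖ ∂ρ ∂μ) * q l ∂ρ := by
          refine integral_congr_ae (Eventually.of_forall fun l => ?_)
          simp only
          rw [integral_mul_const]
          congr 1
          have hml : Measurable (fun p : Y × K => ‖f (p.1, p.2 * l) - f p‖) :=
            ((hf.comp (measurable_fst.prodMk (measurable_snd.mul_const l))).sub hf).norm
          rw [integral_prod]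
          refine Integrable.of_bound hml.aestronglyMeasurable (2 * D) (Eventually.of_forall fun z => ?_)
          rw [norm_norm]
          exact (norm_sub_le _ _).trans (by linarith [hD (z.1, z.2 * l), hD z])
      _ ≤ ∫ l, ε * q l ∂ρ := by
          refine integral_mono_of_nonneg (Eventually.of_forall fun l => ?_) (hqi.const_mul _)
            (Eventually.of_forall fun l => ?_)
          · exact mul_nonneg (integral_nonneg fun y => integral_nonneg fun κ => norm_nonneg _) (hq0 l)
          · by_cases hl : l ∈ V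
            · have h1 := hV l hl
              rw [Real.dist_eq, sub_zero] at h1
              exact mul_le_mul_of_nonneg_right ((le_abs_self _).trans h1.le) (hq0 l)
            · have : q l = 0 := Set.indicator_of_notMem hl _
              simp [this]
      _ = ε := by rw [integral_const_mul, hq1, mul_one]

end Approx

end Pool.Agent.H80GE
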