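import Pool.Agent.H80GE.Box

/-!
# Multiple correlations are controlled by the seminorms
-/

set_option autoImplicit false

open MeasureTheory Filter Topology Finset
open scoped ComplexConjugate ENNReal

namespace Pool.Agent.H80GE

variable {X : Type*} [MeasurableSpace X] {μ : Measure X} [IsProbabilityMeasure μ] {T : Equiv.Perm X}

/-- the lowest level -/
lemma cor_base (hT : MeasurePreserving T μ μ) (hTi : Measurable T.symm) (p q : ℤ) (ε : ℝ) (hε : 0 < ε)
    (F G : X → ℂ) (hF : Measurable F) (hG : Measurable G) (hF1 : ∀ x, ‖F x‖ ≤ 1) (hG1 : ∀ x, ‖G x‖ ≤ 1)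
    (hbox : box μ T (q - p).natAbs 0 G ≤ ENNReal.ofReal (ε ^ 2 / 2)) :
    ∀ᶠ N : ℕ in atTop, ‖av N (fun k => ∫ x, F ((T ^ (p * (k : ℤ)) : Equiv.Perm X) x) *
      G ((T ^ (q * (k : ℤ)) : Equiv.Perm X) x) ∂μ)‖ ≤ ε := by
  set c : ℤ := q - p with hc
  have hlt : ENNReal.ofReal (ε ^ 2 / 2) < ENNReal.ofReal (ε ^ 2) := by
    apply (ENNReal.ofReal_lt_ofReal_iff (by positivity)).2
    nlinarith [sq_pos_of_pos hε]
  have hev := eventually_lt_of_limsup_lt (hbox.trans_lt hlt)
  filter_upwards [hev] with N hN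
  have hGm : ∀ z : ℤ, Measurable (fun x => G ((T ^ z : Equiv.Perm X) x)) := fun z =>
    hG.comp (mp_zpow hT hTi z).measurable
  -- the integral over the backward orbit
  have hN2 : ∫⁻ x, ‖av N (fun k => G ((T ^ (c * (k : ℤ)) : Equiv.Perm X) x))‖ₑ ^ 2 ∂μ < ENNReal.ofReal (ε ^ 2) := by
    rcases Int.natAbs_eq c with h | h
    · refine lt_of_le_of_lt (le_of_eq ?_) hN
      congr 1
      funext x
      unfold av
      congr 3
      refine Finset.sum_congr rfl fun k _ => ?_
      have h8 : ((c.natAbs * k : ℕ) : ℤ) = c * (k : ℤ) := by rw [Nat.cast_mul, ← h]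
      rw [iter_eq, h8]
    · refine lt_of_le_of_lt (le_of_eq ?_) hN
      have hm : Measurable (fun x => ‖av N (fun k => G ((T ^ (c * (k : ℤ)) : Equiv.Perm X) x))‖ₑ ^ 2) := by
        refine Measurable.pow_const (Measurable.enorm ?_) 2
        exact (Finset.measurable_sum _ fun n _ => hGm _).const_mul _
      rw [← (mp_zpow hT hTi ((c.natAbs : ℤ) * ((N : ℤ) - 1))).lintegral_comp hm]
      congr 1
      funext x
      unfold av
      congr 3
      rw [← Finset.sum_range_reflect (fun n => G (T^[c.natAbs * n] x)) N]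
      refine Finset.sum_congr rfl fun k hk => ?_
      rw [Finset.mem_range] at hk
      have e : ((N - 1 - k : ℕ) : ℤ) = (N : ℤ) - 1 - k := by omega
      have h8 : ((c.natAbs * (N - 1 - k) : ℕ) : ℤ) = c * (k : ℤ) + (c.natAbs : ℤ) * ((N : ℤ) - 1) := by
        have hcc : c * (k : ℤ) = -(c.natAbs : ℤ) * k := by rw [← h]
        rw [hcc, Nat.cast_mul, e]
        ring
      simp only [iter_eq, h8]
      rw [zpow_add, Equiv.Perm.mul_apply]
  have hbd : ∀ x, ‖av N (fun k => G ((T ^ (c * (k : ℤ)) : Equiv.Perm X) x))‖ ≤ 1 := fun x =>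
    av_norm_le zero_le_one fun n => hG1 _
  have hmeas : Measurable (fun x => av N (fun k => G ((T ^ (c * (k : ℤ)) : Equiv.Perm X) x))) :=
    (Finset.measurable_sum _ fun n _ => hGm _).const_mul _
  have hint : ∫ x, ‖av N (fun k => G ((T ^ (c * (k : ℤ)) : Equiv.Perm X) x))‖ ^ 2 ∂μ ≤ ε ^ 2 := by
    rw [integral_eq_lintegral_of_nonneg_ae (Eventually.of_forall fun x => by positivity)
      (hmeas.norm.pow_const 2).aestronglyMeasurable]
    have e : ∀ x, ENNReal.ofReal (‖av N (fun k => G ((T ^ (c * (k : ℤ)) : Equiv.Perm X) x))‖ ^ 2) =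
        ‖av N (fun k => G ((T ^ (c * (k : ℤ)) : Equiv.Perm X) x))‖ₑ ^ 2 := by
      intro x
      rw [ENNReal.ofReal_pow (norm_nonneg _), ofReal_norm]
    simp_rw [e]
    calc _ ≤ (ENNReal.ofReal (ε ^ 2)).toReal := ENNReal.toReal_mono ENNReal.ofReal_ne_top hN2.le
      _ = ε ^ 2 := ENNReal.toReal_ofReal (by positivity)
  have e1 : av N (fun k => ∫ x, F ((T ^ (p * (k : ℤ)) : Equiv.Perm X) x) *
      G ((T ^ (q * (k : ℤ)) : Equiv.Perm X) x) ∂μ) =
      ∫ x, F x * av N (fun k => G ((T ^ (c * (k : ℤ)) : Equiv.Perm X) x)) ∂μ := by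
    have e2 : ∀ k : ℕ, ∫ x, F ((T ^ (p * (k : ℤ)) : Equiv.Perm X) x) *
        G ((T ^ (q * (k : ℤ)) : Equiv.Perm X) x) ∂μ = ∫ x, F x * G ((T ^ (c * (k : ℤ)) : Equiv.Perm X) x) ∂μ := by
      intro k
      have hm : AEStronglyMeasurable (fun x => F x * G ((T ^ (c * (k : ℤ)) : Equiv.Perm X) x))
          (Measure.map (T ^ (p * (k : ℤ)) : Equiv.Perm X) μ) := (hF.mul (hGm _)).aestronglyMeasurable
      have hmp := mp_zpow hT hTi (p * (k : ℤ))
      have h3 := integral_map (μ := μ) hmp.measurable.aemeasurable hm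
      rw [hmp.map_eq] at h3
      rw [h3]
      refine integral_congr_ae (Eventually.of_forall fun x => ?_)
      simp only
      rw [← Equiv.Perm.mul_apply, ← zpow_add]
      congr 4
      rw [hc]
      ring
    simp_rw [e2]
    unfold av
    rw [← integral_finsetSum, ← integral_const_mul]
    · refine integral_congr_ae (Eventually.of_forall fun x => ?_)
      simp only
      rw [← Finset.mul_sum]
      ring
    · intro k _
      refine Integrable.of_bound (hF.mul (hGm _)).aestronglyMeasurable 1 (Eventually.of_forall fun x => ?_)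
      rw [norm_mul]
      exact mul_le_one₀ (hF1 _) (norm_nonneg _) (hG1 _)
  rw [e1]
  have h5 := (norm_int_sq_le μ hF1 hmeas.aestronglyMeasurable hbd).trans hint
  exact (pow_le_pow_iff_left₀ (norm_nonneg _) hε.le two_ne_zero).1 h5

/-- counting the times with a large seminorm -/
lemma count_bad (β : ℕ → ℝ≥0∞) (e : ℕ) (he : 0 < e) (δ δ1 : ℝ) (hδ : 0 < δ)
    (h : limsup (fun H : ℕ => (H : ℝ≥0∞)⁻¹ * ∑ h ∈ range H, β h) atTop ≤ ENNReal.ofReal δ) :
    ∀ᶠ H : ℕ in atTop, δ1 * (((range H).filter fun d => ¬ β (e * d) ≤ ENNReal.ofReal δ1).card : ℝ) ≤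
      2 * δ * e * H := by
  have hlt : ENNReal.ofReal δ < ENNReal.ofReal (2 * δ) :=
    (ENNReal.ofReal_lt_ofReal_iff (by positivity)).2 (by linarith)
  have hev := eventually_lt_of_limsup_lt (h.trans_lt hlt)
  obtain ⟨M, hM⟩ := eventually_atTop.1 hev
  filter_upwards [eventually_ge_atTop (max M 1)] with H hH
  have hH1 : 1 ≤ H := (le_max_right _ _).trans hH
  have hmM : M ≤ e * H := ((le_max_left _ _).trans hH).trans (Nat.le_mul_of_pos_left _ he)
  have hm0 : 0 < e * H := by positivity
  have h1 := hM (e * H) hmM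
  have h2 : ∑ x ∈ range (e * H), β x ≤ ((e * H : ℕ) : ℝ≥0∞) * ENNReal.ofReal (2 * δ) := by
    have hne : ((e * H : ℕ) : ℝ≥0∞) ≠ 0 := by exact_mod_cast hm0.ne'
    calc ∑ x ∈ range (e * H), β x = ((e * H : ℕ) : ℝ≥0∞) * (((e * H : ℕ) : ℝ≥0∞)⁻¹ * ∑ x ∈ range (e * H), β x) := by
          rw [← mul_assoc, ENNReal.mul_inv_cancel hne (ENNReal.natCast_ne_top _), one_mul]
      _ ≤ _ := by gcongr
  have h3 : ∑ d ∈ range H, β (e * d) ≤ ∑ x ∈ range (e * H), β x := by
    have hinj : Set.InjOn (fun d => e * d) (range H : Set ℕ) := by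
      intro a _ b _ hab
      exact Nat.eq_of_mul_eq_mul_left he hab
    rw [← Finset.sum_image (f := β) hinj]
    refine Finset.sum_le_sum_of_subset ?_
    intro x hx
    rw [Finset.mem_image] at hx
    obtain ⟨d, hd, rfl⟩ := hx
    rw [Finset.mem_range] at hd ⊢
    exact Nat.mul_lt_mul_of_pos_left hd he
  set B := (range H).filter fun d => ¬ β (e * d) ≤ ENNReal.ofReal δ1 with hB
  have h4 : (B.card : ℝ≥0∞) * ENNReal.ofReal δ1 ≤ ∑ d ∈ range H, β (e * d) := by
    calc (B.card : ℝ≥0∞) * ENNReal.ofReal δ1 = ∑ _d ∈ B, ENNReal.ofReal δ1 := by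
          rw [Finset.sum_const, nsmul_eq_mul]
      _ ≤ ∑ d ∈ B, β (e * d) := by
          refine Finset.sum_le_sum fun d hd => ?_
          rw [hB, Finset.mem_filter, not_le] at hd
          exact hd.2.le
      _ ≤ _ := Finset.sum_le_sum_of_subset (Finset.filter_subset _ _)
  have h5 : (B.card : ℝ≥0∞) * ENNReal.ofReal δ1 ≤ ((e * H : ℕ) : ℝ≥0∞) * ENNReal.ofReal (2 * δ) :=
    h4.trans (h3.trans h2)
  rw [← ENNReal.ofReal_natCast, ← ENNReal.ofReal_mul (by positivity), ← ENNReal.ofReal_natCast,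
    ← ENNReal.ofReal_mul (by positivity), ENNReal.ofReal_le_ofReal_iff (by positivity)] at h5
  push_cast at h5
  nlinarith

/-- Multiple correlations over the exponents `b l`, `l ∈ s`, are small if one of the functions has a small
seminorm of the order `card s - 1`. -/
theorem cor_small (hT : MeasurePreserving T μ μ) (hTi : Measurable T.symm) {ι : Type*} [DecidableEq ι] (n : ℕ) :
    ∀ (s : Finset ι), s.card = n + 2 → ∀ b : ι → ℤ, Set.InjOn b (s : Set ι) → ∀ j ∈ s, ∀ i ∈ s, i ≠ j →
      ∀ ε : ℝ, 0 < ε → ∃ δ : ℝ, 0 < δ ∧ ∀ F : ι → X → ℂ, (∀ l, Measurable (F l)) → (∀ l x, ‖F l x‖ ≤ 1) →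
        box μ T (b j - b i).natAbs n (F j) ≤ ENNReal.ofReal δ →
        ∀ᶠ N : ℕ in atTop, ‖av N (fun k => ∫ x, ∏ l ∈ s, F l ((T ^ (b l * (k : ℤ)) : Equiv.Perm X) x) ∂μ)‖ ≤ ε := by
  induction n with
  | zero =>
    intro s hs b hb j hj i hi hij ε hε
    refine ⟨ε ^ 2 / 2, by positivity, fun F hF hF1 hbox => ?_⟩
    have hsij : s = {i, j} := by
      symm
      apply Finset.eq_of_subset_of_card_le
      · intro x hx
        rw [Finset.mem_insert, Finset.mem_singleton] at hx
        rcases hx with rfl | rfl <;> assumption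
      · rw [hs, Finset.card_pair hij]
    have h := cor_base hT hTi (b i) (b j) ε hε (F i) (F j) (hF i) (hF j) (hF1 i) (hF1 j) hbox
    filter_upwards [h] with N hN
    rw [hsij]
    simp_rw [Finset.prod_pair hij]
    exact hN
  | succ n ih =>
    intro s hs b hb j hj i hi hij ε hε
    obtain ⟨i0, hi0⟩ : ((s.erase i).erase j).Nonempty := by
      rw [← Finset.card_pos, Finset.card_erase_of_mem (Finset.mem_erase.2 ⟨hij.symm, hj⟩),
        Finset.card_erase_of_mem hi]
      omega
    rw [Finset.mem_erase, Finset.mem_erase] at hi0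
    obtain ⟨hi0j, hi0i, hi0s⟩ := hi0
    set s' := s.erase i0 with hs'
    have hs'card : s'.card = n + 2 := by
      rw [hs', Finset.card_erase_of_mem hi0s]
      omega
    set b' : ι → ℤ := fun l => b l - b i0 with hb'
    have hb'inj : Set.InjOn b' (s' : Set ι) := by
      intro x hx y hy hxy
      have hx' : x ∈ (s : Set ι) := Finset.mem_of_mem_erase hx
      have hy' : y ∈ (s : Set ι) := Finset.mem_of_mem_erase hy
      apply hb hx' hy'
      simp only [hb'] at hxy
      linarith
    have hjs' : j ∈ s' := Finset.mem_erase.2 ⟨hi0j.symm, hj⟩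
    have his' : i ∈ s' := Finset.mem_erase.2 ⟨hi0i.symm, hi⟩
    have hb'j : b' j ≠ 0 := by
      intro h0
      have : b j = b i0 := by simp only [hb'] at h0; linarith
      exact hi0j (hb hj hi0s this).symm
    set ε1 : ℝ := ε ^ 2 / 8 with hε1
    have hε1p : 0 < ε1 := by positivity
    obtain ⟨δ1, hδ1, hI⟩ := ih s' hs'card b' hb'inj j hjs' i his' hij ε1 hε1p
    have hdiff : b' j - b' i = b j - b i := by simp only [hb']; ring
    rw [hdiff] at hI
    set e : ℕ := (b' j).natAbs with he
    have hepos : 0 < e := Int.natAbs_pos.2 hb'j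
    have heR : (0 : ℝ) < e := by exact_mod_cast hepos
    set δ : ℝ := ε1 * δ1 / (4 * e) with hδ
    have hδp : 0 < δ := by positivity
    refine ⟨δ, hδp, fun F hF hF1 hbox => ?_⟩
    -- the functions after one step
    set Fd : ℕ → ι → X → ℂ := fun d l x => F l ((T ^ (b' l * (d : ℤ)) : Equiv.Perm X) x) * conj (F l x) with hFd
    have hFdm : ∀ d l, Measurable (Fd d l) := fun d l =>
      ((hF l).comp (mp_zpow hT hTi _).measurable).mul (Complex.continuous_conj.measurable.comp (hF l))
    have hFd1 : ∀ d l x, ‖Fd d l x‖ ≤ 1 := by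
      intro d l x
      simp only [hFd]
      rw [norm_mul, RCLike.norm_conj]
      exact mul_le_one₀ (hF1 _ _) (norm_nonneg _) (hF1 _ _)
    set c : ℕ → ℕ → ℂ := fun d k => ∫ x, ∏ l ∈ s', Fd d l ((T ^ (b' l * (k : ℤ)) : Equiv.Perm X) x) ∂μ with hc
    set β : ℕ → ℝ≥0∞ := fun h => box μ T (b j - b i).natAbs n (fun x => F j (T^[h] x) * conj (F j x)) with hβ
    have hboxd : ∀ d : ℕ, box μ T (b j - b i).natAbs n (Fd d j) = β (e * d) := by
      intro d
      simp only [hFd, hβ]
      rw [box_zpow hT hTi _ _ (hF j)]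
      rw [Int.natAbs_mul, Int.natAbs_natCast]
    have hcnt := count_bad β e hepos δ δ1 hδp hbox
    obtain ⟨H, hH1, hHc⟩ := ((eventually_ge_atTop 1).and hcnt).exists
    have hHR : (0 : ℝ) < H := by exact_mod_cast hH1
    set B := (range H).filter fun d => ¬ β (e * d) ≤ ENNReal.ofReal δ1 with hB
    have hBH : (B.card : ℝ) ≤ ε1 / 2 * H := by
      have h1 : δ1 * (B.card : ℝ) ≤ δ1 * (ε1 / 2 * H) := by
        refine hHc.trans (le_of_eq ?_)
        rw [hδ]
        field_simp
        ring
      exact le_of_mul_le_mul_left h1 hδ1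
    -- for large N
    have hgood : ∀ᶠ N : ℕ in atTop, ∀ d ∈ (range H).filter (fun d => β (e * d) ≤ ENNReal.ofReal δ1),
        ‖av N (c d)‖ ≤ ε1 := by
      rw [Filter.eventually_all_finset]
      intro d hd
      rw [Finset.mem_filter] at hd
      refine hI (Fd d) (hFdm d) (hFd1 d) ?_
      rw [hboxd]
      exact hd.2
    obtain ⟨N1, hN1⟩ := exists_nat_gt (6 * (H : ℝ) / ε1)
    filter_upwards [hgood, eventually_gt_atTop (max N1 0)] with N hN hNN
    have hN0 : 0 < N := (le_max_right _ _).trans_lt hNN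
    have hNR : (0 : ℝ) < N := by exact_mod_cast hN0
    have hN1' : 6 * (H : ℝ) / ε1 < N := hN1.trans (by exact_mod_cast (le_max_left _ _).trans_lt hNN)
    set u : ℕ → X → ℂ := fun k x => ∏ l ∈ s', F l ((T ^ (b' l * (k : ℤ)) : Equiv.Perm X) x) with hu
    have hum : ∀ k, Measurable (u k) := fun k =>
      Finset.measurable_prod _ fun l _ => (hF l).comp (mp_zpow hT hTi _).measurable
    have hu1 : ∀ k x, ‖u k x‖ ≤ 1 := fun k x => prod_norm_le_one _ _ fun l => hF1 _ _
    have hcor : ∀ d k, ∫ x, u (k + d) x * conj (u k x) ∂μ = c d k := by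
      intro d k
      simp only [hc]
      refine integral_congr_ae (Eventually.of_forall fun x => ?_)
      simp only [hu, hFd]
      rw [map_prod, ← Finset.prod_mul_distrib]
      refine Finset.prod_congr rfl fun l _ => ?_
      rw [← Equiv.Perm.mul_apply, ← zpow_add]
      congr 4
      push_cast
      ring
    have hc1 : ∀ d k, ‖c d k‖ ≤ 1 := by
      intro d k
      rw [← hcor]
      refine (norm_integral_le_of_norm_le_const (C := 1) (Eventually.of_forall fun x => ?_)).trans (by simp)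
      rw [norm_mul, RCLike.norm_conj]
      exact mul_le_one₀ (hu1 _ _) (norm_nonneg _) (hu1 _ _)
    have hv := vdc_cor μ (fun k => (hum k).aestronglyMeasurable) hu1 c hcor N H hN0 hH1
    -- the double sum
    set lb : ℕ → ℝ := fun d => if β (e * d) ≤ ENNReal.ofReal δ1 then ε1 else 1 with hlb
    have hlb0 : ∀ d, 0 ≤ lb d := by
      intro d
      simp only [hlb]
      split_ifs
      · exact hε1p.le
      · exact zero_le_one
    have hle : ∀ h ∈ range H, ∀ h' ∈ range H, (av N (c (Nat.dist h h'))).re ≤ lb (Nat.dist h h') := by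
      intro h hh h' hh'
      rw [Finset.mem_range] at hh hh'
      have hdH : Nat.dist h h' < H := by unfold Nat.dist; omega
      refine (Complex.re_le_norm _).trans ?_
      simp only [hlb]
      split_ifs with hg
      · exact hN _ (Finset.mem_filter.2 ⟨Finset.mem_range.2 hdH, hg⟩)
      · exact av_norm_le zero_le_one (hc1 _)
    have hsumlb : ∑ d ∈ range H, lb d ≤ ε1 * H + B.card := by
      have h1 : ∀ d ∈ range H, lb d ≤ ε1 + (if ¬ β (e * d) ≤ ENNReal.ofReal δ1 then 1 else 0) := by
        intro d _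
        simp only [hlb]
        by_cases hg : β (e * d) ≤ ENNReal.ofReal δ1
        · simp [hg]
        · simp only [hg, if_false, not_false_eq_true, if_true]
          linarith
      refine (Finset.sum_le_sum h1).trans (le_of_eq ?_)
      rw [Finset.sum_add_distrib, Finset.sum_const, Finset.card_range, nsmul_eq_mul, Finset.sum_boole]
      ring
    have hdbl : ((H : ℝ)⁻¹) ^ 2 * ∑ h ∈ range H, ∑ h' ∈ range H, (av N (c (Nat.dist h h'))).re ≤ 3 * ε1 := by
      calc ((H : ℝ)⁻¹) ^ 2 * ∑ h ∈ range H, ∑ h' ∈ range H, (av N (c (Nat.dist h h'))).re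
          ≤ ((H : ℝ)⁻¹) ^ 2 * ∑ h ∈ range H, ∑ h' ∈ range H, lb (Nat.dist h h') := by
            gcongr with h hh h' hh'
            exact hle h hh h' hh'
        _ ≤ ((H : ℝ)⁻¹) ^ 2 * (2 * H * (ε1 * H + ε1 / 2 * H)) := by
            gcongr
            refine (sum_dist_le H lb hlb0).trans ?_
            gcongr
            linarith
        _ = 3 * ε1 := by
            field_simp
            ring
    have herr : 6 * (1 : ℝ) ^ 2 * H / N ≤ ε1 := by
      rw [div_le_iff₀ hNR]
      rw [div_lt_iff₀ hε1p] at hN1'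
      linarith
    have hfin : ∫ x, ‖av N (fun k => u k x)‖ ^ 2 ∂μ ≤ ε ^ 2 := by
      have : 4 * ε1 ≤ ε ^ 2 := by rw [hε1]; nlinarith [sq_pos_of_pos hε]
      linarith
    -- the correlation as an integral
    have e1 : av N (fun k => ∫ x, ∏ l ∈ s, F l ((T ^ (b l * (k : ℤ)) : Equiv.Perm X) x) ∂μ) =
        ∫ x, F i0 x * av N (fun k => u k x) ∂μ := by
      have e2 : ∀ k : ℕ, ∫ x, ∏ l ∈ s, F l ((T ^ (b l * (k : ℤ)) : Equiv.Perm X) x) ∂μ =
          ∫ x, F i0 x * u k x ∂μ := by
        intro k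
        have hmp := mp_zpow hT hTi (b i0 * (k : ℤ))
        have hm : AEStronglyMeasurable (fun x => F i0 x * u k x)
            (Measure.map (T ^ (b i0 * (k : ℤ)) : Equiv.Perm X) μ) := ((hF i0).mul (hum k)).aestronglyMeasurable
        have h3 := integral_map (μ := μ) hmp.measurable.aemeasurable hm
        rw [hmp.map_eq] at h3
        rw [h3]
        refine integral_congr_ae (Eventually.of_forall fun x => ?_)
        simp only [hu]
        rw [← Finset.mul_prod_erase s _ hi0s]
        congr 1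
        refine Finset.prod_congr rfl fun l _ => ?_
        rw [← Equiv.Perm.mul_apply, ← zpow_add]
        congr 3
        simp only [hb']
        ring
      simp_rw [e2]
      unfold av
      rw [← integral_finsetSum, ← integral_const_mul]
      · refine integral_congr_ae (Eventually.of_forall fun x => ?_)
        simp only
        rw [← Finset.mul_sum]
        ring
      · intro k _
        refine Integrable.of_bound ((hF i0).mul (hum k)).aestronglyMeasurable 1 (Eventually.of_forall fun x => ?_)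
        rw [norm_mul]
        exact mul_le_one₀ (hF1 _ _) (norm_nonneg _) (hu1 _ _)
    rw [e1]
    have havm : Measurable (fun x => av N (fun k => u k x)) :=
      (Finset.measurable_sum _ fun n _ => hum n).const_mul _
    have h5 := (norm_int_sq_le μ (hF1 i0) havm.aestronglyMeasurable
      (D := 1) (fun x => av_norm_le zero_le_one fun n => hu1 _ _)).trans hfin
    exact (pow_le_pow_iff_left₀ (norm_nonneg _) hε.le two_ne_zero).1 h5

end Pool.Agent.H80GE
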