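import Pool.Agent.H80GE.Cor

/-!
# Compact group extensions: averages in the mean over the fibres, at almost every point of the base
-/

set_option autoImplicit false

open MeasureTheory Filter Topology Finset
open scoped ComplexConjugate ENNReal

namespace Pool.Agent.H80GE

section Skew

variable {Y K : Type*} [Group K]

/-- the skew product -/
def sk (S : Y → Y) (σ : Y → K) (z : Y × K) : Y × K := (S z.1, σ z.1 * z.2)

/-- the cocycle along the orbit -/
def co (S : Y → Y) (σ : Y → K) : ℕ → Y → K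
  | 0, _ => 1
  | n + 1, y => co S σ n (S y) * σ y

lemma sk_iter (S : Y → Y) (σ : Y → K) (n : ℕ) (z : Y × K) :
    (sk S σ)^[n] z = (S^[n] z.1, co S σ n z.1 * z.2) := by
  induction n generalizing z with
  | zero => simp [co]
  | succ n ih =>
    rw [Function.iterate_succ_apply, ih]
    simp only [sk, co, Function.iterate_succ_apply, mul_assoc]

variable [MeasurableSpace Y] [MeasurableSpace K] [MeasurableMul₂ K]

lemma sk_meas {S : Y → Y} (hS : Measurable S) {σ : Y → K} (hσ : Measurable σ) : Measurable (sk S σ) :=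
  (hS.comp measurable_fst).prodMk ((hσ.comp measurable_fst).mul measurable_snd)

lemma co_meas {S : Y → Y} (hS : Measurable S) {σ : Y → K} (hσ : Measurable σ) (n : ℕ) : Measurable (co S σ n) := by
  induction n with
  | zero => exact measurable_const
  | succ n ih => exact (ih.comp hS).mul hσ

lemma mp_sk (μ : Measure Y) [IsProbabilityMeasure μ] (ρ : Measure K) [IsProbabilityMeasure ρ]
    [ρ.IsMulLeftInvariant] {S : Y → Y} (hS : MeasurePreserving S μ μ) {σ : Y → K} (hσ : Measurable σ) :
    MeasurePreserving (sk S σ) (μ.prod ρ) (μ.prod ρ) := by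
  have h := MeasurePreserving.skew_product (μc := ρ) (μd := ρ) hS (g := fun y κ => σ y * κ)
    ((hσ.comp measurable_fst).mul measurable_snd) (Eventually.of_forall fun y => map_mul_left_eq_self ρ (σ y))
  exact h

end Skew

section Core

variable {Y K : Type*} [MeasurableSpace Y] [Group K] [MeasurableSpace K] [MeasurableMul₂ K]
  {μ : Measure Y} [IsProbabilityMeasure μ] {ρ : Measure K} [IsProbabilityMeasure ρ] [ρ.IsMulLeftInvariant]
  {S : Y → Y} {σ : Y → K} {m : ℕ} {a : Fin m → ℕ} {g : Fin m → Y × K → ℂ}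

/-- the products along the orbits of the points `(y, κ_j)` -/
noncomputable def uu (S : Y → Y) (σ : Y → K) (a : Fin m → ℕ) (g : Fin m → Y × K → ℂ) (n : ℕ) (y : Y)
    (κ : Fin m → K) : ℂ := ∏ j, g j ((sk S σ)^[a j * (n + 1)] (y, κ j))

/-- the fibre correlations -/
noncomputable def psi (ρ : Measure K) (S : Y → Y) (σ : Y → K) (a : Fin m → ℕ) (g : Fin m → Y × K → ℂ) (d : ℕ)
    (j : Fin m) (w : Y) : ℂ := ∫ κ, g j ((sk S σ)^[a j * d] (w, κ)) * conj (g j (w, κ)) ∂ρ

/-- the average of the products, in the mean square over all fibre coordinates -/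
noncomputable def BB (ρ : Measure K) (S : Y → Y) (σ : Y → K) (a : Fin m → ℕ) (g : Fin m → Y × K → ℂ) (N : ℕ)
    (y : Y) : ℝ := ∫ κ, ‖av N (fun n => uu S σ a g n y κ)‖ ^ 2 ∂(Measure.pi fun _ : Fin m => ρ)

lemma uu_meas (hS : Measurable S) (hσ : Measurable σ) (hg : ∀ j, Measurable (g j)) (n : ℕ) :
    Measurable (fun p : Y × (Fin m → K) => uu S σ a g n p.1 p.2) := by
  unfold uu
  refine Finset.measurable_prod _ fun j _ => (hg j).comp ?_
  exact ((sk_meas hS hσ).iterate _).comp (measurable_fst.prodMk ((measurable_pi_apply j).comp measurable_snd))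

lemma uu_bound {D : ℝ} (hD : ∀ j z, ‖g j z‖ ≤ D) (n : ℕ) (y : Y) (κ : Fin m → K) :
    ‖uu S σ a g n y κ‖ ≤ D ^ m := by
  unfold uu
  rw [norm_prod]
  calc ∏ j, ‖g j ((sk S σ)^[a j * (n + 1)] (y, κ j))‖ ≤ ∏ _j : Fin m, D :=
        Finset.prod_le_prod (fun _ _ => norm_nonneg _) fun j _ => hD j _
    _ = D ^ m := by simp

lemma uu_cor (hg : ∀ j, Measurable (g j)) (y : Y) (d n : ℕ) :
    ∫ κ, uu S σ a g (n + d) y κ * conj (uu S σ a g n y κ) ∂(Measure.pi fun _ : Fin m => ρ) =
      ∏ j, psi ρ S σ a g d j (S^[a j * (n + 1)] y) := by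
  have e : ∀ κ : Fin m → K, uu S σ a g (n + d) y κ * conj (uu S σ a g n y κ) =
      ∏ j, (fun x : K => g j ((sk S σ)^[a j * (n + d + 1)] (y, x)) * conj (g j ((sk S σ)^[a j * (n + 1)] (y, x))))
        (κ j) := by
    intro κ
    unfold uu
    rw [map_prod, ← Finset.prod_mul_distrib]
  simp_rw [e]
  rw [integral_fintype_prod_eq_prod (μ := fun _ : Fin m => ρ) (fun (j : Fin m) (x : K) =>
    g j ((sk S σ)^[a j * (n + d + 1)] (y, x)) * conj (g j ((sk S σ)^[a j * (n + 1)] (y, x))))]
  refine Finset.prod_congr rfl fun j _ => ?_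
  unfold psi
  rw [← integral_mul_left_eq_self (μ := ρ) (fun κ => g j ((sk S σ)^[a j * d] (S^[a j * (n + 1)] y, κ)) *
    conj (g j (S^[a j * (n + 1)] y, κ))) (co S σ (a j * (n + 1)) y)]
  refine integral_congr_ae (Eventually.of_forall fun κ => ?_)
  simp only
  have h1 : (sk S σ)^[a j * (n + 1)] (y, κ) = (S^[a j * (n + 1)] y, co S σ (a j * (n + 1)) y * κ) := sk_iter _ _ _ _
  have h2 : (sk S σ)^[a j * (n + d + 1)] (y, κ) =
      (sk S σ)^[a j * d] ((sk S σ)^[a j * (n + 1)] (y, κ)) := by
    rw [← Function.iterate_add_apply]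
    congr 2
    ring
  rw [h2, h1]

lemma psi_meas (hS : Measurable S) (hσ : Measurable σ) (hg : ∀ j, Measurable (g j)) (d : ℕ) (j : Fin m) :
    Measurable (psi ρ S σ a g d j) := by
  unfold psi
  have h : StronglyMeasurable (fun p : Y × K => g j ((sk S σ)^[a j * d] p) * conj (g j p)) :=
    (((hg j).comp ((sk_meas hS hσ).iterate _)).mul (Complex.continuous_conj.measurable.comp (hg j))).stronglyMeasurable
  exact (h.integral_prod_right' (ν := ρ)).measurable

lemma psi_bound {D : ℝ} (hD : ∀ j z, ‖g j z‖ ≤ D) (d : ℕ) (j : Fin m) (w : Y) :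
    ‖psi ρ S σ a g d j w‖ ≤ D ^ 2 := by
  unfold psi
  refine (norm_integral_le_of_norm_le_const (C := D ^ 2) (Eventually.of_forall fun κ => ?_)).trans (by simp)
  rw [norm_mul, RCLike.norm_conj, sq]
  exact mul_le_mul (hD _ _) (hD _ _) (norm_nonneg _) ((norm_nonneg _).trans (hD j (w, κ)))

lemma BB_meas (hS : Measurable S) (hσ : Measurable σ) (hg : ∀ j, Measurable (g j)) (N : ℕ) :
    Measurable (BB ρ S σ a g N) := by
  unfold BB
  have h : StronglyMeasurable (fun p : Y × (Fin m → K) => ‖av N (fun n => uu S σ a g n p.1 p.2)‖ ^ 2) := by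
    refine (Measurable.pow_const (Measurable.norm ?_) 2).stronglyMeasurable
    exact (Finset.measurable_sum _ fun n _ => uu_meas hS hσ hg n).const_mul _
  exact (h.integral_prod_right' (ν := Measure.pi fun _ : Fin m => ρ)).measurable

lemma uu_meas_right (hS : Measurable S) (hσ : Measurable σ) (hg : ∀ j, Measurable (g j)) (n : ℕ) (y : Y) :
    Measurable (fun κ => uu S σ a g n y κ) :=
  (uu_meas hS hσ hg n).comp (measurable_const.prodMk measurable_id)

/-- The averages are small in the mean square over the fibres, for most points of the base, if the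
correlations over the base are small in the mean and converge almost everywhere. -/
theorem core (hS : MeasurePreserving S μ μ) (hσ : Measurable σ) (hg : ∀ j, Measurable (g j)) {D : ℝ}
    (hD : ∀ j z, ‖g j z‖ ≤ D)
    (hconv : ∀ d : ℕ, ∀ᵐ y ∂μ, ∃ L, Tendsto (fun N => av N (fun n => ∏ j, psi ρ S σ a g d j (S^[a j * (n + 1)] y)))
      atTop (𝓝 L)) (ε : ℝ) (H : ℕ) (hH : 0 < H)
    (hε : ∀ᶠ N : ℕ in atTop, ((H : ℝ)⁻¹) ^ 2 * ∑ h ∈ range H, ∑ h' ∈ range H,
      (av N (fun n => ∫ y, ∏ j, psi ρ S σ a g (Nat.dist h h') j (S^[a j * (n + 1)] y) ∂μ)).re ≤ ε)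
    (η : ℝ) (hη : 0 < η) :
    μ {y | ¬ ∀ᶠ N : ℕ in atTop, BB ρ S σ a g N y ≤ η} ≤ ENNReal.ofReal (ε / η) := by
  set c : Y → ℕ → ℕ → ℂ := fun y d n => ∏ j, psi ρ S σ a g d j (S^[a j * (n + 1)] y) with hc
  have hcm : ∀ d n, Measurable (fun y => c y d n) := fun d n =>
    Finset.measurable_prod _ fun j _ => (psi_meas hS.measurable hσ hg d j).comp (hS.measurable.iterate _)
  have hcb : ∀ y d n, ‖c y d n‖ ≤ (D ^ 2) ^ m := by
    intro y d n
    simp only [hc]
    rw [norm_prod]
    calc ∏ j, ‖psi ρ S σ a g d j (S^[a j * (n + 1)] y)‖ ≤ ∏ _j : Fin m, D ^ 2 :=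
          Finset.prod_le_prod (fun _ _ => norm_nonneg _) fun j _ => psi_bound hD d j _
      _ = (D ^ 2) ^ m := by simp
  set C : ℝ := (D ^ 2) ^ m with hC
  have hC0 : 0 ≤ C := by positivity
  -- the double averages
  set G : ℕ → Y → ℝ := fun N y => ((H : ℝ)⁻¹) ^ 2 * ∑ h ∈ range H, ∑ h' ∈ range H,
    (av N (c y (Nat.dist h h'))).re with hG
  have hvdc : ∀ N y, 0 < N → BB ρ S σ a g N y ≤ G N y + 6 * (D ^ m) ^ 2 * H / N := by
    intro N y hN
    exact vdc_cor (Measure.pi fun _ : Fin m => ρ) (fun n => (uu_meas_right hS.measurable hσ hg n y).aestronglyMeasurable)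
      (fun n κ => uu_bound hD n y κ) (c y) (fun d n => uu_cor hg y d n) N H hN hH
  have hGm : ∀ N, Measurable (G N) := by
    intro N
    refine (Finset.measurable_sum _ fun h _ => Finset.measurable_sum _ fun h' _ => ?_).const_mul _
    refine Complex.measurable_re.comp ?_
    exact (Finset.measurable_sum _ fun n _ => hcm _ _).const_mul _
  have hHR : (0 : ℝ) < H := by exact_mod_cast hH
  have hGb : ∀ N y, ‖G N y‖ ≤ C := by
    intro N y
    simp only [hG]
    rw [norm_mul, norm_pow, norm_inv, Real.norm_natCast]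
    calc ((H : ℝ)⁻¹) ^ 2 * ‖∑ h ∈ range H, ∑ h' ∈ range H, (av N (c y (Nat.dist h h'))).re‖
        ≤ ((H : ℝ)⁻¹) ^ 2 * ∑ h ∈ range H, ∑ h' ∈ range H, C := by
          gcongr
          refine norm_sum_le_of_le _ fun h _ => norm_sum_le_of_le _ fun h' _ => ?_
          rw [Real.norm_eq_abs]
          exact (Complex.abs_re_le_norm _).trans (av_norm_le hC0 fun n => hcb y _ n)
      _ = C := by
          simp only [Finset.sum_const, Finset.card_range, nsmul_eq_mul]
          field_simp
  have hall : ∀ᵐ y ∂μ, ∀ d : ℕ, ∃ L, Tendsto (fun N => av N (c y d)) atTop (𝓝 L) := ae_all_iff.2 hconv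
  have hGlim : ∀ᵐ y ∂μ, ∃ L : ℝ, Tendsto (fun N => G N y) atTop (𝓝 L) := by
    filter_upwards [hall] with y hy
    choose γ hγ using hy
    refine ⟨((H : ℝ)⁻¹) ^ 2 * ∑ h ∈ range H, ∑ h' ∈ range H, (γ (Nat.dist h h')).re, ?_⟩
    refine Tendsto.const_mul _ (tendsto_finsetSum _ fun h _ => tendsto_finsetSum _ fun h' _ => ?_)
    exact (Complex.continuous_re.tendsto _).comp (hγ _)
  set W : Y → ℝ := fun y => limUnder atTop (fun N => G N y) with hW
  have hWlim : ∀ᵐ y ∂μ, Tendsto (fun N => G N y) atTop (𝓝 (W y)) := by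
    filter_upwards [hGlim] with y hy
    exact tendsto_nhds_limUnder hy
  have hWm : AEStronglyMeasurable W μ :=
    aestronglyMeasurable_of_tendsto_ae atTop (fun N => (hGm N).aestronglyMeasurable) hWlim
  have hWint : Tendsto (fun N => ∫ y, G N y ∂μ) atTop (𝓝 (∫ y, W y ∂μ)) :=
    tendsto_integral_of_dominated_convergence (fun _ => C) (fun N => (hGm N).aestronglyMeasurable)
      (integrable_const _) (fun N => Eventually.of_forall fun y => hGb N y) hWlim
  have hWε : ∫ y, W y ∂μ ≤ ε := by
    refine le_of_tendsto hWint ?_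
    filter_upwards [hε] with N hN
    refine le_trans (le_of_eq ?_) hN
    simp only [hG]
    have hi : ∀ d, Integrable (fun y => (av N (c y d)).re) μ := by
      intro d
      refine Integrable.of_bound (Complex.measurable_re.comp
        ((Finset.measurable_sum _ fun n _ => hcm _ _).const_mul _)).aestronglyMeasurable C
        (Eventually.of_forall fun y => ?_)
      rw [Real.norm_eq_abs]
      exact (Complex.abs_re_le_norm _).trans (av_norm_le hC0 fun n => hcb y _ n)
    rw [integral_const_mul, integral_finsetSum _ fun h _ => integrable_finsetSum _ fun h' _ => hi _]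
    congr 1
    refine Finset.sum_congr rfl fun h _ => ?_
    rw [integral_finsetSum _ fun h' _ => hi _]
    refine Finset.sum_congr rfl fun h' _ => ?_
    have hic : ∀ n, Integrable (fun y => c y (Nat.dist h h') n) μ := fun n =>
      Integrable.of_bound (hcm _ _).aestronglyMeasurable C (Eventually.of_forall fun y => hcb y _ n)
    have hiav : Integrable (fun y => av N (c y (Nat.dist h h'))) μ := by
      unfold av
      exact (integrable_finsetSum _ fun n _ => hic n).const_mul _
    have h1 : ∫ y, (av N (c y (Nat.dist h h'))).re ∂μ = (∫ y, av N (c y (Nat.dist h h')) ∂μ).re :=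
      integral_re hiav
    rw [h1]
    congr 1
    unfold av
    rw [integral_const_mul, integral_finsetSum _ fun n _ => hic n]
  -- the limit is nonnegative
  have herr : Tendsto (fun N : ℕ => 6 * (D ^ m) ^ 2 * H / (N : ℝ)) atTop (𝓝 0) :=
    tendsto_const_div_atTop_nhds_zero_nat _
  have hW0 : 0 ≤ᵐ[μ] W := by
    filter_upwards [hWlim] with y hy
    have h1 := hy.add herr
    rw [add_zero] at h1
    refine ge_of_tendsto h1 ?_
    filter_upwards [eventually_gt_atTop 0] with N hN
    exact (integral_nonneg fun κ => by positivity).trans (hvdc N y hN)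
  have hWi : Integrable W μ := by
    refine Integrable.of_bound hWm C ?_
    filter_upwards [hWlim] with y hy
    exact le_of_tendsto hy.norm (Eventually.of_forall fun N => hGb N y)
  have hmark := mul_meas_ge_le_integral_of_nonneg hW0 hWi η
  have hsub : {y | ¬ ∀ᶠ N : ℕ in atTop, BB ρ S σ a g N y ≤ η} ≤ᵐ[μ] {y | η ≤ W y} := by
    filter_upwards [hWlim] with y hy hbad
    change η ≤ W y
    by_contra hcon
    rw [not_le] at hcon
    apply hbad
    have h1 := hy.add herr
    rw [add_zero] at h1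
    filter_upwards [(tendsto_order.1 h1).2 _ hcon, eventually_gt_atTop 0] with N hN hN0
    exact (hvdc N y hN0).trans hN.le
  calc μ {y | ¬ ∀ᶠ N : ℕ in atTop, BB ρ S σ a g N y ≤ η} ≤ μ {y | η ≤ W y} := measure_mono_ae hsub
    _ = ENNReal.ofReal (μ.real {y | η ≤ W y}) := by rw [ofReal_measureReal]
    _ ≤ ENNReal.ofReal (ε / η) := by
        apply ENNReal.ofReal_le_ofReal
        rw [le_div_iff₀ hη, mul_comm]
        exact hmark.trans hWε

end Core

end Pool.Agent.H80GE
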