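import Pool.Agent.H80GE.WM4

/-!
# Compact extensions which are not group extensions
-/

set_option autoImplicit false

open MeasureTheory Filter Topology Finset
open scoped ComplexConjugate ENNReal

namespace Pool.Agent.H80GE

section Factor

variable {X' X : Type*} [MeasurableSpace X'] [MeasurableSpace X] {ν' : Measure X'} {ν : Measure X}
  {T' : X' → X'} {T : X → X} {π : X' → X}

omit [MeasurableSpace X'] [MeasurableSpace X] in
lemma fac_iter (hc : ∀ x, π (T' x) = T (π x)) (n : ℕ) (x : X') : π (T'^[n] x) = T^[n] (π x) := by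
  induction n generalizing x with
  | zero => rfl
  | succ n ih => rw [Function.iterate_succ_apply, Function.iterate_succ_apply, ih, hc]

omit [MeasurableSpace X'] [MeasurableSpace X] in
lemma AV_fac (hc : ∀ x, π (T' x) = T (π x)) {m : ℕ} (a : Fin m → ℕ) (f : Fin m → X → ℂ) (N : ℕ) (x : X') :
    AV T' a (fun j x => f j (π x)) N x = AV T a f N (π x) := by
  unfold AV
  simp only [fac_iter hc]

lemma box_fac (hT : Measurable T) (hπ : MeasurePreserving π ν' ν) (hc : ∀ x, π (T' x) = T (π x)) (b k : ℕ)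
    {f : X → ℂ} (hf : Measurable f) : box ν' T' b k (fun x => f (π x)) = box ν T b k f := by
  induction k generalizing f with
  | zero =>
    unfold box
    congr 1
    funext N
    simp_rw [fac_iter hc]
    have hm : Measurable (fun x => ‖(N : ℂ)⁻¹ * ∑ n ∈ range N, f (T^[b * n] x)‖ₑ ^ 2) := by
      refine Measurable.pow_const (Measurable.enorm ?_) 2
      exact (Finset.measurable_sum _ fun n _ => hf.comp (hT.iterate _)).const_mul _
    exact hπ.lintegral_comp hm
  | succ k ih =>
    unfold box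
    congr 1
    funext H
    congr 1
    refine Finset.sum_congr rfl fun h _ => ?_
    have hm : Measurable (fun x => f (T^[h] x) * conj (f x)) :=
      (hf.comp (hT.iterate _)).mul (Complex.continuous_conj.measurable.comp hf)
    rw [← ih hm]
    simp_rw [fac_iter hc]

lemma AV_meas (hT : Measurable T) {m : ℕ} (a : Fin m → ℕ) {f : Fin m → X → ℂ} (hf : ∀ j, Measurable (f j)) (N : ℕ) :
    Measurable (AV T a f N) := by
  unfold AV av
  exact (Finset.measurable_sum _ fun n _ => Finset.measurable_prod _ fun j _ => (hf j).comp (hT.iterate _)).const_mul _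

lemma zero_fac (hT : Measurable T) (hπ : MeasurePreserving π ν' ν) (hc : ∀ x, π (T' x) = T (π x)) {m : ℕ}
    (a : Fin m → ℕ) {f : Fin m → X → ℂ} (hf : ∀ j, Measurable (f j))
    (h : ∀ᵐ x ∂ν', Tendsto (fun N => AV T' a (fun j x => f j (π x)) N x) atTop (𝓝 0)) :
    ∀ᵐ x ∂ν, Tendsto (fun N => AV T a f N x) atTop (𝓝 0) := by
  have hms : MeasurableSet {x | Tendsto (fun N => AV T a f N x) atTop (𝓝 0)} :=
    measurableSet_tendsto (𝓝 0) fun N => AV_meas hT a hf N
  rw [← hπ.map_eq]
  refine (ae_map_iff hπ.measurable.aemeasurable hms).2 ?_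
  filter_upwards [h] with x hx
  refine hx.congr fun N => ?_
  exact AV_fac hc a f N x

lemma conv_fac (hT : Measurable T) (hπ : MeasurePreserving π ν' ν) (hc : ∀ x, π (T' x) = T (π x)) {m : ℕ}
    (a : Fin m → ℕ) {f : Fin m → X → ℂ} (hf : ∀ j, Measurable (f j)) :
    (∀ᵐ x ∂ν', ∃ L, Tendsto (fun N => AV T' a (fun j x => f j (π x)) N x) atTop (𝓝 L)) ↔
    ∀ᵐ x ∂ν, ∃ L, Tendsto (fun N => AV T a f N x) atTop (𝓝 L) := by
  have hms : MeasurableSet {x | ∃ L, Tendsto (fun N => AV T a f N x) atTop (𝓝 L)} :=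
    measurableSet_exists_tendsto fun N => AV_meas hT a hf N
  rw [← hπ.map_eq, ae_map_iff hπ.measurable.aemeasurable hms]
  have e : ∀ x, (∃ L, Tendsto (fun N => AV T' a (fun j x => f j (π x)) N x) atTop (𝓝 L)) ↔
      ∃ L, Tendsto (fun N => AV T a f N (π x)) atTop (𝓝 L) := by
    intro x
    simp only [AV_fac hc]
  simp only [e]

end Factor

section Space

variable {Y K W : Type*} [MeasurableSpace Y] [Group K] [MeasurableSpace K] [MeasurableMul₂ K]
  [MeasurableSpace W] [MulAction K W] [MeasurableSMul₂ K W]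

/-- the extension by the action of `K` on `W` -/
def exs (S : Y → Y) (σ : Y → K) (z : Y × W) : Y × W := (S z.1, σ z.1 • z.2)

omit [MeasurableMul₂ K] in
lemma exs_meas {S : Y → Y} (hS : Measurable S) {σ : Y → K} (hσ : Measurable σ) :
    Measurable (exs (W := W) S σ) :=
  (hS.comp measurable_fst).prodMk ((hσ.comp measurable_fst).smul measurable_snd)

omit [MeasurableMul₂ K] in
lemma mp_exs (μ : Measure Y) [IsProbabilityMeasure μ] (θ : Measure W) [IsProbabilityMeasure θ]
    [SMulInvariantMeasure K W θ] {S : Y → Y} (hS : MeasurePreserving S μ μ) {σ : Y → K} (hσ : Measurable σ) :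
    MeasurePreserving (exs (W := W) S σ) (μ.prod θ) (μ.prod θ) := by
  have h := MeasurePreserving.skew_product (μc := θ) (μd := θ) hS (g := fun y w => σ y • w)
    ((hσ.comp measurable_fst).smul measurable_snd) (Eventually.of_forall fun y => (measurePreserving_smul (σ y) θ).map_eq)
  exact h

/-- convergence on the group extension implies convergence on the extension by an action -/
lemma conv_space (μ : Measure Y) [IsProbabilityMeasure μ] (ρ : Measure K) [IsProbabilityMeasure ρ]
    (θ : Measure W) [IsProbabilityMeasure θ]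
    [SMulInvariantMeasure K W θ] {S : Y → Y} (hS : Measurable S) {σ : Y → K} (hσ : Measurable σ) {m : ℕ}
    (a : Fin m → ℕ)
    (h : ∀ g : Fin m → Y × K → ℂ, (∀ j, Measurable (g j)) → (∃ C, ∀ j x, ‖g j x‖ ≤ C) →
      ∀ᵐ x ∂(μ.prod ρ), ∃ L, Tendsto (fun N => AV (sk S σ) a g N x) atTop (𝓝 L))
    (f : Fin m → Y × W → ℂ) (hf : ∀ j, Measurable (f j)) (hfb : ∃ C, ∀ j x, ‖f j x‖ ≤ C) :
    ∀ᵐ x ∂(μ.prod θ), ∃ L, Tendsto (fun N => AV (exs S σ) a f N x) atTop (𝓝 L) := by
  set E : Set (Y × W) := {x | ∃ L, Tendsto (fun N => AV (exs S σ) a f N x) atTop (𝓝 L)} with hE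
  have hEm : MeasurableSet E := measurableSet_exists_tendsto fun N => AV_meas (exs_meas hS hσ) a hf N
  -- the map (w, (y, k)) ↦ (y, k • w)
  set Φ : W × (Y × K) → Y × W := fun p => (p.2.1, p.2.2 • p.1) with hΦ
  have hΦm : Measurable Φ := (measurable_fst.comp measurable_snd).prodMk
    ((measurable_snd.comp measurable_snd).smul measurable_fst)
  have hΦmp : MeasurePreserving Φ (θ.prod (μ.prod ρ)) (μ.prod θ) := by
    have h1 : MeasurePreserving (fun p : (Y × K) × W => (p.1, p.1.2 • p.2)) ((μ.prod ρ).prod θ) ((μ.prod ρ).prod θ) := by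
      have := MeasurePreserving.skew_product (μc := θ) (μd := θ) (MeasurePreserving.id (μ.prod ρ))
        (g := fun (y : Y × K) w => y.2 • w)
        (((measurable_snd.comp measurable_fst)).smul measurable_snd)
        (Eventually.of_forall fun y => (measurePreserving_smul y.2 θ).map_eq)
      exact this
    have h2 : MeasurePreserving (Prod.swap : W × (Y × K) → (Y × K) × W) (θ.prod (μ.prod ρ)) ((μ.prod ρ).prod θ) :=
      Measure.measurePreserving_swap
    have h3 : MeasurePreserving (Prod.map Prod.fst id : (Y × K) × W → Y × W) ((μ.prod ρ).prod θ) (μ.prod θ) :=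
      (measurePreserving_fst (μ := μ) (ν := ρ)).prod (MeasurePreserving.id θ)
    exact h3.comp (h1.comp h2)
  have hsrc : ∀ᵐ p ∂(θ.prod (μ.prod ρ)), p ∈ Φ ⁻¹' E := by
    rw [Measure.ae_prod_mem_iff_ae_ae_mem (hΦm hEm)]
    refine Eventually.of_forall fun w => ?_
    have hπm : Measurable (fun x : Y × K => (x.1, x.2 • w)) :=
      measurable_fst.prodMk (measurable_snd.smul_const w)
    have h1 := h (fun j x => f j (x.1, x.2 • w)) (fun j => (hf j).comp hπm) (by
      obtain ⟨C, hC⟩ := hfb
      exact ⟨C, fun j x => hC j _⟩)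
    filter_upwards [h1] with x hx
    obtain ⟨L, hL⟩ := hx
    refine ⟨L, hL.congr fun N => ?_⟩
    have hc : ∀ x : Y × K, (fun x : Y × K => (x.1, x.2 • w)) (sk S σ x) =
        exs S σ ((fun x : Y × K => (x.1, x.2 • w)) x) := by
      intro x
      simp only [sk, exs, mul_smul]
    exact AV_fac (π := fun x : Y × K => (x.1, x.2 • w)) hc a f N x
  have h4 := (ae_map_iff hΦm.aemeasurable hEm).2 hsrc
  rw [hΦmp.map_eq] at h4
  exact h4

end Space

section Avg

/-- the averages over `1, …, N` -/
lemma avg_eq {X : Type*} (T : X → X) {m : ℕ} (a : Fin m → ℕ) (f : Fin m → X → ℂ) (N : ℕ) (x : X) :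
    (1 / (N : ℂ)) * ∑ n ∈ Finset.Icc 1 N, ∏ j, f j (T^[a j * n] x) = AV T a f N x := by
  unfold AV av
  rw [one_div]
  congr 1
  have e0 : Finset.Icc 1 N = Finset.Ico 1 (N + 1) := by ext; simp
  rw [e0, Finset.sum_Ico_eq_sum_range]
  refine Finset.sum_congr (by simp) fun n _ => ?_
  rw [add_comm 1 n]

end Avg

end Pool.Agent.H80GE
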