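import Pool.Agent.H80GE.HKb
import Pool.Agent.H80GE.Fac

/-!
# Closure of almost everywhere convergence, for a system where negligible functions do not contribute
-/

set_option autoImplicit false

open MeasureTheory Filter Topology Finset
open scoped ComplexConjugate ENNReal

namespace Pool.Agent.H80GE

theorem abs_closure {X : Type*} [MeasurableSpace X] (ν : Measure X) [IsProbabilityMeasure ν] {T : X → X}
    (hT : MeasurePreserving T ν ν) {m : ℕ}
    (a : Fin m → ℕ) (nul : (X → ℂ) → Prop)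
    (hz : ∀ f : Fin m → X → ℂ, (∀ j, Measurable (f j)) → (∃ C, ∀ j x, ‖f j x‖ ≤ C) → (∃ j, nul (f j)) →
      ∀ᵐ x ∂ν, Tendsto (fun N => AV T a f N x) atTop (𝓝 0))
    (St : Set (X → ℂ)) (C : ℝ) (hSt : ∀ s ∈ St, Measurable s ∧ ∀ z, ‖s z‖ ≤ C)
    (hconv : ∀ s : Fin m → X → ℂ, (∀ j, s j ∈ St) →
      ∀ᵐ x ∂ν, ∃ L, Tendsto (fun N => AV T a s N x) atTop (𝓝 L))
    (hdec : ∀ f : X → ℂ, Measurable f → (∀ z, ‖f z‖ ≤ 1) → ∀ ε : ℝ, 0 < ε → ∃ s ∈ St, ∃ w : X → ℂ,
      Measurable w ∧ (∀ z, ‖w z‖ ≤ C) ∧ nul w ∧ ∫ z, ‖f z - (s z + w z)‖ ∂ν ≤ ε)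
    (f : Fin m → X → ℂ) (hf : ∀ j, Measurable (f j)) (hfb : ∃ C, ∀ j x, ‖f j x‖ ≤ C) :
    ∀ᵐ x ∂ν, ∃ L, Tendsto (fun N => AV T a f N x) atTop (𝓝 L) := by
  -- the case of functions bounded by one
  have main : ∀ f : Fin m → X → ℂ, (∀ j, Measurable (f j)) → (∀ j x, ‖f j x‖ ≤ 1) →
      ∀ᵐ x ∂ν, ∃ L, Tendsto (fun N => AV T a f N x) atTop (𝓝 L) := by
    intro f hf hf1
    apply conv_of_approx ν (fun N x => AV T a f N x)
    intro δ hδ ε hε
    set C' : ℝ := max (2 * C) 1 with hC'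
    have hC'1 : 1 ≤ C' := le_max_right _ _
    have hC'0 : 0 < C' := by linarith
    set ε' : ℝ := ε * δ / (C' ^ m * (m + 1) * (m + 1)) with hε'
    have hε'0 : 0 < ε' := by positivity
    choose s hsSt w hwm hwC hwb hsw using fun j => hdec (f j) (hf j) (hf1 j) ε' hε'0
    have hC0 : ∀ z : X, ∀ _j : Fin m, 0 ≤ C := fun z j => (norm_nonneg _).trans (hwC j z)
    have hsum : ∀ j z, ‖s j z + w j z‖ ≤ C' := fun j z =>
      (norm_add_le _ _).trans ((add_le_add ((hSt _ (hsSt j)).2 z) (hwC j z)).trans (by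
        rw [hC']; linarith [le_max_left (2 * C) 1]))
    refine ⟨fun N x => AV T a (fun j x => s j x + w j x) N x, ?_, ?_⟩
    · have h1 := AV_replace ν (T := T) a (fun g => Measurable g ∧ ∀ z, ‖g z‖ ≤ C') s w
        (fun j => ⟨(hSt _ (hsSt j)).1, fun z => ((hSt _ (hsSt j)).2 z).trans (by
          rw [hC']; linarith [le_max_left (2 * C) 1, hC0 z j])⟩)
        (fun j => ⟨(hSt _ (hsSt j)).1.add (hwm j), hsum j⟩)
        (by
          intro g j hg hgj
          have hgm : ∀ l, Measurable (g l) := by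
            intro l
            by_cases hl : l = j
            · rw [hl, hgj]; exact hwm j
            · exact (hg l hl).1
          have hgb : ∀ l x, ‖g l x‖ ≤ C' := by
            intro l x
            by_cases hl : l = j
            · rw [hl, hgj]
              exact (hwC j x).trans (by rw [hC']; linarith [le_max_left (2 * C) 1, hC0 x j])
            · exact (hg l hl).2 x
          refine hz g hgm ⟨C', hgb⟩ ⟨j, ?_⟩
          rw [hgj]
          exact hwb j)
      filter_upwards [h1, hconv s hsSt] with x hx1 hx2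
      obtain ⟨L, hL⟩ := hx2
      refine ⟨0 + L, (hx1.add hL).congr fun N => ?_⟩
      ring
    · refine (close ν hT a f (fun j x => s j x + w j x) hf (fun j => (hSt _ (hsSt j)).1.add (hwm j)) C' hC'1
        (fun j x => (hf1 j x).trans hC'1) hsum ε' hsw δ hδ).trans ?_
      apply ENNReal.ofReal_le_ofReal
      have e : (m : ℝ) * (C' ^ m * (m + 1) * ε' / δ) = ε * (m / (m + 1)) := by
        rw [hε']; field_simp
      rw [e]
      have e3 : (m : ℝ) / (m + 1) ≤ 1 := by rw [div_le_one (by positivity)]; linarith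
      nlinarith
  obtain ⟨D, hD⟩ := hfb
  set D' : ℝ := max D 1 with hD'
  have hD'1 : 1 ≤ D' := le_max_right _ _
  have hD'0 : 0 < D' := by linarith
  have h := main (fun j x => ((D' : ℂ))⁻¹ * f j x) (fun j => (hf j).const_mul _) (fun j x => by
    rw [norm_mul, norm_inv, Complex.norm_real, Real.norm_eq_abs, abs_of_pos hD'0, inv_mul_le_iff₀ hD'0, mul_one]
    exact (hD j x).trans (le_max_left _ _))
  filter_upwards [h] with x hx
  obtain ⟨L, hL⟩ := hx
  refine ⟨(D' : ℂ) ^ m * L, (hL.const_mul ((D' : ℂ) ^ m)).congr fun N => ?_⟩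
  rw [AV_smul, ← mul_assoc, ← mul_pow, mul_inv_cancel₀ (by exact_mod_cast hD'0.ne'), one_pow, one_mul]

section Iso

variable {Y K W : Type*} [MeasurableSpace Y] [Group K] [TopologicalSpace K] [IsTopologicalGroup K]
  [CompactSpace K] [T2Space K] [SecondCountableTopology K] [MeasurableSpace K] [BorelSpace K]
  [MeasurableSpace W] [MulAction K W] [MeasurableSMul₂ K W]
  {μ : Measure Y} [IsProbabilityMeasure μ] {ρ : Measure K} [ρ.IsHaarMeasure] [IsProbabilityMeasure ρ]

/-- null functions on isometric extensions -/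
theorem iso_zero (S : Y ≃ᵐ Y) (hS : MeasurePreserving S μ μ) {σ : Y → K} (hσ : Measurable σ) (w₀ : W) {m : ℕ}
    (hm : 2 ≤ m) (a : Fin m → ℕ) (hinj : Function.Injective a) (ha0 : ∀ j, 0 < a j)
    (hY : ∀ g : Fin m → Y → ℂ, (∀ j, Measurable (g j)) → (∃ C, ∀ j y, ‖g j y‖ ≤ C) →
      ∀ᵐ y ∂μ, ∃ L, Tendsto (fun N => AV S a g N y) atTop (𝓝 L))
    (f : Fin m → Y × W → ℂ) (hf : ∀ j, Measurable (f j)) (hfb : ∃ C, ∀ j x, ‖f j x‖ ≤ C)
    (hj : ∃ j, box (μ.prod (ρ.map fun k => k • w₀)) (exs S σ) 1 (m - 1) (f j) = 0) :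
    ∀ᵐ x ∂(μ.prod (ρ.map fun k => k • w₀)), Tendsto (fun N => AV (exs S σ) a f N x) atTop (𝓝 0) := by
  obtain ⟨j, hj⟩ := hj
  have hπm : Measurable (fun k : K => k • w₀) := measurable_id.smul_const w₀
  have hπ0 : MeasurePreserving (fun k : K => k • w₀) ρ (ρ.map fun k => k • w₀) := ⟨hπm, rfl⟩
  have hρ' : IsProbabilityMeasure (ρ.map fun k : K => k • w₀) :=
    Measure.isProbabilityMeasure_map hπm.aemeasurable
  have hπ : MeasurePreserving (Prod.map (id : Y → Y) (fun k : K => k • w₀)) (μ.prod ρ)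
      (μ.prod (ρ.map fun k => k • w₀)) := (MeasurePreserving.id μ).prod hπ0
  have hc : ∀ x : Y × K, Prod.map (id : Y → Y) (fun k : K => k • w₀) (sk S σ x) =
      exs S σ (Prod.map (id : Y → Y) (fun k : K => k • w₀) x) := by
    intro x
    change (S x.1, (σ x.1 * x.2) • w₀) = (S x.1, σ x.1 • x.2 • w₀)
    rw [mul_smul]
  have hTm : Measurable (exs (W := W) S σ) := exs_meas S.measurable hσ
  refine zero_fac hTm hπ hc a hf ?_
  have hm1 : m - 1 = (m - 2) + 1 := by omega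
  -- another index
  obtain ⟨i, hij⟩ : ∃ i : Fin m, i ≠ j := by
    by_cases h0 : (j : ℕ) = 0
    · exact ⟨⟨1, by omega⟩, fun h => by rw [← h] at h0; simp at h0⟩
    · exact ⟨⟨0, by omega⟩, fun h => h0 (by rw [← h])⟩
  refine hk_bounded S hS hσ a hinj ha0 hY (fun j x => f j (Prod.map (id : Y → Y) (fun k : K => k • w₀) x))
    (fun j => (hf j).comp hπ.measurable) (by
      obtain ⟨C, hC⟩ := hfb
      exact ⟨C, fun j x => hC j _⟩) i j hij ?_
  have hb : 0 < ((a j : ℤ) - a i).natAbs := by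
    rw [Int.natAbs_pos, sub_ne_zero]
    intro h
    exact hij (hinj (by exact_mod_cast h.symm))
  rw [hm1]
  refine box_null (mp_sk μ ρ hS hσ) _ hb (m - 2) ((hf j).comp hπ.measurable) (by
      obtain ⟨C, hC⟩ := hfb
      exact ⟨C, fun x => hC j _⟩) ?_
  rw [box_fac hTm hπ hc 1 (m - 2 + 1) (hf j), ← hm1]
  exact hj

end Iso

end Pool.Agent.H80GE
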