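import Pool.Agent.H80GE.HKMain

/-!
# Extension to bounded functions and closure under decompositions
-/

set_option autoImplicit false

open MeasureTheory Filter Topology Finset
open scoped ComplexConjugate ENNReal

namespace Pool.Agent.H80GE

lemma box_smul_zero {X : Type*} [MeasurableSpace X] {μ : Measure X} {T : X → X} (b k : ℕ) (c : ℂ) {f : X → ℂ}
    (h : box μ T b k f = 0) : box μ T b k (fun x => c * f x) = 0 := by
  have key : ∀ (k : ℕ) (c : ℂ) (f : X → ℂ),
      box μ T b k (fun x => c * f x) = ‖c‖ₑ ^ (2 ^ (k + 1)) * box μ T b k f := by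
    intro k
    induction k with
    | zero =>
      intro c f
      unfold box
      rw [← ENNReal.limsup_const_mul_of_ne_top (by finiteness)]
      congr 1
      funext N
      rw [← lintegral_const_mul' _ _ (by finiteness)]
      congr 1
      funext x
      rw [← Finset.mul_sum, mul_left_comm, enorm_mul, mul_pow]
      norm_num
    | succ k ih =>
      intro c f
      unfold box
      rw [← ENNReal.limsup_const_mul_of_ne_top (by finiteness)]
      congr 1
      funext H
      rw [mul_left_comm]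
      congr 1
      rw [Finset.mul_sum]
      refine Finset.sum_congr rfl fun h _ => ?_
      have e : (fun x => c * f (T^[h] x) * conj (c * f x)) = fun x => (c * conj c) * (f (T^[h] x) * conj (f x)) := by
        funext x
        rw [map_mul]
        ring
      rw [e, ih, enorm_mul]
      have e2 : ‖conj c‖ₑ = ‖c‖ₑ := by rw [enorm_eq_iff_norm_eq, RCLike.norm_conj]
      rw [e2, ← sq, ← pow_mul]
      congr 2
      ring
  rw [key, h, mul_zero]

lemma AV_smul {X : Type*} {T : X → X} {m : ℕ} (a : Fin m → ℕ) (f : Fin m → X → ℂ) (c : ℂ) (N : ℕ) (x : X) :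
    AV T a (fun j x => c * f j x) N x = c ^ m * AV T a f N x := by
  unfold AV av
  rw [mul_left_comm]
  congr 1
  rw [Finset.mul_sum]
  refine Finset.sum_congr rfl fun n _ => ?_
  change ∏ j, (c * f j (T^[a j * (n + 1)] x)) = c ^ m * ∏ j, f j (T^[a j * (n + 1)] x)
  rw [Finset.prod_mul_distrib]
  simp

section Main

variable {Y K : Type*} [MeasurableSpace Y] [Group K] [TopologicalSpace K] [IsTopologicalGroup K]
  [CompactSpace K] [T2Space K] [SecondCountableTopology K] [MeasurableSpace K] [BorelSpace K]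
  {μ : Measure Y} [IsProbabilityMeasure μ] {ρ : Measure K} [ρ.IsHaarMeasure] [IsProbabilityMeasure ρ]

theorem hk_bounded (S : Y ≃ᵐ Y) (hS : MeasurePreserving S μ μ) {σ : Y → K} (hσ : Measurable σ) {m : ℕ}
    (a : Fin m → ℕ) (hinj : Function.Injective a) (ha0 : ∀ j, 0 < a j)
    (hY : ∀ g : Fin m → Y → ℂ, (∀ j, Measurable (g j)) → (∃ C, ∀ j y, ‖g j y‖ ≤ C) →
      ∀ᵐ y ∂μ, ∃ L, Tendsto (fun N => AV S a g N y) atTop (𝓝 L))
    (f : Fin m → Y × K → ℂ) (hf : ∀ j, Measurable (f j)) (hfb : ∃ C, ∀ j x, ‖f j x‖ ≤ C) (i j : Fin m)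
    (hij : i ≠ j) (hbox : box (μ.prod ρ) (sk S σ) ((a j : ℤ) - a i).natAbs (m - 1) (f j) = 0) :
    ∀ᵐ x ∂(μ.prod ρ), Tendsto (fun N => AV (sk S σ) a f N x) atTop (𝓝 0) := by
  obtain ⟨C, hC⟩ := hfb
  set C' : ℝ := max C 1 with hC'
  have hC'1 : 1 ≤ C' := le_max_right _ _
  have hC'0 : 0 < C' := by linarith
  set g : Fin m → Y × K → ℂ := fun j x => ((C' : ℂ))⁻¹ * f j x with hg
  have hg1 : ∀ j x, ‖g j x‖ ≤ 1 := by
    intro j x
    simp only [hg]
    rw [norm_mul, norm_inv, Complex.norm_real, Real.norm_eq_abs, abs_of_pos hC'0, inv_mul_le_iff₀ hC'0, mul_one]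
    exact (hC j x).trans (le_max_left _ _)
  have h := hk_main S hS hσ a hinj ha0 hY g (fun j => (hf j).const_mul _) hg1 i j hij
    (box_smul_zero _ _ _ hbox)
  filter_upwards [h] with x hx
  have h1 := hx.const_mul ((C' : ℂ) ^ m)
  rw [mul_zero] at h1
  refine h1.congr fun N => ?_
  simp only [hg]
  rw [AV_smul, ← mul_assoc, ← mul_pow, mul_inv_cancel₀ (by exact_mod_cast hC'0.ne'), one_pow, one_mul]

/-- replacing one function after the other -/
lemma AV_replace {X : Type*} [MeasurableSpace X] (ν : Measure X) {T : X → X} {m : ℕ} (a : Fin m → ℕ)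
    (P : (X → ℂ) → Prop) (s w : Fin m → X → ℂ) (hs : ∀ j, P (s j)) (hsw : ∀ j, P (fun x => s j x + w j x))
    (hneg : ∀ (f : Fin m → X → ℂ) (j : Fin m), (∀ i, i ≠ j → P (f i)) → f j = w j →
      ∀ᵐ x ∂ν, Tendsto (fun N => AV T a f N x) atTop (𝓝 0)) :
    ∀ᵐ x ∂ν, Tendsto (fun N => AV T a (fun j x => s j x + w j x) N x - AV T a s N x) atTop (𝓝 0) := by
  classical
  -- the hybrid tuples
  set hyb : ℕ → Fin m → X → ℂ := fun k j => if (j : ℕ) < k then (fun x => s j x + w j x) else s j with hhyb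
  have hP : ∀ k j, P (hyb k j) := by
    intro k j
    simp only [hhyb]
    split_ifs
    · exact hsw j
    · exact hs j
  have hstep : ∀ k : Fin m, ∀ᵐ x ∂ν, Tendsto (fun N => AV T a (hyb (k + 1)) N x - AV T a (hyb k) N x) atTop (𝓝 0) := by
    intro k
    have h1 := hneg (fun j => if j = k then w k else hyb k j) k (fun i hi => by simp only [if_neg hi]; exact hP k i)
      (by simp)
    filter_upwards [h1] with x hx
    refine hx.congr fun N => ?_
    unfold AV av
    rw [← mul_sub, ← Finset.sum_sub_distrib]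
    congr 1
    refine Finset.sum_congr rfl fun n _ => ?_
    have hdec : ∀ (G : Fin m → X → ℂ), ∏ j, G j (T^[a j * (n + 1)] x) =
        G k (T^[a k * (n + 1)] x) * ∏ j ∈ Finset.univ.erase k, G j (T^[a j * (n + 1)] x) := fun G =>
      (Finset.mul_prod_erase Finset.univ _ (Finset.mem_univ k)).symm
    change ∏ j, (fun j => if j = k then w k else hyb k j) j (T^[a j * (n + 1)] x) =
      ∏ j, hyb (k + 1) j (T^[a j * (n + 1)] x) - ∏ j, hyb k j (T^[a j * (n + 1)] x)
    rw [hdec (fun j => if j = k then w k else hyb k j), hdec (hyb (k + 1)), hdec (hyb k)]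
    have e1 : ∏ j ∈ Finset.univ.erase k, (fun j => if j = k then w k else hyb k j) j (T^[a j * (n + 1)] x) =
        ∏ j ∈ Finset.univ.erase k, hyb k j (T^[a j * (n + 1)] x) := by
      refine Finset.prod_congr rfl fun j hj => ?_
      rw [Finset.mem_erase] at hj
      simp only [if_neg hj.1]
    have e2 : ∏ j ∈ Finset.univ.erase k, hyb (k + 1) j (T^[a j * (n + 1)] x) =
        ∏ j ∈ Finset.univ.erase k, hyb k j (T^[a j * (n + 1)] x) := by
      refine Finset.prod_congr rfl fun j hj => ?_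
      rw [Finset.mem_erase] at hj
      have hne : (j : ℕ) ≠ k := fun h => hj.1 (Fin.ext h)
      simp only [hhyb]
      by_cases hlt : (j : ℕ) < k
      · rw [if_pos hlt, if_pos (by omega)]
      · rw [if_neg hlt, if_neg (by omega)]
    rw [e1, e2]
    have e3 : hyb (k + 1) k = fun x => s k x + w k x := by simp only [hhyb]; rw [if_pos (by omega)]
    have e4 : hyb k k = s k := by simp only [hhyb]; rw [if_neg (by omega)]
    rw [e3, e4]
    simp only [if_true]
    ring
  filter_upwards [ae_all_iff.2 hstep] with x hx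
  have htel : ∀ k : ℕ, k ≤ m → Tendsto (fun N => AV T a (hyb k) N x - AV T a (hyb 0) N x) atTop (𝓝 0) := by
    intro k
    induction k with
    | zero => intro _; simp
    | succ k ih =>
      intro hk
      have h1 := (hx ⟨k, by omega⟩).add (ih (by omega))
      rw [add_zero] at h1
      refine h1.congr fun N => ?_
      ring
  have h2 := htel m le_rfl
  have e5 : hyb m = fun j x => s j x + w j x := by
    funext j
    simp only [hhyb]
    rw [if_pos j.2]
  have e6 : hyb 0 = s := by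
    funext j
    simp only [hhyb]
    rw [if_neg (by omega)]
  rw [e5, e6] at h2
  exact h2

/-- closure under decompositions into structured and negligible functions -/
theorem hk_closure (S : Y ≃ᵐ Y) (hS : MeasurePreserving S μ μ) {σ : Y → K} (hσ : Measurable σ) {m : ℕ}
    (a : Fin m → ℕ) (hinj : Function.Injective a) (ha0 : ∀ j, 0 < a j)
    (hY : ∀ g : Fin m → Y → ℂ, (∀ j, Measurable (g j)) → (∃ C, ∀ j y, ‖g j y‖ ≤ C) →
      ∀ᵐ y ∂μ, ∃ L, Tendsto (fun N => AV S a g N y) atTop (𝓝 L))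
    (St : Set (Y × K → ℂ)) (C : ℝ) (hSt : ∀ s ∈ St, Measurable s ∧ ∀ z, ‖s z‖ ≤ C)
    (hconv : ∀ s : Fin m → Y × K → ℂ, (∀ j, s j ∈ St) →
      ∀ᵐ x ∂(μ.prod ρ), ∃ L, Tendsto (fun N => AV (sk S σ) a s N x) atTop (𝓝 L))
    (hdec : ∀ f : Y × K → ℂ, Measurable f → (∀ z, ‖f z‖ ≤ 1) → ∀ ε : ℝ, 0 < ε → ∃ s ∈ St, ∃ w : Y × K → ℂ,
      Measurable w ∧ (∀ z, ‖w z‖ ≤ C) ∧
      (∀ j, ∃ i, i ≠ j ∧ box (μ.prod ρ) (sk S σ) ((a j : ℤ) - a i).natAbs (m - 1) w = 0) ∧
      ∫ z, ‖f z - (s z + w z)‖ ∂(μ.prod ρ) ≤ ε)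
    (f : Fin m → Y × K → ℂ) (hf : ∀ j, Measurable (f j)) (hfb : ∃ C, ∀ j x, ‖f j x‖ ≤ C) :
    ∀ᵐ x ∂(μ.prod ρ), ∃ L, Tendsto (fun N => AV (sk S σ) a f N x) atTop (𝓝 L) := by
  have hT := mp_sk μ ρ hS hσ
  -- the case of functions bounded by one
  have main : ∀ f : Fin m → Y × K → ℂ, (∀ j, Measurable (f j)) → (∀ j x, ‖f j x‖ ≤ 1) →
      ∀ᵐ x ∂(μ.prod ρ), ∃ L, Tendsto (fun N => AV (sk S σ) a f N x) atTop (𝓝 L) := by
    intro f hf hf1
    apply conv_of_approx (μ.prod ρ) (fun N x => AV (sk S σ) a f N x)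
    intro δ hδ ε hε
    set C' : ℝ := max (2 * C) 1 with hC'
    have hC'1 : 1 ≤ C' := le_max_right _ _
    have hC'0 : 0 < C' := by linarith
    set ε' : ℝ := ε * δ / (C' ^ m * (m + 1) * (m + 1)) with hε'
    have hε'0 : 0 < ε' := by positivity
    choose s hsSt w hwm hwC hwb hsw using fun j => hdec (f j) (hf j) (hf1 j) ε' hε'0
    have hC0 : ∀ z : Y × K, ∀ _j : Fin m, 0 ≤ C := fun z j => (norm_nonneg _).trans (hwC j z)
    have hsum : ∀ j z, ‖s j z + w j z‖ ≤ C' := fun j z =>
      (norm_add_le _ _).trans ((add_le_add ((hSt _ (hsSt j)).2 z) (hwC j z)).trans (by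
        rw [hC']; linarith [le_max_left (2 * C) 1]))
    refine ⟨fun N x => AV (sk S σ) a (fun j x => s j x + w j x) N x, ?_, ?_⟩
    · have h1 := AV_replace (μ.prod ρ) (T := sk S σ) a (fun g => Measurable g ∧ ∀ z, ‖g z‖ ≤ C') s w
        (fun j => ⟨(hSt _ (hsSt j)).1, fun z => ((hSt _ (hsSt j)).2 z).trans (by
          rw [hC']; linarith [le_max_left (2 * C) 1, hC0 z j])⟩)
        (fun j => ⟨(hSt _ (hsSt j)).1.add (hwm j), hsum j⟩)
        (by
          intro g j hg hgj
          obtain ⟨i, hij, hbi⟩ := hwb j j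
          have hgm : ∀ l, Measurable (g l) := by
            intro l
            by_cases hl : l = j
            · rw [hl, hgj]; exact hwm j
            · exact (hg l hl).1
          have hgb : ∀ l x, ‖g l x‖ ≤ C' := by
            intro l x
            by_cases hl : l = j
            · rw [hl, hgj]
              exact (hwC j x).trans (by rw [hC']; linarith [le_max_left (2 * C) 1, hC0 x j])
            · exact (hg l hl).2 x
          refine hk_bounded S hS hσ a hinj ha0 hY g hgm ⟨C', hgb⟩ i j hij ?_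
          rw [hgj]
          exact hbi)
      filter_upwards [h1, hconv s hsSt] with x hx1 hx2
      obtain ⟨L, hL⟩ := hx2
      refine ⟨0 + L, (hx1.add hL).congr fun N => ?_⟩
      ring
    · refine (close (μ.prod ρ) hT a f (fun j x => s j x + w j x) hf (fun j => (hSt _ (hsSt j)).1.add (hwm j)) C' hC'1
        (fun j x => (hf1 j x).trans hC'1) hsum ε' hsw δ hδ).trans ?_
      apply ENNReal.ofReal_le_ofReal
      have e : (m : ℝ) * (C' ^ m * (m + 1) * ε' / δ) = ε * (m / (m + 1)) := by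
        rw [hε']; field_simp
      rw [e]
      have e3 : (m : ℝ) / (m + 1) ≤ 1 := by rw [div_le_one (by positivity)]; linarith
      nlinarith
  obtain ⟨D, hD⟩ := hfb
  set D' : ℝ := max D 1 with hD'
  have hD'1 : 1 ≤ D' := le_max_right _ _
  have hD'0 : 0 < D' := by linarith
  have h := main (fun j x => ((D' : ℂ))⁻¹ * f j x) (fun j => (hf j).const_mul _) (fun j x => by
    rw [norm_mul, norm_inv, Complex.norm_real, Real.norm_eq_abs, abs_of_pos hD'0, inv_mul_le_iff₀ hD'0, mul_one]
    exact (hD j x).trans (le_max_left _ _))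
  filter_upwards [h] with x hx
  obtain ⟨L, hL⟩ := hx
  refine ⟨(D' : ℂ) ^ m * L, (hL.const_mul ((D' : ℂ) ^ m)).congr fun N => ?_⟩
  rw [AV_smul, ← mul_assoc, ← mul_pow, mul_inv_cancel₀ (by exact_mod_cast hD'0.ne'), one_pow, one_mul]

end Main

end Pool.Agent.H80GE
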