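import Pool.Agent.H80GE.Fac

/-!
# The seminorms do not depend on the power used at the lowest level
-/

set_option autoImplicit false

open MeasureTheory Filter Topology Finset
open scoped ComplexConjugate ENNReal

namespace Pool.Agent.H80GE

variable {X : Type*} [MeasurableSpace X] {μ : Measure X} [IsProbabilityMeasure μ] {T : X → X}

lemma lint_eq {g : X → ℂ} (hg : Measurable g) {D : ℝ} (hD : ∀ x, ‖g x‖ ≤ D) :
    ∫⁻ x, ‖g x‖ₑ ^ 2 ∂μ = ENNReal.ofReal (∫ x, ‖g x‖ ^ 2 ∂μ) := by
  have hi : Integrable (fun x => ‖g x‖ ^ 2) μ := by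
    refine Integrable.of_bound (hg.norm.pow_const 2).aestronglyMeasurable (D ^ 2) (Eventually.of_forall fun x => ?_)
    rw [norm_pow, norm_norm]
    exact pow_le_pow_left₀ (norm_nonneg _) (hD x) 2
  rw [ofReal_integral_eq_lintegral_ofReal hi (Eventually.of_forall fun x => by positivity)]
  congr 1
  funext x
  rw [ENNReal.ofReal_pow (norm_nonneg _), ofReal_norm]

lemma av_meas {u : ℕ → X → ℂ} (hu : ∀ n, Measurable (u n)) (N : ℕ) : Measurable (fun x => av N (fun n => u n x)) :=
  (Finset.measurable_sum _ fun n _ => hu n).const_mul _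

lemma box_le_one {f : X → ℂ} (hf : ∀ x, ‖f x‖ ≤ 1) (b k : ℕ) : box μ T b k f ≤ 1 := by
  induction k generalizing f with
  | zero =>
    unfold box
    refine limsup_le_of_le (by isBoundedDefault) (Eventually.of_forall fun N => ?_)
    calc ∫⁻ x, ‖(N : ℂ)⁻¹ * ∑ n ∈ range N, f (T^[b * n] x)‖ₑ ^ 2 ∂μ ≤ ∫⁻ _x, 1 ∂μ := by
          refine lintegral_mono fun x => ?_
          have h1 : ‖(N : ℂ)⁻¹ * ∑ n ∈ range N, f (T^[b * n] x)‖ ≤ 1 :=
            av_norm_le (N := N) (u := fun n => f (T^[b * n] x)) zero_le_one fun n => hf _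
          rw [← ofReal_norm, ← ENNReal.ofReal_pow (norm_nonneg _)]
          exact ENNReal.ofReal_le_one.2 (pow_le_one₀ (norm_nonneg _) h1)
      _ = 1 := by simp
  | succ k ih =>
    unfold box
    refine limsup_le_of_le (by isBoundedDefault) (Eventually.of_forall fun N => ?_)
    rcases Nat.eq_zero_or_pos N with rfl | hN
    · simp
    · calc (N : ℝ≥0∞)⁻¹ * ∑ h ∈ range N, box μ T b k (fun x => f (T^[h] x) * conj (f x))
          ≤ (N : ℝ≥0∞)⁻¹ * ∑ _h ∈ range N, 1 := by
            gcongr with h _
            refine ih fun x => ?_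
            rw [norm_mul, RCLike.norm_conj]
            exact mul_le_one₀ (hf _) (norm_nonneg _) (hf _)
        _ = 1 := by
            rw [Finset.sum_const, Finset.card_range, nsmul_eq_mul, mul_one]
            exact ENNReal.inv_mul_cancel (by exact_mod_cast hN.ne') (ENNReal.natCast_ne_top _)

/-- the lowest level is bounded by every average -/
lemma box_zero_le (hT : MeasurePreserving T μ μ) {g : X → ℂ} (hg : Measurable g) (hg1 : ∀ x, ‖g x‖ ≤ 1) (b M : ℕ)
    (hM : 0 < M) : box μ T b 0 g ≤ ENNReal.ofReal (∫ x, ‖av M (fun n => g (T^[b * n] x))‖ ^ 2 ∂μ) := by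
  set I : ℝ := ∫ x, ‖av M (fun n => g (T^[b * n] x))‖ ^ 2 ∂μ with hI
  have hgn : ∀ n, Measurable (fun x => g (T^[n] x)) := fun n => hg.comp (hT.measurable.iterate n)
  have hle : ∀ᶠ N : ℕ in atTop, ∫⁻ x, ‖(N : ℂ)⁻¹ * ∑ n ∈ range N, g (T^[b * n] x)‖ₑ ^ 2 ∂μ ≤
      ENNReal.ofReal (I + 4 * M / N) := by
    filter_upwards [eventually_gt_atTop 0] with N hN
    have hNR : (0 : ℝ) < N := by exact_mod_cast hN
    have h1 : ∫⁻ x, ‖(N : ℂ)⁻¹ * ∑ n ∈ range N, g (T^[b * n] x)‖ₑ ^ 2 ∂μ =
        ENNReal.ofReal (∫ x, ‖av N (fun n => g (T^[b * n] x))‖ ^ 2 ∂μ) :=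
      lint_eq (g := fun x => av N (fun n => g (T^[b * n] x))) (av_meas (fun n => hgn _) N) (D := 1)
        fun x => av_norm_le zero_le_one fun n => hg1 _
    rw [h1]
    apply ENNReal.ofReal_le_ofReal
    have hsh : ∀ n, ∫ x, ‖av M (fun h => g (T^[b * (n + h)] x))‖ ^ 2 ∂μ = I := by
      intro n
      have hmp := hT.iterate (b * n)
      have hm : AEStronglyMeasurable (fun x => ‖av M (fun h => g (T^[b * h] x))‖ ^ 2) (Measure.map (T^[b * n]) μ) :=
        ((av_meas (fun n => hgn _) M).norm.pow_const 2).aestronglyMeasurable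
      have h3 := integral_map (μ := μ) hmp.measurable.aemeasurable hm
      rw [hmp.map_eq] at h3
      rw [hI, h3]
      refine integral_congr_ae (Eventually.of_forall fun x => ?_)
      simp only
      congr 3
      funext h
      rw [← Function.iterate_add_apply]
      congr 2
      ring
    have hi2 : ∀ n, Integrable (fun x => ‖av M (fun h => g (T^[b * (n + h)] x))‖ ^ 2) μ := by
      intro n
      refine Integrable.of_bound ((av_meas (fun n => hgn _) M).norm.pow_const 2).aestronglyMeasurable 1
        (Eventually.of_forall fun x => ?_)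
      rw [norm_pow, norm_norm]
      exact pow_le_one₀ (norm_nonneg _) (av_norm_le zero_le_one fun n => hg1 _)
    calc ∫ x, ‖av N (fun n => g (T^[b * n] x))‖ ^ 2 ∂μ
        ≤ ∫ x, ((N : ℝ)⁻¹ * ∑ n ∈ range N, ‖av M (fun h => g (T^[b * (n + h)] x))‖ ^ 2 + 4 * (1 : ℝ) ^ 2 * M / N) ∂μ := by
          refine integral_mono_of_nonneg (Eventually.of_forall fun x => by positivity) ?_
            (Eventually.of_forall fun x => vdc_scalar (u := fun n => g (T^[b * n] x)) (fun n => hg1 _) N M hN hM)
          exact ((integrable_finsetSum _ fun n _ => hi2 n).const_mul _).add (integrable_const _)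
      _ = I + 4 * M / N := by
          rw [integral_add ((integrable_finsetSum _ fun n _ => hi2 n).const_mul _) (integrable_const _),
            integral_const, integral_const_mul, integral_finsetSum _ fun n _ => hi2 n]
          simp only [hsh, Finset.sum_const, Finset.card_range, nsmul_eq_mul, probReal_univ, smul_eq_mul]
          field_simp
  unfold box
  refine (limsup_le_limsup hle).trans ?_
  have h2 : Tendsto (fun N : ℕ => ENNReal.ofReal (I + 4 * M / N)) atTop (𝓝 (ENNReal.ofReal I)) := by
    refine (ENNReal.continuous_ofReal.tendsto _).comp ?_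
    have := (tendsto_const_div_atTop_nhds_zero_nat (4 * (M : ℝ))).const_add I
    simpa using this
  exact le_of_eq h2.limsup_eq

/-- the second level -/
lemma box_one_le (hT : MeasurePreserving T μ μ) (b : ℕ) (hb : 0 < b) (t : ℝ) (ht : 0 < t) {f : X → ℂ}
    (hf : Measurable f) (hf1 : ∀ x, ‖f x‖ ≤ 1) :
    box μ T b 1 f ≤ ENNReal.ofReal (b / t) * box μ T 1 1 f + ENNReal.ofReal t := by
  have hbR : (0 : ℝ) < b := by exact_mod_cast hb
  set g : ℕ → X → ℂ := fun h x => f (T^[h] x) * conj (f x) with hg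
  have hfc : Measurable (fun x => conj (f x)) := Complex.continuous_conj.measurable.comp hf
  have hgm : ∀ h, Measurable (g h) := fun h => (hf.comp (hT.measurable.iterate h)).mul hfc
  have hg1 : ∀ h x, ‖g h x‖ ≤ 1 := by
    intro h x
    simp only [hg]
    rw [norm_mul, RCLike.norm_conj]
    exact mul_le_one₀ (hf1 _) (norm_nonneg _) (hf1 _)
  set β : ℕ → ℝ := fun d => (box μ T 1 0 (g d)).toReal with hβ
  have hβle : ∀ d, box μ T 1 0 (g d) ≤ 1 := fun d => box_le_one (hg1 d) 1 0
  have hβof : ∀ d, ENNReal.ofReal (β d) = box μ T 1 0 (g d) := fun d =>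
    ENNReal.ofReal_toReal (ne_top_of_le_ne_top ENNReal.one_ne_top (hβle d))
  have hβ0 : ∀ d, 0 ≤ β d := fun d => ENNReal.toReal_nonneg
  set B1 : ℝ := (box μ T 1 1 f).toReal with hB1
  have hB1of : ENNReal.ofReal B1 = box μ T 1 1 f :=
    ENNReal.ofReal_toReal (ne_top_of_le_ne_top ENNReal.one_ne_top (box_le_one hf1 1 1))
  have hB10 : 0 ≤ B1 := ENNReal.toReal_nonneg
  -- it suffices to prove the inequality up to an error
  have key : ∀ ε : ℝ, 0 < ε → box μ T b 1 f ≤ ENNReal.ofReal (b / t * (B1 + ε) + b / t * ε + t / 2) := by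
    intro ε hε
    -- choice of M
    have hlim1 : limsup (fun H : ℕ => (H : ℝ≥0∞)⁻¹ * ∑ h ∈ range H, box μ T 1 0 (g h)) atTop <
        ENNReal.ofReal (B1 + ε) := by
      change box μ T 1 1 f < _
      rw [← hB1of]
      exact (ENNReal.ofReal_lt_ofReal_iff (by positivity)).2 (by linarith)
    obtain ⟨M0, hM0⟩ := eventually_atTop.1 (eventually_lt_of_limsup_lt hlim1)
    set M : ℕ := M0 + 1 with hM
    have hMpos : 0 < M := by omega
    have hMR : (0 : ℝ) < M := by exact_mod_cast hMpos
    have hbM : M0 ≤ b * M := by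
      calc M0 ≤ M := by omega
        _ ≤ b * M := Nat.le_mul_of_pos_left _ hb
    have hsumβ : ((b * M : ℕ) : ℝ)⁻¹ * ∑ n ∈ range (b * M), β n ≤ B1 + ε := by
      have h1 := (hM0 (b * M) hbM).le
      simp_rw [← hβof] at h1
      have hpos : (0 : ℝ) < ((b * M : ℕ) : ℝ) := by positivity
      rw [← ENNReal.ofReal_sum_of_nonneg fun i _ => hβ0 i, ← ENNReal.ofReal_natCast,
        ← ENNReal.ofReal_inv_of_pos hpos, ← ENNReal.ofReal_mul (by positivity),
        ENNReal.ofReal_le_ofReal_iff (by positivity)] at h1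
      exact h1
    have hsub := sub_sum β hβ0 b hb M
    -- the averages R
    set R : ℕ → ℕ → ℝ := fun H d => ∫ x, ‖av H (fun h => g d (T^[1 * h] x))‖ ^ 2 ∂μ with hR
    have hRev : ∀ᶠ H : ℕ in atTop, ∀ d ∈ range M, R H (b * d) ≤ β (b * d) + ε := by
      rw [Filter.eventually_all_finset]
      intro d _
      have hlt : box μ T 1 0 (g (b * d)) < ENNReal.ofReal (β (b * d) + ε) := by
        rw [← hβof]
        exact (ENNReal.ofReal_lt_ofReal_iff (by linarith [hβ0 (b * d)])).2 (by linarith)
      filter_upwards [eventually_lt_of_limsup_lt hlt] with H hH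
      have e : ∫⁻ x, ‖(H : ℂ)⁻¹ * ∑ n ∈ range H, g (b * d) (T^[1 * n] x)‖ₑ ^ 2 ∂μ = ENNReal.ofReal (R H (b * d)) :=
        lint_eq (g := fun x => av H (fun h => g (b * d) (T^[1 * h] x)))
          (av_meas (fun n => (hgm _).comp (hT.measurable.iterate _)) H) (D := 1)
          fun x => av_norm_le zero_le_one fun n => hg1 _ _
      rw [e] at hH
      exact ((ENNReal.ofReal_lt_ofReal_iff (by linarith [hβ0 (b * d)])).1 hH).le
    unfold box
    refine limsup_le_of_le (by isBoundedDefault) ?_
    filter_upwards [hRev, eventually_gt_atTop 0] with H hH hH0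
    have hHR : (0 : ℝ) < H := by exact_mod_cast hH0
    change (H : ℝ≥0∞)⁻¹ * ∑ h ∈ range H, box μ T b 0 (g h) ≤ _
    -- bound by the averages of length M
    set BM : ℕ → ℝ := fun h => ∫ x, ‖av M (fun n => g h (T^[b * n] x))‖ ^ 2 ∂μ with hBM
    have hBM0 : ∀ h, 0 ≤ BM h := fun h => integral_nonneg fun x => by positivity
    have h1 : (H : ℝ≥0∞)⁻¹ * ∑ h ∈ range H, box μ T b 0 (g h) ≤
        ENNReal.ofReal ((H : ℝ)⁻¹ * ∑ h ∈ range H, BM h) := by
      rw [ENNReal.ofReal_mul (by positivity), ENNReal.ofReal_inv_of_pos hHR, ENNReal.ofReal_natCast,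
        ENNReal.ofReal_sum_of_nonneg fun i _ => hBM0 i]
      gcongr with h _
      exact box_zero_le hT (hgm h) (hg1 h) b M hMpos
    refine h1.trans (ENNReal.ofReal_le_ofReal ?_)
    -- correlations
    have hi : ∀ h p p', Integrable (fun x => g h (T^[p] x) * conj (g h (T^[p'] x))) μ := by
      intro h p p'
      refine Integrable.of_bound (((hgm h).comp (hT.measurable.iterate p)).mul (Complex.continuous_conj.measurable.comp
        ((hgm h).comp (hT.measurable.iterate p')))).aestronglyMeasurable 1 (Eventually.of_forall fun x => ?_)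
      rw [norm_mul, RCLike.norm_conj]
      exact mul_le_one₀ (hg1 _ _) (norm_nonneg _) (hg1 _ _)
    set κ : ℕ → ℕ → ℂ := fun h d => ∫ x, g h (T^[d] x) * conj (g h x) ∂μ with hκ
    have hcorr : ∀ h p p', (∫ x, g h (T^[p] x) * conj (g h (T^[p'] x)) ∂μ).re = (κ h (Nat.dist p p')).re := by
      intro h p p'
      have gen : ∀ p' d : ℕ, ∫ x, g h (T^[p' + d] x) * conj (g h (T^[p'] x)) ∂μ = κ h d := by
        intro p' d
        have hmp := hT.iterate p'
        have hm : AEStronglyMeasurable (fun x => g h (T^[d] x) * conj (g h x)) (Measure.map (T^[p']) μ) :=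
          (((hgm h).comp (hT.measurable.iterate d)).mul (Complex.continuous_conj.measurable.comp
            (hgm h))).aestronglyMeasurable
        have h3 := integral_map (μ := μ) hmp.measurable.aemeasurable hm
        rw [hmp.map_eq] at h3
        simp only [hκ]
        rw [h3]
        refine integral_congr_ae (Eventually.of_forall fun x => ?_)
        simp only
        rw [← Function.iterate_add_apply, add_comm d p']
      rcases le_total p' p with hle | hle
      · have e : p = p' + Nat.dist p p' := by unfold Nat.dist; omega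
        have e2 := gen p' (Nat.dist p p')
        rw [← e] at e2
        rw [e2]
      · have e : p' = p + Nat.dist p p' := by unfold Nat.dist; omega
        have e2 := gen p (Nat.dist p p')
        rw [← e] at e2
        have e3 : ∫ x, g h (T^[p] x) * conj (g h (T^[p'] x)) ∂μ = conj (∫ x, g h (T^[p'] x) * conj (g h (T^[p] x)) ∂μ) := by
          rw [← integral_conj]
          refine integral_congr_ae (Eventually.of_forall fun x => ?_)
          simp only [map_mul, Complex.conj_conj]
          ring
        rw [e3, Complex.conj_re, e2]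
    have hBMexp : ∀ h, BM h = ((M : ℝ)⁻¹) ^ 2 * ∑ p ∈ range M, ∑ p' ∈ range M, (κ h (b * Nat.dist p p')).re := by
      intro h
      simp only [hBM]
      simp_rw [av_expand]
      have hre : ∀ p p', Integrable (fun x => (g h (T^[p] x) * conj (g h (T^[p'] x))).re) μ := fun p p' => (hi h p p').re
      rw [integral_const_mul, integral_finsetSum _ fun p _ => integrable_finsetSum _ fun p' _ => hre _ _]
      congr 1
      refine Finset.sum_congr rfl fun p _ => ?_
      rw [integral_finsetSum _ fun p' _ => hre _ _]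
      refine Finset.sum_congr rfl fun p' _ => ?_
      have e1 : ∫ x, (g h (T^[b * p] x) * conj (g h (T^[b * p'] x))).re ∂μ =
          (∫ x, g h (T^[b * p] x) * conj (g h (T^[b * p'] x)) ∂μ).re := integral_re (hi _ _ _)
      have e2 : Nat.dist (b * p) (b * p') = b * Nat.dist p p' := Nat.dist_mul_left b p p'
      rw [e1, hcorr, e2]
    -- averages over h
    have havg : ∀ d, (H : ℝ)⁻¹ * ∑ h ∈ range H, (κ h d).re ≤ (R H d / t + t) / 2 := by
      intro d
      have e1 : ∀ h, κ h d = ∫ x, conj (g d x) * g d (T^[1 * h] x) ∂μ := by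
        intro h
        simp only [hκ, hg]
        refine integral_congr_ae (Eventually.of_forall fun x => ?_)
        simp only [map_mul, Complex.conj_conj, one_mul]
        have hcm : T^[h] (T^[d] x) = T^[d] (T^[h] x) := by
          rw [← Function.iterate_add_apply, ← Function.iterate_add_apply, add_comm]
        rw [hcm]
        ring
      have e2 : (H : ℝ)⁻¹ * ∑ h ∈ range H, (κ h d).re = (∫ x, conj (g d x) * av H (fun h => g d (T^[1 * h] x)) ∂μ).re := by
        have hii : ∀ h, Integrable (fun x => conj (g d x) * g d (T^[1 * h] x)) μ := by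
          intro h
          refine Integrable.of_bound ((Complex.continuous_conj.measurable.comp (hgm d)).mul
            ((hgm d).comp (hT.measurable.iterate _))).aestronglyMeasurable 1 (Eventually.of_forall fun x => ?_)
          rw [norm_mul, RCLike.norm_conj]
          exact mul_le_one₀ (hg1 _ _) (norm_nonneg _) (hg1 _ _)
        have e3 : ∫ x, conj (g d x) * av H (fun h => g d (T^[1 * h] x)) ∂μ = (H : ℂ)⁻¹ * ∑ h ∈ range H, κ h d := by
          simp_rw [e1]
          rw [← integral_finsetSum _ fun h _ => hii h, ← integral_const_mul]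
          refine integral_congr_ae (Eventually.of_forall fun x => ?_)
          simp only [av]
          rw [← Finset.mul_sum]
          ring
        rw [e3, show ((H : ℂ)⁻¹) = (((H : ℝ)⁻¹ : ℝ) : ℂ) by push_cast; rfl, Complex.re_ofReal_mul, Complex.re_sum]
      rw [e2]
      have hsq := norm_int_sq_le μ (F := fun x => conj (g d x)) (g := fun x => av H (fun h => g d (T^[1 * h] x)))
        (fun x => by rw [RCLike.norm_conj]; exact hg1 d x)
        (av_meas (fun n => (hgm _).comp (hT.measurable.iterate _)) H).aestronglyMeasurable (D := 1)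
        (fun x => av_norm_le zero_le_one fun n => hg1 _ _)
      set z : ℂ := ∫ x, conj (g d x) * av H (fun h => g d (T^[1 * h] x)) ∂μ with hz
      have h3 : z.re ≤ ‖z‖ := Complex.re_le_norm z
      have h4 : ‖z‖ ^ 2 ≤ R H d := hsq
      have h5 : 2 * ‖z‖ ≤ ‖z‖ ^ 2 / t + t := by
        have := sq_nonneg (‖z‖ - t)
        rw [div_add' _ _ _ ht.ne', le_div_iff₀ ht]
        nlinarith
      have h6 : ‖z‖ ^ 2 / t ≤ R H d / t := by gcongr
      linarith
    -- the double sum
    have hRn : ∀ d, 0 ≤ R H d := fun d => integral_nonneg fun x => by positivity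
    calc (H : ℝ)⁻¹ * ∑ h ∈ range H, BM h
        = ((M : ℝ)⁻¹) ^ 2 * ∑ p ∈ range M, ∑ p' ∈ range M, ((H : ℝ)⁻¹ * ∑ h ∈ range H, (κ h (b * Nat.dist p p')).re) := by
          simp_rw [hBMexp]
          rw [← Finset.mul_sum, mul_left_comm]
          congr 1
          rw [Finset.sum_comm, Finset.mul_sum]
          refine Finset.sum_congr rfl fun p _ => ?_
          rw [Finset.sum_comm, Finset.mul_sum]
      _ ≤ ((M : ℝ)⁻¹) ^ 2 * ∑ p ∈ range M, ∑ p' ∈ range M, ((R H (b * Nat.dist p p') / t + t) / 2) := by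
          gcongr with p _ p' _
          exact havg _
      _ = ((M : ℝ)⁻¹) ^ 2 * (∑ p ∈ range M, ∑ p' ∈ range M, (R H (b * Nat.dist p p') / (2 * t)) + M * (M * (t / 2))) := by
          have he : ∀ d, (R H d / t + t) / 2 = R H d / (2 * t) + t / 2 := by
            intro d
            field_simp
          simp_rw [he]
          simp only [Finset.sum_add_distrib, Finset.sum_const, Finset.card_range, nsmul_eq_mul]
      _ ≤ ((M : ℝ)⁻¹) ^ 2 * (2 * M * ∑ d ∈ range M, (R H (b * d) / (2 * t)) + M * (M * (t / 2))) := by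
          gcongr
          exact sum_dist_le M (fun d => R H (b * d) / (2 * t)) fun d => div_nonneg (hRn _) (by positivity)
      _ ≤ ((M : ℝ)⁻¹) ^ 2 * (2 * M * ∑ d ∈ range M, ((β (b * d) + ε) / (2 * t)) + M * (M * (t / 2))) := by
          gcongr with d hd
          exact hH d hd
      _ = ((M : ℝ)⁻¹ * ∑ d ∈ range M, β (b * d)) / t + ε / t + t / 2 := by
          rw [← Finset.sum_div, Finset.sum_add_distrib, Finset.sum_const, Finset.card_range, nsmul_eq_mul]
          field_simp
      _ ≤ (b * (B1 + ε)) / t + b * ε / t + t / 2 := by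
          have h7 : (M : ℝ)⁻¹ * ∑ d ∈ range M, β (b * d) ≤ b * (B1 + ε) :=
            hsub.trans (mul_le_mul_of_nonneg_left hsumβ hbR.le)
          have hb1 : (1 : ℝ) ≤ b := by exact_mod_cast hb
          have h8 : ε / t ≤ b * ε / t := by
            gcongr
            nlinarith
          gcongr
      _ = b / t * (B1 + ε) + b / t * ε + t / 2 := by ring
  -- conclusion
  have h2 : box μ T b 1 f ≤ ENNReal.ofReal (b / t * B1 + t) := by
    set ε : ℝ := t / (4 * (b / t)) with hε
    have hbt : 0 < b / t := by positivity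
    have hε0 : 0 < ε := by positivity
    refine (key ε hε0).trans (ENNReal.ofReal_le_ofReal ?_)
    have e : b / t * ε = t / 4 := by rw [hε]; field_simp
    nlinarith
  refine h2.trans (le_of_eq ?_)
  rw [ENNReal.ofReal_add (by positivity) ht.le, ENNReal.ofReal_mul (by positivity), hB1of]

/-- all levels -/
lemma box_succ_le (hT : MeasurePreserving T μ μ) (b : ℕ) (hb : 0 < b) (t : ℝ) (ht : 0 < t) (k : ℕ) {f : X → ℂ}
    (hf : Measurable f) (hf1 : ∀ x, ‖f x‖ ≤ 1) :
    box μ T b (k + 1) f ≤ ENNReal.ofReal (b / t) * box μ T 1 (k + 1) f + ENNReal.ofReal t := by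
  induction k generalizing f with
  | zero => exact box_one_le hT b hb t ht hf hf1
  | succ k ih =>
    have hle : ∀ H : ℕ, (H : ℝ≥0∞)⁻¹ * ∑ h ∈ range H, box μ T b (k + 1) (fun x => f (T^[h] x) * conj (f x)) ≤
        ENNReal.ofReal (b / t) * ((H : ℝ≥0∞)⁻¹ * ∑ h ∈ range H, box μ T 1 (k + 1) (fun x => f (T^[h] x) * conj (f x))) +
          ENNReal.ofReal t := by
      intro H
      rcases Nat.eq_zero_or_pos H with rfl | hH
      · simp
      · have hHne : (H : ℝ≥0∞) ≠ 0 := by exact_mod_cast hH.ne'
        calc (H : ℝ≥0∞)⁻¹ * ∑ h ∈ range H, box μ T b (k + 1) (fun x => f (T^[h] x) * conj (f x))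
            ≤ (H : ℝ≥0∞)⁻¹ * ∑ h ∈ range H, (ENNReal.ofReal (b / t) *
                box μ T 1 (k + 1) (fun x => f (T^[h] x) * conj (f x)) + ENNReal.ofReal t) := by
              gcongr with h _
              refine ih ((hf.comp (hT.measurable.iterate h)).mul (Complex.continuous_conj.measurable.comp hf))
                fun x => ?_
              rw [norm_mul, RCLike.norm_conj]
              exact mul_le_one₀ (hf1 _) (norm_nonneg _) (hf1 _)
          _ = _ := by
              rw [Finset.sum_add_distrib, ← Finset.mul_sum, Finset.sum_const, Finset.card_range, nsmul_eq_mul, mul_add,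
                mul_left_comm, ← mul_assoc (H : ℝ≥0∞)⁻¹ (H : ℝ≥0∞), ENNReal.inv_mul_cancel hHne (ENNReal.natCast_ne_top _),
                one_mul]
    calc box μ T b (k + 1 + 1) f ≤ limsup (fun H : ℕ => ENNReal.ofReal (b / t) * ((H : ℝ≥0∞)⁻¹ *
          ∑ h ∈ range H, box μ T 1 (k + 1) (fun x => f (T^[h] x) * conj (f x))) + ENNReal.ofReal t) atTop :=
          limsup_le_limsup (Eventually.of_forall hle)
      _ = limsup (fun H : ℕ => ENNReal.ofReal (b / t) * ((H : ℝ≥0∞)⁻¹ *
          ∑ h ∈ range H, box μ T 1 (k + 1) (fun x => f (T^[h] x) * conj (f x)))) atTop + ENNReal.ofReal t :=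
          limsup_add_const _ _ _ (by isBoundedDefault) (by isBoundedDefault)
      _ = _ := by
          rw [ENNReal.limsup_const_mul_of_ne_top ENNReal.ofReal_ne_top]
          rfl

/-- functions with seminorm zero -/
theorem box_null (hT : MeasurePreserving T μ μ) (b : ℕ) (hb : 0 < b) (k : ℕ) {f : X → ℂ} (hf : Measurable f)
    (hfb : ∃ C : ℝ, ∀ x, ‖f x‖ ≤ C) (h0 : box μ T 1 (k + 1) f = 0) : box μ T b (k + 1) f = 0 := by
  obtain ⟨C, hC⟩ := hfb
  set D : ℝ := max C 1 with hD
  have hD0 : 0 < D := lt_of_lt_of_le one_pos (le_max_right _ _)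
  set g : X → ℂ := fun x => ((D : ℂ))⁻¹ * f x with hg
  have hgm : Measurable g := hf.const_mul _
  have hg1 : ∀ x, ‖g x‖ ≤ 1 := by
    intro x
    simp only [hg]
    rw [norm_mul, norm_inv, Complex.norm_real, Real.norm_eq_abs, abs_of_pos hD0, inv_mul_le_iff₀ hD0, mul_one]
    exact (hC x).trans (le_max_left _ _)
  have hg0 : box μ T 1 (k + 1) g = 0 := box_smul_zero _ _ _ h0
  have hgb : box μ T b (k + 1) g = 0 := by
    refine le_antisymm ?_ zero_le
    apply ENNReal.le_of_forall_pos_le_add
    intro t ht _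
    have h1 := box_succ_le hT b hb (t : ℝ) (by exact_mod_cast ht) k hgm hg1
    rw [hg0, mul_zero, ENNReal.ofReal_coe_nnreal] at h1
    exact h1
  have h2 := box_smul_zero (μ := μ) (T := T) b (k + 1) (D : ℂ) hgb
  have e : (fun x => (D : ℂ) * g x) = f := by
    funext x
    simp only [hg]
    rw [← mul_assoc, mul_inv_cancel₀ (by exact_mod_cast hD0.ne'), one_mul]
  rw [e] at h2
  exact h2

end Pool.Agent.H80GE
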