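import Pool.Agent.H80GE.Core

/-!
# Convolution in the fibres
-/

set_option autoImplicit false

open MeasureTheory Filter Topology Finset
open scoped ComplexConjugate ENNReal

namespace Pool.Agent.H80GE

section Smooth

variable {Y K : Type*} [MeasurableSpace Y] [Group K] [MeasurableSpace K] [MeasurableMul₂ K]
  {ρ : Measure K} [IsProbabilityMeasure ρ] {S : Y → Y} {σ : Y → K} {m : ℕ} {a : Fin m → ℕ}
  {g : Fin m → Y × K → ℂ}

/-- convolution in the fibres -/
noncomputable def cv (ρ : Measure K) (q : K → ℝ) (f : Y × K → ℂ) (z : Y × K) : ℂ :=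
  ∫ l, f (z.1, z.2 * l) * (q l : ℂ) ∂ρ

lemma cv_meas {q : K → ℝ} (hq : Measurable q) {f : Y × K → ℂ} (hf : Measurable f) : Measurable (cv ρ q f) := by
  unfold cv
  have h : StronglyMeasurable (fun p : (Y × K) × K => f (p.1.1, p.1.2 * p.2) * (q p.2 : ℂ)) := by
    refine Measurable.stronglyMeasurable ?_
    refine (hf.comp ?_).mul (Complex.measurable_ofReal.comp (hq.comp measurable_snd))
    exact (measurable_fst.comp measurable_fst).prodMk ((measurable_snd.comp measurable_fst).mul measurable_snd)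
  exact (h.integral_prod_right' (ν := ρ)).measurable

omit [MeasurableSpace Y] [MeasurableMul₂ K] in
lemma cv_bound {q : K → ℝ} {Q D : ℝ} (hQ : ∀ l, |q l| ≤ Q) {f : Y × K → ℂ} (hf : ∀ z, ‖f z‖ ≤ D) (z : Y × K) :
    ‖cv ρ q f z‖ ≤ D * Q := by
  unfold cv
  refine (norm_integral_le_of_norm_le_const (C := D * Q) (Eventually.of_forall fun κ => ?_)).trans (by simp)
  rw [norm_mul, Complex.norm_real, Real.norm_eq_abs]
  exact mul_le_mul (hf _) (hQ _) (abs_nonneg _) ((norm_nonneg _).trans (hf z))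

omit [MeasurableSpace Y] [MeasurableMul₂ K] [IsProbabilityMeasure ρ] in
lemma cv_iter (q : K → ℝ) (f : Y × K → ℂ) (t : ℕ) (y : Y) (κ : K) :
    cv ρ q f ((sk S σ)^[t] (y, κ)) = ∫ l, f ((sk S σ)^[t] (y, κ * l)) * (q l : ℂ) ∂ρ := by
  unfold cv
  simp only [sk_iter, mul_assoc]

/-- The averages of the convolutions are controlled at every point of the fibre. -/
lemma smooth_le [ρ.IsMulLeftInvariant] (hS : Measurable S) (hσ : Measurable σ) (hg : ∀ j, Measurable (g j)) {D : ℝ}
    (hD : ∀ j z, ‖g j z‖ ≤ D) (q : Fin m → K → ℝ) (hq : ∀ j, Measurable (q j)) {Q : ℝ} (hQ0 : 0 < Q)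
    (hQ : ∀ j l, |q j l| ≤ Q) (N : ℕ) (y : Y) (κ : K) :
    ‖av N (fun n => ∏ j, cv ρ (q j) (g j) ((sk S σ)^[a j * (n + 1)] (y, κ)))‖ ^ 2 ≤
      (Q ^ m) ^ 2 * BB ρ S σ a g N y := by
  set P : Measure (Fin m → K) := Measure.pi fun _ => ρ with hP
  have hum : ∀ n, Measurable (fun l : Fin m → K => uu S σ a g n y ((fun _ => κ) * l)) := fun n =>
    (uu_meas_right hS hσ hg n y).comp (measurable_const_mul _)
  have hqm : Measurable (fun l : Fin m → K => ∏ j, ((q j (l j) : ℝ) : ℂ)) :=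
    Finset.measurable_prod _ fun j _ => Complex.measurable_ofReal.comp ((hq j).comp (measurable_pi_apply j))
  have hqb : ∀ l : Fin m → K, ‖∏ j, ((q j (l j) : ℝ) : ℂ)‖ ≤ Q ^ m := by
    intro l
    rw [norm_prod]
    calc ∏ j, ‖((q j (l j) : ℝ) : ℂ)‖ ≤ ∏ _j : Fin m, Q :=
          Finset.prod_le_prod (fun _ _ => norm_nonneg _) fun j _ => by
            rw [Complex.norm_real, Real.norm_eq_abs]; exact hQ j _
      _ = Q ^ m := by simp
  have hQm : 0 < Q ^ m := by positivity
  have e1 : ∀ n, ∏ j, cv ρ (q j) (g j) ((sk S σ)^[a j * (n + 1)] (y, κ)) =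
      ∫ l, (∏ j, ((q j (l j) : ℝ) : ℂ)) * uu S σ a g n y ((fun _ => κ) * l) ∂P := by
    intro n
    simp_rw [cv_iter]
    rw [hP, ← integral_fintype_prod_eq_prod (μ := fun _ : Fin m => ρ) (fun (j : Fin m) (l : K) =>
      g j ((sk S σ)^[a j * (n + 1)] (y, κ * l)) * ((q j l : ℝ) : ℂ))]
    refine integral_congr_ae (Eventually.of_forall fun l => ?_)
    simp only [uu, Pi.mul_apply]
    rw [Finset.prod_mul_distrib, mul_comm]
  have hub : ∀ n l, ‖uu S σ a g n y ((fun _ => κ) * l)‖ ≤ D ^ m := fun n l => uu_bound hD n y _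
  have e2 : av N (fun n => ∏ j, cv ρ (q j) (g j) ((sk S σ)^[a j * (n + 1)] (y, κ))) =
      ∫ l, ((∏ j, ((q j (l j) : ℝ) : ℂ)) * ((Q ^ m : ℝ) : ℂ)⁻¹) *
        (((Q ^ m : ℝ) : ℂ) * av N (fun n => uu S σ a g n y ((fun _ => κ) * l))) ∂P := by
    simp_rw [e1]
    unfold av
    rw [← integral_finsetSum, ← integral_const_mul]
    · refine integral_congr_ae (Eventually.of_forall fun l => ?_)
      simp only
      rw [← Finset.mul_sum]
      have : ((Q ^ m : ℝ) : ℂ) ≠ 0 := by exact_mod_cast hQm.ne'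
      field_simp
    · intro n _
      refine Integrable.of_bound (hqm.mul (hum n)).aestronglyMeasurable (Q ^ m * D ^ m)
        (Eventually.of_forall fun l => ?_)
      rw [norm_mul]
      exact mul_le_mul (hqb l) (hub n l) (norm_nonneg _) hQm.le
  rw [e2]
  have hDm : 0 ≤ D ^ m := (norm_nonneg _).trans (hub 0 1)
  have havm : Measurable (fun l : Fin m → K => ((Q ^ m : ℝ) : ℂ) *
      av N (fun n => uu S σ a g n y ((fun _ => κ) * l))) :=
    ((Finset.measurable_sum _ fun n _ => hum n).const_mul _).const_mul _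
  refine (norm_int_sq_le P (D := Q ^ m * D ^ m) ?_ havm.aestronglyMeasurable ?_).trans (le_of_eq ?_)
  · intro l
    rw [norm_mul, norm_inv, Complex.norm_real, Real.norm_eq_abs, abs_of_pos hQm]
    rw [← div_eq_mul_inv, div_le_one hQm]
    exact hqb l
  · intro l
    rw [norm_mul, Complex.norm_real, Real.norm_eq_abs, abs_of_pos hQm]
    exact mul_le_mul_of_nonneg_left (av_norm_le hDm fun n => hub n l) hQm.le
  · have e3 : ∀ l : Fin m → K, ‖((Q ^ m : ℝ) : ℂ) * av N (fun n => uu S σ a g n y ((fun _ => κ) * l))‖ ^ 2 =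
        (Q ^ m) ^ 2 * ‖av N (fun n => uu S σ a g n y ((fun _ => κ) * l))‖ ^ 2 := by
      intro l
      rw [norm_mul, Complex.norm_real, Real.norm_eq_abs, abs_of_pos hQm, mul_pow]
    simp_rw [e3]
    rw [integral_const_mul]
    congr 1
    unfold BB
    exact integral_mul_left_eq_self (μ := P) (fun l => ‖av N (fun n => uu S σ a g n y l)‖ ^ 2) (fun _ => κ)

end Smooth

end Pool.Agent.H80GE
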