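import Mathlib

/-!
# The inequality of van der Corput for averages of bounded functions
-/

set_option autoImplicit false

open MeasureTheory Filter Topology Finset
open scoped ComplexConjugate

namespace Pool.Agent.H80GE

/-- the average of the first `N` terms -/
noncomputable def av (N : ℕ) (u : ℕ → ℂ) : ℂ := (N : ℂ)⁻¹ * ∑ n ∈ range N, u n

lemma av_norm_le {N : ℕ} {u : ℕ → ℂ} {D : ℝ} (hD : 0 ≤ D) (h : ∀ n, ‖u n‖ ≤ D) : ‖av N u‖ ≤ D := by
  unfold av
  rcases Nat.eq_zero_or_pos N with rfl | hN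
  · simpa using hD
  · have hN' : (0 : ℝ) < N := by exact_mod_cast hN
    rw [norm_mul, norm_inv, Complex.norm_natCast]
    calc (N : ℝ)⁻¹ * ‖∑ n ∈ range N, u n‖ ≤ (N : ℝ)⁻¹ * ∑ n ∈ range N, D := by
          gcongr
          exact norm_sum_le_of_le _ fun n _ => h n
      _ = D := by
          rw [Finset.sum_const, Finset.card_range, nsmul_eq_mul]
          field_simp

lemma av_sq_le (N : ℕ) (u : ℕ → ℂ) : ‖av N u‖ ^ 2 ≤ (N : ℝ)⁻¹ * ∑ n ∈ range N, ‖u n‖ ^ 2 := by
  unfold av
  rcases Nat.eq_zero_or_pos N with rfl | hN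
  · simp
  · have hN' : (0 : ℝ) < N := by exact_mod_cast hN
    rw [norm_mul, norm_inv, Complex.norm_natCast, mul_pow]
    have h1 : ‖∑ n ∈ range N, u n‖ ^ 2 ≤ (∑ n ∈ range N, ‖u n‖) ^ 2 := by
      gcongr
      exact norm_sum_le _ _
    have h2 : (∑ n ∈ range N, ‖u n‖) ^ 2 ≤ (N : ℝ) * ∑ n ∈ range N, ‖u n‖ ^ 2 := by
      have := sq_sum_le_card_mul_sum_sq (s := range N) (f := fun n => ‖u n‖)
      simpa using this
    calc (N : ℝ)⁻¹ ^ 2 * ‖∑ n ∈ range N, u n‖ ^ 2 ≤ (N : ℝ)⁻¹ ^ 2 * ((N : ℝ) * ∑ n ∈ range N, ‖u n‖ ^ 2) := by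
          gcongr
          exact h1.trans h2
      _ = (N : ℝ)⁻¹ * ∑ n ∈ range N, ‖u n‖ ^ 2 := by
          field_simp

/-- a shift changes the sum by little -/
lemma sum_shift_le {u : ℕ → ℂ} {D : ℝ} (hD : ∀ n, ‖u n‖ ≤ D) (N h : ℕ) :
    ‖∑ n ∈ range N, u (n + h) - ∑ n ∈ range N, u n‖ ≤ 2 * D * h := by
  have hD0 : 0 ≤ D := (norm_nonneg _).trans (hD 0)
  induction h with
  | zero => simp
  | succ h ih =>
    have e1 : ∑ n ∈ range N, u (n + (h + 1)) = ∑ n ∈ range N, u (n + h) + u (N + h) - u h := by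
      have h1 := Finset.sum_range_succ (fun n => u (n + h)) N
      have h2 := Finset.sum_range_succ' (fun n => u (n + h)) N
      have e : ∀ n, u (n + 1 + h) = u (n + (h + 1)) := fun n => by congr 1; ring
      simp only [e, zero_add] at h2
      rw [h1] at h2
      rw [h2]
      ring
    rw [e1]
    have e2 : ∑ n ∈ range N, u (n + h) + u (N + h) - u h - ∑ n ∈ range N, u n =
        (∑ n ∈ range N, u (n + h) - ∑ n ∈ range N, u n) + (u (N + h) - u h) := by ring
    rw [e2]
    calc _ ≤ 2 * D * h + (D + D) := (norm_add_le _ _).trans (add_le_add ih ((norm_sub_le _ _).trans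
            (add_le_add (hD _) (hD _))))
      _ = 2 * D * ((h + 1 : ℕ) : ℝ) := by push_cast; ring

lemma av_shift_le {u : ℕ → ℂ} {D : ℝ} (hD : ∀ n, ‖u n‖ ≤ D) (N h : ℕ) :
    ‖av N (fun n => u (n + h)) - av N u‖ ≤ 2 * D * h / N := by
  unfold av
  rw [← mul_sub, norm_mul, norm_inv, Complex.norm_natCast, inv_mul_eq_div]
  gcongr
  exact sum_shift_le hD N h

/-- the pointwise inequality -/
lemma vdc_scalar {u : ℕ → ℂ} {D : ℝ} (hD : ∀ n, ‖u n‖ ≤ D) (N H : ℕ) (hN : 0 < N) (hH : 0 < H) :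
    ‖av N u‖ ^ 2 ≤ (N : ℝ)⁻¹ * ∑ n ∈ range N, ‖av H (fun h => u (n + h))‖ ^ 2 + 4 * D ^ 2 * H / N := by
  have hD0 : 0 ≤ D := (norm_nonneg _).trans (hD 0)
  have hN' : (0 : ℝ) < N := by exact_mod_cast hN
  have hH' : (0 : ℝ) < H := by exact_mod_cast hH
  set w : ℂ := av N (fun n => av H (fun h => u (n + h))) with hw
  have h1 : ‖w‖ ^ 2 ≤ (N : ℝ)⁻¹ * ∑ n ∈ range N, ‖av H (fun h => u (n + h))‖ ^ 2 := av_sq_le _ _
  have h2 : w = av H (fun h => av N (fun n => u (n + h))) := by
    rw [hw]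
    unfold av
    rw [Finset.mul_sum, Finset.mul_sum]
    simp only [Finset.mul_sum]
    rw [Finset.sum_comm]
    refine Finset.sum_congr rfl fun h _ => Finset.sum_congr rfl fun n _ => ?_
    ring
  have h3 : ‖w - av N u‖ ≤ 2 * D * H / N := by
    have e : av N u = av H (fun _ => av N u) := by
      unfold av
      rw [Finset.sum_const, Finset.card_range, nsmul_eq_mul]
      have : (H : ℂ) ≠ 0 := by exact_mod_cast hH.ne'
      field_simp
    rw [h2]
    conv_lhs => rw [e]
    have e2 : av H (fun h => av N (fun n => u (n + h))) - av H (fun _ => av N u) =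
        (H : ℂ)⁻¹ * ∑ h ∈ range H, (av N (fun n => u (n + h)) - av N u) := by
      unfold av
      rw [← mul_sub, ← Finset.sum_sub_distrib]
    rw [e2, norm_mul, norm_inv, Complex.norm_natCast]
    calc (H : ℝ)⁻¹ * ‖∑ h ∈ range H, (av N (fun n => u (n + h)) - av N u)‖
        ≤ (H : ℝ)⁻¹ * ∑ h ∈ range H, 2 * D * H / N := by
          gcongr
          refine norm_sum_le_of_le _ fun h hh => (av_shift_le hD N h).trans ?_
          have : (h : ℝ) ≤ H := by exact_mod_cast (Finset.mem_range.1 hh).le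
          gcongr
      _ = 2 * D * H / N := by
          rw [Finset.sum_const, Finset.card_range, nsmul_eq_mul]
          field_simp
  have h4 : ‖av N u‖ ≤ D := av_norm_le hD0 hD
  have h5 : ‖w‖ ≤ D := av_norm_le hD0 fun n => av_norm_le hD0 fun h => hD _
  have h6 : ‖av N u‖ ≤ ‖w‖ + 2 * D * H / N := by
    have := norm_sub_norm_le (av N u) w
    rw [norm_sub_rev] at this
    linarith
  have h7 : ‖av N u‖ ^ 2 - ‖w‖ ^ 2 ≤ 4 * D ^ 2 * H / N := by
    have e : ‖av N u‖ ^ 2 - ‖w‖ ^ 2 = (‖av N u‖ - ‖w‖) * (‖av N u‖ + ‖w‖) := by ring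
    rw [e]
    have hp : 0 ≤ 2 * D * H / N := by positivity
    have h8 : ‖av N u‖ - ‖w‖ ≤ 2 * D * H / N := by linarith
    calc (‖av N u‖ - ‖w‖) * (‖av N u‖ + ‖w‖) ≤ (2 * D * H / N) * (‖av N u‖ + ‖w‖) := by
          gcongr
      _ ≤ (2 * D * H / N) * (D + D) := by gcongr
      _ = 4 * D ^ 2 * H / N := by ring
  linarith

/-- expansion of the square of an average -/
lemma av_expand (H : ℕ) (v : ℕ → ℂ) :
    ‖av H v‖ ^ 2 = ((H : ℝ)⁻¹) ^ 2 * ∑ h ∈ range H, ∑ h' ∈ range H, (v h * conj (v h')).re := by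
  unfold av
  rw [norm_mul, norm_inv, Complex.norm_natCast, mul_pow]
  congr 1
  have h1 : ((‖∑ n ∈ range H, v n‖ ^ 2 : ℝ) : ℂ) = (∑ n ∈ range H, v n) * conj (∑ n ∈ range H, v n) := by
    rw [Complex.mul_conj, Complex.normSq_eq_norm_sq]
  have h2 : ‖∑ n ∈ range H, v n‖ ^ 2 = ((∑ n ∈ range H, v n) * conj (∑ n ∈ range H, v n)).re := by
    rw [← h1, Complex.ofReal_re]
  rw [h2, map_sum, Finset.sum_mul_sum, Complex.re_sum]
  refine Finset.sum_congr rfl fun h _ => ?_
  rw [Complex.re_sum]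

/-- the inequality of van der Corput for functions on a probability space -/
lemma vdc_int {Ω : Type*} [MeasurableSpace Ω] (P : Measure Ω) [IsProbabilityMeasure P] {u : ℕ → Ω → ℂ}
    (hu : ∀ n, AEStronglyMeasurable (u n) P) {D : ℝ} (hD : ∀ n ω, ‖u n ω‖ ≤ D) (N H : ℕ) (hN : 0 < N) (hH : 0 < H) :
    ∫ ω, ‖av N (fun n => u n ω)‖ ^ 2 ∂P ≤
      ((H : ℝ)⁻¹) ^ 2 * ∑ h ∈ range H, ∑ h' ∈ range H,
        (av N (fun n => ∫ ω, u (n + h) ω * conj (u (n + h') ω) ∂P)).re + 4 * D ^ 2 * H / N := by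
  have hi : ∀ n n', Integrable (fun ω => u n ω * conj (u n' ω)) P := by
    intro n n'
    refine Integrable.of_bound ((hu n).mul (Complex.continuous_conj.comp_aestronglyMeasurable (hu n'))) (D * D)
      (Eventually.of_forall fun ω => ?_)
    rw [norm_mul, RCLike.norm_conj]
    exact mul_le_mul (hD _ _) (hD _ _) (norm_nonneg _) ((norm_nonneg _).trans (hD 0 ω))
  have hre : ∀ n n', Integrable (fun ω => (u n ω * conj (u n' ω)).re) P := fun n n' => (hi n n').re
  have hi2 : ∀ n, Integrable (fun ω => ‖av H (fun h => u (n + h) ω)‖ ^ 2) P := by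
    intro n
    simp_rw [av_expand]
    exact (integrable_finsetSum _ fun h _ => integrable_finsetSum _ fun h' _ => hre _ _).const_mul _
  have h1 : ∫ ω, ‖av N (fun n => u n ω)‖ ^ 2 ∂P ≤
      ∫ ω, ((N : ℝ)⁻¹ * ∑ n ∈ range N, ‖av H (fun h => u (n + h) ω)‖ ^ 2 + 4 * D ^ 2 * H / N) ∂P := by
    refine integral_mono_of_nonneg (Eventually.of_forall fun ω => by positivity) ?_
      (Eventually.of_forall fun ω => vdc_scalar (fun n => hD n ω) N H hN hH)
    exact ((integrable_finsetSum _ fun n _ => hi2 n).const_mul _).add (integrable_const _)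
  refine h1.trans (le_of_eq ?_)
  rw [integral_add ((integrable_finsetSum _ fun n _ => hi2 n).const_mul _) (integrable_const _),
    integral_const, integral_const_mul, integral_finsetSum _ fun n _ => hi2 n]
  simp only [probReal_univ, smul_eq_mul, one_mul]
  congr 1
  have e1 : ∀ n, ∫ ω, ‖av H (fun h => u (n + h) ω)‖ ^ 2 ∂P =
      ((H : ℝ)⁻¹) ^ 2 * ∑ h ∈ range H, ∑ h' ∈ range H, (∫ ω, u (n + h) ω * conj (u (n + h') ω) ∂P).re := by
    intro n
    simp_rw [av_expand]
    rw [integral_const_mul, integral_finsetSum _ fun h _ => integrable_finsetSum _ fun h' _ => hre _ _]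
    congr 1
    refine Finset.sum_congr rfl fun h _ => ?_
    rw [integral_finsetSum _ fun h' _ => hre _ _]
    refine Finset.sum_congr rfl fun h' _ => ?_
    exact integral_re (hi _ _)
  simp_rw [e1]
  unfold av
  rw [← Finset.mul_sum, ← mul_assoc, mul_comm (N : ℝ)⁻¹, mul_assoc]
  congr 1
  rw [Finset.sum_comm, Finset.mul_sum]
  refine Finset.sum_congr rfl fun h _ => ?_
  rw [Finset.sum_comm, Finset.mul_sum]
  refine Finset.sum_congr rfl fun h' _ => ?_
  rw [show ((N : ℂ)⁻¹) = (((N : ℝ)⁻¹ : ℝ) : ℂ) by push_cast; rfl, Complex.re_ofReal_mul, Complex.re_sum]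

/-- sums over pairs with a given distance -/
lemma sum_dist_le (H : ℕ) (l : ℕ → ℝ) (hl : ∀ d, 0 ≤ l d) :
    ∑ h ∈ range H, ∑ h' ∈ range H, l (Nat.dist h h') ≤ 2 * H * ∑ d ∈ range H, l d := by
  have h1 : ∀ h ∈ range H, ∑ h' ∈ range H, l (Nat.dist h h') ≤ 2 * ∑ d ∈ range H, l d := by
    intro h hh
    rw [Finset.mem_range] at hh
    have e : range H = range (h + 1) ∪ Finset.Ico (h + 1) H := by
      ext x
      simp only [Finset.mem_range, Finset.mem_union, Finset.mem_Ico]
      omega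
    have hd : Disjoint (range (h + 1)) (Finset.Ico (h + 1) H) := by
      rw [Finset.disjoint_left]
      intro x hx hx'
      simp only [Finset.mem_range, Finset.mem_Ico] at hx hx'
      omega
    conv_lhs => rw [e, Finset.sum_union hd]
    have h2 : ∑ h' ∈ range (h + 1), l (Nat.dist h h') ≤ ∑ d ∈ range H, l d := by
      have e2 : ∑ h' ∈ range (h + 1), l (Nat.dist h h') = ∑ d ∈ range (h + 1), l d := by
        rw [← Finset.sum_range_reflect (fun d => l d) (h + 1)]
        refine Finset.sum_congr rfl fun x hx => ?_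
        rw [Finset.mem_range] at hx
        congr 1
        unfold Nat.dist
        omega
      rw [e2]
      exact Finset.sum_le_sum_of_subset_of_nonneg (Finset.range_subset_range.2 (by omega)) fun i _ _ => hl i
    have h3 : ∑ h' ∈ Finset.Ico (h + 1) H, l (Nat.dist h h') ≤ ∑ d ∈ range H, l d := by
      rw [Finset.sum_Ico_eq_sum_range]
      have e3 : ∀ x ∈ range (H - (h + 1)), l (Nat.dist h (h + 1 + x)) = l (x + 1) := by
        intro x _
        congr 1
        unfold Nat.dist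
        omega
      rw [Finset.sum_congr rfl e3]
      have e4 : ∑ x ∈ range (H - (h + 1)), l (x + 1) ≤ ∑ x ∈ range (H - (h + 1) + 1), l x := by
        rw [Finset.sum_range_succ' (fun d => l d)]
        linarith [hl 0]
      refine e4.trans ?_
      exact Finset.sum_le_sum_of_subset_of_nonneg (Finset.range_subset_range.2 (by omega)) fun i _ _ => hl i
    linarith
  calc ∑ h ∈ range H, ∑ h' ∈ range H, l (Nat.dist h h') ≤ ∑ h ∈ range H, 2 * ∑ d ∈ range H, l d :=
        Finset.sum_le_sum h1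
    _ = 2 * H * ∑ d ∈ range H, l d := by
        rw [Finset.sum_const, Finset.card_range, nsmul_eq_mul]
        ring

/-- the inequality of van der Corput in terms of the correlations -/
lemma vdc_cor {Ω : Type*} [MeasurableSpace Ω] (P : Measure Ω) [IsProbabilityMeasure P] {u : ℕ → Ω → ℂ}
    (hu : ∀ n, AEStronglyMeasurable (u n) P) {D : ℝ} (hD : ∀ n ω, ‖u n ω‖ ≤ D) (c : ℕ → ℕ → ℂ)
    (hc : ∀ d n, ∫ ω, u (n + d) ω * conj (u n ω) ∂P = c d n) (N H : ℕ) (hN : 0 < N) (hH : 0 < H) :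
    ∫ ω, ‖av N (fun n => u n ω)‖ ^ 2 ∂P ≤
      ((H : ℝ)⁻¹) ^ 2 * ∑ h ∈ range H, ∑ h' ∈ range H, (av N (c (Nat.dist h h'))).re + 6 * D ^ 2 * H / N := by
  have hN' : (0 : ℝ) < N := by exact_mod_cast hN
  have hH' : (0 : ℝ) < H := by exact_mod_cast hH
  have hD0 : ∀ ω, 0 ≤ D := fun ω => (norm_nonneg _).trans (hD 0 ω)
  have hcb : ∀ d n, ‖c d n‖ ≤ D * D := by
    intro d n
    rw [← hc]
    refine (norm_integral_le_of_norm_le_const (C := D * D) (Eventually.of_forall fun ω => ?_)).trans (by simp)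
    rw [norm_mul, RCLike.norm_conj]
    exact mul_le_mul (hD _ _) (hD _ _) (norm_nonneg _) (hD0 ω)
  have hDD : 0 ≤ D * D := (norm_nonneg _).trans (hcb 0 0)
  have key : ∀ h ∈ range H, ∀ h' ∈ range H, (av N (fun n => ∫ ω, u (n + h) ω * conj (u (n + h') ω) ∂P)).re ≤
      (av N (c (Nat.dist h h'))).re + 2 * (D * D) * H / N := by
    intro h hh h' hh'
    rw [Finset.mem_range] at hh hh'
    have gen : ∀ (d m : ℕ), m ≤ H → (av N (fun n => c d (n + m))).re ≤ (av N (c d)).re + 2 * (D * D) * H / N := by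
      intro d m hm
      have h1 := av_shift_le (hcb d) N m
      have h2 : (av N (fun n => c d (n + m))).re - (av N (c d)).re ≤ ‖av N (fun n => c d (n + m)) - av N (c d)‖ := by
        rw [← Complex.sub_re]
        exact Complex.re_le_norm _
      have h3 : 2 * (D * D) * m / N ≤ 2 * (D * D) * H / N := by
        have : (m : ℝ) ≤ H := by exact_mod_cast hm
        gcongr
      linarith
    rcases le_total h' h with hle | hle
    · have e : ∀ n, ∫ ω, u (n + h) ω * conj (u (n + h') ω) ∂P = c (Nat.dist h h') (n + h') := by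
        intro n
        rw [← hc]
        have : n + h = n + h' + Nat.dist h h' := by unfold Nat.dist; omega
        rw [← this]
      simp_rw [e]
      exact gen _ _ hh'.le
    · have e : ∀ n, ∫ ω, u (n + h) ω * conj (u (n + h') ω) ∂P = conj (c (Nat.dist h h') (n + h)) := by
        intro n
        rw [← hc, ← integral_conj]
        have : n + h' = n + h + Nat.dist h h' := by unfold Nat.dist; omega
        rw [← this]
        refine integral_congr_ae (Eventually.of_forall fun ω => ?_)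
        simp only [map_mul, Complex.conj_conj]
        ring
      simp_rw [e]
      have e2 : av N (fun n => conj (c (Nat.dist h h') (n + h))) = conj (av N (fun n => c (Nat.dist h h') (n + h))) := by
        unfold av
        rw [map_mul, map_sum, map_inv₀, Complex.conj_natCast]
      rw [e2, Complex.conj_re]
      exact gen _ _ hh.le
  refine (vdc_int P hu hD N H hN hH).trans ?_
  have h1 : ∑ h ∈ range H, ∑ h' ∈ range H, (av N (fun n => ∫ ω, u (n + h) ω * conj (u (n + h') ω) ∂P)).re ≤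
      ∑ h ∈ range H, ∑ h' ∈ range H, (av N (c (Nat.dist h h'))).re + H * (H * (2 * (D * D) * H / N)) := by
    calc _ ≤ ∑ h ∈ range H, ∑ h' ∈ range H, ((av N (c (Nat.dist h h'))).re + 2 * (D * D) * H / N) :=
          Finset.sum_le_sum fun h hh => Finset.sum_le_sum fun h' hh' => key h hh h' hh'
      _ = _ := by
          simp only [Finset.sum_add_distrib, Finset.sum_const, Finset.card_range, nsmul_eq_mul]
  calc ((H : ℝ)⁻¹) ^ 2 * ∑ h ∈ range H, ∑ h' ∈ range H,
        (av N (fun n => ∫ ω, u (n + h) ω * conj (u (n + h') ω) ∂P)).re + 4 * D ^ 2 * H / N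
      ≤ ((H : ℝ)⁻¹) ^ 2 * (∑ h ∈ range H, ∑ h' ∈ range H, (av N (c (Nat.dist h h'))).re +
          H * (H * (2 * (D * D) * H / N))) + 4 * D ^ 2 * H / N := by gcongr
    _ = _ := by
        field_simp
        ring

/-- the square of the integral -/
lemma sq_int_le {Ω : Type*} [MeasurableSpace Ω] (P : Measure Ω) [IsProbabilityMeasure P] {g : Ω → ℝ}
    (hg : Integrable g P) (hg2 : Integrable (fun ω => g ω ^ 2) P) : (∫ ω, g ω ∂P) ^ 2 ≤ ∫ ω, g ω ^ 2 ∂P := by
  set c := ∫ ω, g ω ∂P with hc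
  have h0 : 0 ≤ ∫ ω, (g ω - c) ^ 2 ∂P := integral_nonneg fun ω => sq_nonneg _
  have e : ∀ ω, (g ω - c) ^ 2 = g ω ^ 2 - (2 * c) * g ω + c ^ 2 := fun ω => by ring
  simp_rw [e] at h0
  have i1 : Integrable (fun ω => g ω ^ 2 - (2 * c) * g ω) P := hg2.sub (hg.const_mul _)
  rw [integral_add i1 (integrable_const _), integral_sub hg2 (hg.const_mul _),
    integral_const_mul, integral_const, ← hc] at h0
  simp only [probReal_univ, smul_eq_mul, one_mul] at h0
  nlinarith

end Pool.Agent.H80GE
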