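import Pool.Agent.H80GE.WM1

/-!
# Multiple correlations of weakly mixing systems
-/

set_option autoImplicit false

open MeasureTheory Filter Topology Finset
open scoped ComplexConjugate ENNReal

namespace Pool.Agent.H80GE

variable {Y : Type*} [MeasurableSpace Y] {μ : Measure Y} [IsProbabilityMeasure μ]

/-- the multiple correlations -/
noncomputable def mc (μ : Measure Y) (S : Y → Y) {m : ℕ} (a : Fin m → ℕ) (F : Fin m → Y → ℂ) (n : ℕ) : ℂ :=
  ∫ y, ∏ j, F j (S^[a j * (n + 1)] y) ∂μ

lemma mc_bound {S : Y → Y} {m : ℕ} {a : Fin m → ℕ} {F : Fin m → Y → ℂ} (hF1 : ∀ j y, ‖F j y‖ ≤ 1) (n : ℕ) :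
    ‖mc μ S a F n‖ ≤ 1 := by
  refine (norm_integral_le_of_norm_le_const (C := 1) (Eventually.of_forall fun y => ?_)).trans (by simp)
  exact prod_norm_le_one _ _ fun l => hF1 l _

/-- one function has integral zero, functions bounded by one -/
lemma mc_zero1 (S : Y ≃ᵐ Y) (hS : MeasurePreserving S μ μ) (hE : Ergodic (Prod.map S S) (μ.prod μ)) {m : ℕ}
    (a : Fin m → ℕ) (hinj : Function.Injective a) (F : Fin m → Y → ℂ) (hF : ∀ j, Measurable (F j))
    (hF1 : ∀ j y, ‖F j y‖ ≤ 1) (k : Fin m) (hk : ∫ y, F k y ∂μ = 0) :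
    Tendsto (fun N => av N (mc μ S a F)) atTop (𝓝 0) := by
  by_cases hm : m = 1
  · subst hm
    have h0 : ∀ n, mc μ S a F n = 0 := by
      intro n
      unfold mc
      simp only [Finset.univ_unique, Finset.prod_singleton]
      have hk0 : k = default := Subsingleton.elim _ _
      rw [hk0] at hk
      have hmp := hS.iterate (a default * (n + 1))
      have hm' : AEStronglyMeasurable (F default) (Measure.map (S^[a default * (n + 1)]) μ) :=
        (hF default).aestronglyMeasurable
      have h3 := integral_map (μ := μ) hmp.measurable.aemeasurable hm'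
      rw [hmp.map_eq] at h3
      rw [← h3, hk]
    have : (fun N => av N (mc μ S a F)) = fun _ => 0 := by
      funext N
      unfold av
      simp [h0]
    rw [this]
    exact tendsto_const_nhds
  · obtain ⟨n, hn⟩ : ∃ n, m = n + 2 := by
      have := k.2
      exact ⟨m - 2, by omega⟩
    obtain ⟨i, hik⟩ : ∃ i : Fin m, i ≠ k := by
      by_cases hk0 : (k : ℕ) = 0
      · exact ⟨⟨1, by omega⟩, fun h => by rw [← h] at hk0; simp at hk0⟩
      · exact ⟨⟨0, by omega⟩, fun h => hk0 (by rw [← h])⟩
    set T : Equiv.Perm Y := S.toEquiv with hT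
    have hTmp : MeasurePreserving T μ μ := hS
    have hTi : Measurable T.symm := S.symm.measurable
    have hcard : (Finset.univ : Finset (Fin m)).card = n + 2 := by rw [Finset.card_univ, Fintype.card_fin, hn]
    have hbinj : Set.InjOn (fun l : Fin m => (a l : ℤ)) ((Finset.univ : Finset (Fin m)) : Set (Fin m)) := by
      intro x _ y _ hxy
      exact hinj (by simpa using hxy)
    have hb : 0 < ((a k : ℤ) - a i).natAbs := by
      rw [Int.natAbs_pos]
      intro h0
      apply hik
      apply hinj
      omega
    have hbox : box μ S ((a k : ℤ) - a i).natAbs n (F k) = 0 := by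
      have := wm_box hS hE _ hb n (F k) (hF k) (hF1 k)
      rw [hk, enorm_zero] at this
      exact le_antisymm this zero_le
    rw [Metric.tendsto_nhds]
    intro ε hε
    obtain ⟨δ, hδ, hI⟩ := cor_small hTmp hTi n Finset.univ hcard (fun l : Fin m => (a l : ℤ)) hbinj k
      (Finset.mem_univ _) i (Finset.mem_univ _) hik (ε / 4) (by positivity)
    have h1 := hI F hF hF1 (by
      refine le_trans (le_of_eq ?_) (zero_le)
      exact hbox)
    set CC : ℕ → ℂ := fun k => ∫ x, ∏ l, F l ((T ^ ((a l : ℤ) * (k : ℤ)) : Equiv.Perm Y) x) ∂μ with hCC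
    have hCC1 : ∀ k, ‖CC k‖ ≤ 1 := by
      intro k
      refine (norm_integral_le_of_norm_le_const (C := 1) (Eventually.of_forall fun x => ?_)).trans (by simp)
      exact prod_norm_le_one _ _ fun l => hF1 l _
    have hcC : ∀ k, mc μ S a F k = CC (k + 1) := by
      intro k
      simp only [mc, hCC]
      refine integral_congr_ae (Eventually.of_forall fun x => ?_)
      simp only
      refine Finset.prod_congr rfl fun l _ => rfl
    obtain ⟨N1, hN1⟩ := exists_nat_gt (8 / ε)
    filter_upwards [h1, eventually_gt_atTop (max N1 0)] with N hN hNN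
    have hN0 : 0 < N := (le_max_right _ _).trans_lt hNN
    have hNR : (0 : ℝ) < N := by exact_mod_cast hN0
    have hN1' : 8 / ε < N := hN1.trans (by exact_mod_cast (le_max_left _ _).trans_lt hNN)
    have h6 := av_shift_le hCC1 N 1
    have h7 : av N (mc μ S a F) = av N (fun k => CC (k + 1)) := by
      unfold av
      simp_rw [hcC]
    rw [h7, dist_zero_right]
    have h8 : 2 * (1 : ℝ) * (1 : ℕ) / N ≤ ε / 4 := by
      rw [div_le_iff₀ hNR]
      rw [div_lt_iff₀ hε] at hN1'
      push_cast
      nlinarith
    have h9 := norm_sub_norm_le (av N (fun k => CC (k + 1))) (av N CC)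
    have h10 : ‖av N CC‖ ≤ ε / 4 := hN
    linarith

lemma mc_smul {S : Y → Y} {m : ℕ} (a : Fin m → ℕ) (F : Fin m → Y → ℂ) (c : ℂ) (n : ℕ) :
    mc μ S a (fun j y => c * F j y) n = c ^ m * mc μ S a F n := by
  unfold mc
  rw [← integral_const_mul]
  refine integral_congr_ae (Eventually.of_forall fun y => ?_)
  simp only
  rw [Finset.prod_mul_distrib]
  simp

lemma mc_zero (S : Y ≃ᵐ Y) (hS : MeasurePreserving S μ μ) (hE : Ergodic (Prod.map S S) (μ.prod μ)) {m : ℕ}
    (a : Fin m → ℕ) (hinj : Function.Injective a) (F : Fin m → Y → ℂ) (hF : ∀ j, Measurable (F j))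
    (hFb : ∃ C, ∀ j y, ‖F j y‖ ≤ C) (k : Fin m) (hk : ∫ y, F k y ∂μ = 0) :
    Tendsto (fun N => av N (mc μ S a F)) atTop (𝓝 0) := by
  obtain ⟨C, hC⟩ := hFb
  set D : ℝ := max C 1 with hD
  have hD0 : 0 < D := lt_of_lt_of_le one_pos (le_max_right _ _)
  have h := mc_zero1 S hS hE a hinj (fun j y => ((D : ℂ))⁻¹ * F j y) (fun j => (hF j).const_mul _)
    (fun j y => by
      rw [norm_mul, norm_inv, Complex.norm_real, Real.norm_eq_abs, abs_of_pos hD0, inv_mul_le_iff₀ hD0, mul_one]
      exact (hC j y).trans (le_max_left _ _)) k (by rw [integral_const_mul, hk, mul_zero])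
  have h2 := h.const_mul ((D : ℂ) ^ m)
  rw [mul_zero] at h2
  refine h2.congr fun N => ?_
  unfold av
  simp_rw [mc_smul]
  have h5 : (D : ℂ) ≠ 0 := by exact_mod_cast hD0.ne'
  rw [← Finset.mul_sum, mul_left_comm, ← mul_assoc ((D : ℂ) ^ m), ← mul_pow, mul_inv_cancel₀ h5, one_pow, one_mul]

/-- multiple weak mixing -/
theorem mc_tendsto (S : Y ≃ᵐ Y) (hS : MeasurePreserving S μ μ) (hE : Ergodic (Prod.map S S) (μ.prod μ)) {m : ℕ}
    (a : Fin m → ℕ) (hinj : Function.Injective a) (s : Finset (Fin m)) :
    ∀ F : Fin m → Y → ℂ, (∀ j, Measurable (F j)) → (∃ C, ∀ j y, ‖F j y‖ ≤ C) →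
      (∀ j, j ∉ s → ∃ c, F j = fun _ => c) →
      Tendsto (fun N => av N (mc μ S a F)) atTop (𝓝 (∏ j, ∫ y, F j y ∂μ)) := by
  classical
  induction s using Finset.induction_on with
  | empty =>
    intro F hF hFb hc
    choose c hc using fun j => hc j (Finset.notMem_empty j)
    have h1 : ∀ n, mc μ S a F n = ∏ j, c j := by
      intro n
      unfold mc
      simp [hc]
    have h2 : ∏ j, ∫ y, F j y ∂μ = ∏ j, c j := by
      refine Finset.prod_congr rfl fun j _ => ?_
      simp [hc]
    rw [h2]
    have h3 : ∀ᶠ N : ℕ in atTop, (∏ j, c j) = av N (mc μ S a F) := by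
      filter_upwards [eventually_gt_atTop 0] with N hN
      unfold av
      simp_rw [h1]
      rw [Finset.sum_const, Finset.card_range, nsmul_eq_mul]
      have : (N : ℂ) ≠ 0 := by exact_mod_cast hN.ne'
      field_simp
    exact tendsto_const_nhds.congr' h3
  | insert i s hi ih =>
    intro F hF hFb hc
    obtain ⟨C, hC⟩ := hFb
    set c : ℂ := ∫ y, F i y ∂μ with hci
    have hcb : ‖c‖ ≤ C := by
      rw [hci]
      exact (norm_integral_le_of_norm_le_const (Eventually.of_forall (hC i))).trans (by simp)
    have hFi : ∀ j, Integrable (F j) μ := fun j =>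
      Integrable.of_bound (hF j).aestronglyMeasurable C (Eventually.of_forall (hC j))
    -- the constant part
    set F1 : Fin m → Y → ℂ := fun j => if j = i then (fun _ => c) else F j with hF1
    set F2 : Fin m → Y → ℂ := fun j => if j = i then (fun y => F i y - c) else F j with hF2
    have hC0 : 0 ≤ C := (norm_nonneg _).trans hcb
    have h1 := ih F1 (fun j => by simp only [hF1]; split_ifs; exacts [measurable_const, hF j])
      ⟨C, fun j y => by simp only [hF1]; split_ifs; exacts [hcb, hC j y]⟩
      (fun j hj => by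
        by_cases hji : j = i
        · exact ⟨c, by simp only [hF1]; rw [if_pos hji]⟩
        · obtain ⟨c', hc'⟩ := hc j (by rw [Finset.mem_insert]; tauto)
          exact ⟨c', by simp only [hF1]; rw [if_neg hji]; exact hc'⟩)
    have h2 := mc_zero S hS hE a hinj F2 (fun j => by
        simp only [hF2]; split_ifs; exacts [(hF i).sub_const c, hF j])
      ⟨2 * C, fun j y => by
        simp only [hF2]
        split_ifs
        · exact (norm_sub_le _ _).trans (by linarith [hC i y])
        · exact (hC j y).trans (by linarith)⟩ i (by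
        simp only [hF2, if_true]
        rw [integral_sub (hFi i) (integrable_const _), integral_const, ← hci]
        simp)
    have hm : ∀ n, mc μ S a F n = mc μ S a F1 n + mc μ S a F2 n := by
      intro n
      unfold mc
      have hint : ∀ G : Fin m → Y → ℂ, (∀ j, Measurable (G j)) → (∀ j y, ‖G j y‖ ≤ 2 * C) →
          Integrable (fun y => ∏ j, G j (S^[a j * (n + 1)] y)) μ := by
        intro G hG hGb
        refine Integrable.of_bound (Finset.measurable_prod _ fun j _ =>
          (hG j).comp (S.measurable.iterate _)).aestronglyMeasurable ((2 * C) ^ m) (Eventually.of_forall fun y => ?_)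
        rw [norm_prod]
        calc ∏ j, ‖G j (S^[a j * (n + 1)] y)‖ ≤ ∏ _j : Fin m, (2 * C) :=
              Finset.prod_le_prod (fun _ _ => norm_nonneg _) fun j _ => hGb j _
          _ = (2 * C) ^ m := by simp
      rw [← integral_add (hint F1 (fun j => by simp only [hF1]; split_ifs; exacts [measurable_const, hF j])
        (fun j y => by simp only [hF1]; split_ifs; exacts [hcb.trans (by linarith), (hC j y).trans (by linarith)]))
        (hint F2 (fun j => by simp only [hF2]; split_ifs; exacts [(hF i).sub_const c, hF j])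
        (fun j y => by
          simp only [hF2]
          split_ifs
          · exact (norm_sub_le _ _).trans (by linarith [hC i y])
          · exact (hC j y).trans (by linarith)))]
      refine integral_congr_ae (Eventually.of_forall fun y => ?_)
      simp only
      rw [← Finset.mul_prod_erase Finset.univ (fun j => F j (S^[a j * (n + 1)] y)) (Finset.mem_univ i),
        ← Finset.mul_prod_erase Finset.univ (fun j => F1 j (S^[a j * (n + 1)] y)) (Finset.mem_univ i),
        ← Finset.mul_prod_erase Finset.univ (fun j => F2 j (S^[a j * (n + 1)] y)) (Finset.mem_univ i)]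
      have e1 : ∏ j ∈ Finset.univ.erase i, F1 j (S^[a j * (n + 1)] y) =
          ∏ j ∈ Finset.univ.erase i, F j (S^[a j * (n + 1)] y) := by
        refine Finset.prod_congr rfl fun j hj => ?_
        rw [Finset.mem_erase] at hj
        simp only [hF1, if_neg hj.1]
      have e2 : ∏ j ∈ Finset.univ.erase i, F2 j (S^[a j * (n + 1)] y) =
          ∏ j ∈ Finset.univ.erase i, F j (S^[a j * (n + 1)] y) := by
        refine Finset.prod_congr rfl fun j hj => ?_
        rw [Finset.mem_erase] at hj
        simp only [hF2, if_neg hj.1]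
      rw [e1, e2]
      simp only [hF1, hF2, if_true]
      ring
    have h3 : ∏ j, ∫ y, F1 j y ∂μ = ∏ j, ∫ y, F j y ∂μ := by
      refine Finset.prod_congr rfl fun j _ => ?_
      simp only [hF1]
      split_ifs with hji
      · rw [hji, ← hci]
        simp
      · rfl
    rw [h3] at h1
    have h4 := h1.add h2
    rw [add_zero] at h4
    refine h4.congr fun N => ?_
    unfold av
    rw [← mul_add, ← Finset.sum_add_distrib]
    congr 1
    exact Finset.sum_congr rfl fun n _ => (hm n).symm

end Pool.Agent.H80GE
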