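import Pool.Agent.H80GE.WM2
import Pool.Agent.W880.BQ.WM

/-!
# Approximation by eigenfunctions
-/

set_option autoImplicit false

open MeasureTheory Filter Topology Finset
open scoped ComplexConjugate ENNReal InnerProductSpace

namespace Pool.Agent.H80GE

section Koop

variable {X : Type} [MeasurableSpace X] {ν : Measure X} [IsProbabilityMeasure ν] {T : Equiv.Perm X}

instance fact12 : Fact ((1 : ℝ≥0∞) ≤ 2) := ⟨by norm_num⟩

/-- the unitary operator of an invertible system -/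
noncomputable def koop (hT : MeasurePreserving T ν ν) (hTi : MeasurePreserving T.symm ν ν) :
    Lp ℂ 2 ν ≃ₗᵢ[ℂ] Lp ℂ 2 ν :=
  LinearIsometryEquiv.ofSurjective (Lp.compMeasurePreservingₗᵢ ℂ T hT) (by
    intro g
    refine ⟨Lp.compMeasurePreserving T.symm hTi g, ?_⟩
    change Lp.compMeasurePreserving T hT (Lp.compMeasurePreserving T.symm hTi g) = g
    apply Lp.ext
    have h1 := Lp.coeFn_compMeasurePreserving (Lp.compMeasurePreserving T.symm hTi g) hT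
    have h2 := Lp.coeFn_compMeasurePreserving g hTi
    have h3 := hT.quasiMeasurePreserving.ae_eq_comp h2
    refine h1.trans (h3.trans ?_)
    refine Eventually.of_forall fun x => ?_
    simp)

lemma koop_coe (hT : MeasurePreserving T ν ν) (hTi : MeasurePreserving T.symm ν ν) (g : Lp ℂ 2 ν) :
    (koop hT hTi g : X → ℂ) =ᵐ[ν] fun x => (g : X → ℂ) (T x) :=
  Lp.coeFn_compMeasurePreserving g hT

lemma koop_pow (hT : MeasurePreserving T ν ν) (hTi : MeasurePreserving T.symm ν ν) (n : ℕ) (g : Lp ℂ 2 ν) :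
    (((koop hT hTi) ^ n) g : X → ℂ) =ᵐ[ν] fun x => (g : X → ℂ) (T^[n] x) := by
  induction n generalizing g with
  | zero => simp
  | succ n ih =>
    have h1 := ih (koop hT hTi g)
    have h2 := (hT.iterate n).quasiMeasurePreserving.ae_eq_comp (koop_coe hT hTi g)
    rw [pow_succ]
    change (((koop hT hTi) ^ n) ((koop hT hTi) g) : X → ℂ) =ᵐ[ν] _
    refine h1.trans (h2.trans ?_)
    refine Eventually.of_forall fun x => ?_
    change (g : X → ℂ) (T (T^[n] x)) = (g : X → ℂ) (T^[n + 1] x)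
    rw [Function.iterate_succ_apply']

/-- bounded eigenfunctions -/
def EB (ν : Measure X) (T : X → X) : Set (X → ℂ) :=
  {χ | Measurable χ ∧ (∃ C : ℝ, ∀ x, ‖χ x‖ ≤ C) ∧ ∃ θ : ℂ, ‖θ‖ = 1 ∧ ∀ᵐ x ∂ν, χ (T x) = θ * χ x}

lemma span_bdd (S : X → X) {P : X → ℂ} (hP : P ∈ Submodule.span ℂ (EB ν S)) :
    Measurable P ∧ ∃ C : ℝ, ∀ x, ‖P x‖ ≤ C := by
  induction hP using Submodule.span_induction with
  | mem x hx => exact ⟨hx.1, hx.2.1⟩
  | zero => exact ⟨measurable_const, 0, fun x => by simp⟩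
  | add x y _ _ hx hy =>
    obtain ⟨hx1, C1, hC1⟩ := hx
    obtain ⟨hy1, C2, hC2⟩ := hy
    exact ⟨hx1.add hy1, C1 + C2, fun z => (norm_add_le _ _).trans (add_le_add (hC1 z) (hC2 z))⟩
  | smul c x _ hx =>
    obtain ⟨hx1, C1, hC1⟩ := hx
    refine ⟨hx1.const_smul c, ‖c‖ * C1, fun z => ?_⟩
    rw [Pi.smul_apply, norm_smul]
    exact mul_le_mul_of_nonneg_left (hC1 z) (norm_nonneg _)

lemma memLp_bdd {f : X → ℂ} (hf : Measurable f) {C : ℝ} (hC : ∀ x, ‖f x‖ ≤ C) : MemLp f 2 ν :=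
  MemLp.of_bound hf.aestronglyMeasurable C (Eventually.of_forall hC)

/-- truncation of an eigenvector -/
lemma trunc (hT : MeasurePreserving T ν ν) (hTi : MeasurePreserving T.symm ν ν) (θ : Circle) (v : Lp ℂ 2 ν)
    (hv : koop hT hTi v = (θ : ℂ) • v) (ε : ℝ) (hε : 0 < ε) :
    ∃ χ ∈ EB ν T, ∃ h : MemLp χ 2 ν, ‖v - h.toLp χ‖ ≤ ε := by
  set g : X → ℂ := ⇑v with hg
  have hgm : Measurable g := (Lp.stronglyMeasurable v).measurable
  have hinv : ∀ᵐ x ∂ν, g (T x) = θ * g x := by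
    have h1 := koop_coe hT hTi v
    rw [hv] at h1
    have h2 := Lp.coeFn_smul (θ : ℂ) v
    filter_upwards [h1, h2] with x hx1 hx2
    rw [hx2] at hx1
    exact hx1.symm
  set χ : ℕ → X → ℂ := fun n x => if ‖g x‖ ≤ n then g x else 0 with hχ
  have hχm : ∀ n, Measurable (χ n) := fun n =>
    Measurable.ite (measurableSet_le hgm.norm measurable_const) hgm measurable_const
  have hχb : ∀ n x, ‖χ n x‖ ≤ n := by
    intro n x
    simp only [hχ]
    split_ifs with h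
    · exact h
    · simp
  have hχE : ∀ n, χ n ∈ EB ν T := by
    intro n
    refine ⟨hχm n, ⟨n, hχb n⟩, θ, Circle.norm_coe _, ?_⟩
    filter_upwards [hinv] with x hx
    have hn : ‖g (T x)‖ = ‖g x‖ := by rw [hx, norm_mul, Circle.norm_coe, one_mul]
    simp only [hχ, hn]
    split_ifs
    · exact hx
    · simp
  have hML : ∀ n, MemLp (χ n) 2 ν := fun n => memLp_bdd (hχm n) (hχb n)
  have hgL : MemLp g 2 ν := Lp.memLp v
  have hsq : Integrable (fun x => ‖g x‖ ^ 2) ν := by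
    have := hgL.integrable_norm_pow (by norm_num)
    simpa using this
  have hlim : Tendsto (fun n : ℕ => ∫ x, ‖g x - χ n x‖ ^ 2 ∂ν) atTop (𝓝 (∫ _x, (0 : ℝ) ∂ν)) := by
    refine tendsto_integral_of_dominated_convergence (fun x => ‖g x‖ ^ 2)
      (fun n => ((hgm.sub (hχm n)).norm.pow_const 2).aestronglyMeasurable) hsq
      (fun n => Eventually.of_forall fun x => ?_) (Eventually.of_forall fun x => ?_)
    · rw [norm_pow, norm_norm]
      simp only [hχ]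
      split_ifs
      · simp
      · simp
    · obtain ⟨N, hN⟩ := exists_nat_ge ‖g x‖
      refine tendsto_const_nhds.congr' ?_
      filter_upwards [eventually_ge_atTop N] with n hn
      have : ‖g x‖ ≤ n := hN.trans (by exact_mod_cast hn)
      simp only [hχ, if_pos this]
      simp
  rw [integral_zero] at hlim
  have hev := (tendsto_order.1 hlim).2 (ε ^ 2) (by positivity)
  obtain ⟨n, hn⟩ := hev.exists
  refine ⟨χ n, hχE n, hML n, ?_⟩
  have h1 : ‖v - (hML n).toLp (χ n)‖ ^ 2 = ∫ x, ‖g x - χ n x‖ ^ 2 ∂ν := by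
    have h2 : ((‖v - (hML n).toLp (χ n)‖ ^ 2 : ℝ) : ℂ) =
        ⟪v - (hML n).toLp (χ n), v - (hML n).toLp (χ n)⟫_ℂ := by
      rw [inner_self_eq_norm_sq_to_K]
      push_cast
      rfl
    rw [L2.inner_def] at h2
    have h3 : ∫ x, ⟪(v - (hML n).toLp (χ n) : Lp ℂ 2 ν) x, (v - (hML n).toLp (χ n) : Lp ℂ 2 ν) x⟫_ℂ ∂ν =
        ∫ x, ((‖g x - χ n x‖ ^ 2 : ℝ) : ℂ) ∂ν := by
      refine integral_congr_ae ?_
      filter_upwards [Lp.coeFn_sub v ((hML n).toLp (χ n)), (hML n).coeFn_toLp] with x hx1 hx2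
      rw [hx1, Pi.sub_apply, hx2, inner_self_eq_norm_sq_to_K]
      push_cast
      rfl
    rw [h3, integral_complex_ofReal] at h2
    exact_mod_cast h2
  have h4 : ‖v - (hML n).toLp (χ n)‖ ^ 2 ≤ ε ^ 2 := by rw [h1]; exact hn.le
  exact (pow_le_pow_iff_left₀ (norm_nonneg _) hε.le two_ne_zero).1 h4

/-- approximation of the elements of the span of the eigenvectors -/
lemma approx_span (hT : MeasurePreserving T ν ν) (hTi : MeasurePreserving T.symm ν ν) {p : Lp ℂ 2 ν}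
    (hp : p ∈ Submodule.span ℂ {v : Lp ℂ 2 ν | ∃ θ : Circle, koop hT hTi v = (θ : ℂ) • v}) :
    ∀ ε : ℝ, 0 < ε → ∃ P ∈ Submodule.span ℂ (EB ν T), ∃ h : MemLp P 2 ν, ‖p - h.toLp P‖ ≤ ε := by
  induction hp using Submodule.span_induction with
  | mem v hv =>
    intro ε hε
    obtain ⟨θ, hθ⟩ := hv
    obtain ⟨χ, hχ, h, hh⟩ := trunc hT hTi θ v hθ ε hε
    exact ⟨χ, Submodule.subset_span hχ, h, hh⟩
  | zero =>
    intro ε hε
    refine ⟨0, Submodule.zero_mem _, MemLp.zero, ?_⟩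
    rw [MemLp.toLp_zero]
    simpa using hε.le
  | add v w _ _ hv hw =>
    intro ε hε
    obtain ⟨P, hP, h, hh⟩ := hv (ε / 2) (by positivity)
    obtain ⟨Q, hQ, h', hh'⟩ := hw (ε / 2) (by positivity)
    refine ⟨P + Q, Submodule.add_mem _ hP hQ, h.add h', ?_⟩
    rw [MemLp.toLp_add h h']
    have e : v + w - (h.toLp P + h'.toLp Q) = (v - h.toLp P) + (w - h'.toLp Q) := by abel
    rw [e]
    exact (norm_add_le _ _).trans (by linarith)
  | smul c v _ hv =>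
    intro ε hε
    obtain ⟨P, hP, h, hh⟩ := hv (ε / (‖c‖ + 1)) (by positivity)
    refine ⟨c • P, Submodule.smul_mem _ c hP, h.const_smul c, ?_⟩
    rw [MemLp.toLp_const_smul c h, ← smul_sub, norm_smul]
    have h0 : 0 ≤ ‖c‖ := norm_nonneg c
    calc ‖c‖ * ‖v - h.toLp P‖ ≤ ‖c‖ * (ε / (‖c‖ + 1)) := by gcongr
      _ ≤ ε := by
          rw [mul_div_assoc', div_le_iff₀ (by positivity)]
          nlinarith

/-- the decomposition -/
theorem eig_dec (hT : MeasurePreserving T ν ν) (hTi : MeasurePreserving T.symm ν ν) {f : X → ℂ}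
    (hf : Measurable f) {C : ℝ} (hC : ∀ x, ‖f x‖ ≤ C) (ε : ℝ) (hε : 0 < ε) :
    ∃ P ∈ Submodule.span ℂ (EB ν T), ∃ L0 : ℕ, ∀ L : ℕ, L0 ≤ L →
      ∑ n ∈ range L, ‖∫ x, (f (T^[n] x) - P (T^[n] x)) * conj (f x - P x) ∂ν‖ ≤ ε * L := by
  set U := koop hT hTi with hU
  set E : Submodule ℂ (Lp ℂ 2 ν) :=
    (Submodule.span ℂ {v : Lp ℂ 2 ν | ∃ θ : Circle, U v = (θ : ℂ) • v}).topologicalClosure with hE
  have hEc : IsClosed (E : Set (Lp ℂ 2 ν)) := Submodule.isClosed_topologicalClosure _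
  have hEcs : CompleteSpace E := hEc.completeSpace_coe
  have hfL : MemLp f 2 ν := memLp_bdd hf hC
  set F : Lp ℂ 2 ν := hfL.toLp f with hF
  set F1 : Lp ℂ 2 ν := E.starProjection F with hF1
  have hF1E : F1 ∈ E := Submodule.starProjection_apply_mem _ _
  set w : Lp ℂ 2 ν := F - F1 with hw
  have hworth : w ∈ Eᗮ := Submodule.sub_starProjection_mem_orthogonal _
  set M : ℝ := ‖w‖ + 1 with hM
  have hM1 : 0 < M := by positivity
  set ε1 : ℝ := min 1 (ε / (6 * M)) with hε1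
  have hε1p : 0 < ε1 := lt_min one_pos (by positivity)
  -- approximation of the projection
  obtain ⟨p, hp, hpF⟩ : ∃ p ∈ Submodule.span ℂ {v : Lp ℂ 2 ν | ∃ θ : Circle, U v = (θ : ℂ) • v}, ‖F1 - p‖ ≤ ε1 / 2 := by
    have hcl : F1 ∈ closure (Submodule.span ℂ {v : Lp ℂ 2 ν | ∃ θ : Circle, U v = (θ : ℂ) • v} : Set (Lp ℂ 2 ν)) := by
      rw [← Submodule.topologicalClosure_coe]
      exact hF1E
    obtain ⟨p, hp, hd⟩ := Metric.mem_closure_iff.1 hcl (ε1 / 2) (by positivity)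
    exact ⟨p, hp, by rw [← dist_eq_norm]; exact hd.le⟩
  obtain ⟨P, hP, hPL, hPp⟩ := approx_span hT hTi hp (ε1 / 2) (by positivity)
  have hPb := span_bdd (ν := ν) T hP
  obtain ⟨hPm, CP, hCP⟩ := hPb
  set e : Lp ℂ 2 ν := F1 - hPL.toLp P with he
  have heb : ‖e‖ ≤ ε1 := by
    have : e = (F1 - p) + (p - hPL.toLp P) := by rw [he]; abel
    rw [this]
    exact (norm_add_le _ _).trans (by linarith)
  have hr : hfL.toLp f - hPL.toLp P = w + e := by
    rw [hw, he, hF]; abel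
  -- the weakly mixing part
  have horth : ∀ (θ : Circle) (v : Lp ℂ 2 ν), U v = (θ : ℂ) • v → ⟪v, w⟫_ℂ = 0 := by
    intro θ v hv
    have hvE : v ∈ E := Submodule.le_topologicalClosure _ (Submodule.subset_span ⟨θ, hv⟩)
    exact (Submodule.mem_orthogonal _ _).1 hworth v hvE
  obtain ⟨L0, hL0⟩ := Pool.Agent.W880.BQ.wm (Lp ℂ 2 ν) U w horth (ε / 2) (by positivity)
  refine ⟨P, hP, L0, fun L hL => ?_⟩
  have h1 := hL0 L hL 0
  -- the correlations as inner products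
  have hcor : ∀ n : ℕ, ‖∫ x, (f (T^[n] x) - P (T^[n] x)) * conj (f x - P x) ∂ν‖ =
      ‖⟪(U ^ n) (w + e), w + e⟫_ℂ‖ := by
    intro n
    rw [← hr, ← norm_inner_symm, L2.inner_def]
    congr 1
    refine integral_congr_ae ?_
    have h2 := koop_pow hT hTi n (hfL.toLp f - hPL.toLp P)
    have h3 := Lp.coeFn_sub (hfL.toLp f) (hPL.toLp P)
    have h4 := (hT.iterate n).quasiMeasurePreserving.ae_eq_comp h3
    have h5 := (hT.iterate n).quasiMeasurePreserving.ae_eq_comp hfL.coeFn_toLp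
    have h6 := (hT.iterate n).quasiMeasurePreserving.ae_eq_comp hPL.coeFn_toLp
    filter_upwards [h2, h3, h4, h5, h6, hfL.coeFn_toLp, hPL.coeFn_toLp] with x x2 x3 x4 x5 x6 x7 x8
    simp only [Function.comp_apply, Pi.sub_apply] at x4 x5 x6 x3
    rw [x2, x3, x4, x5, x6, x7, x8]
    simp
  have hbound : ∀ n : ℕ, ‖⟪(U ^ n) (w + e), w + e⟫_ℂ‖ ≤ ‖⟪(U ^ (0 + (n : ℤ))) w, w⟫_ℂ‖ + ε / 2 := by
    intro n
    have e0 : (U ^ (0 + (n : ℤ))) w = (U ^ n) w := by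
      rw [zero_add, zpow_natCast]
    rw [e0, map_add, inner_add_left, inner_add_right, inner_add_right]
    have n1 : ‖⟪(U ^ n) w, e⟫_ℂ‖ ≤ ‖w‖ * ‖e‖ := by
      refine (norm_inner_le_norm _ _).trans ?_
      rw [LinearIsometryEquiv.norm_map]
    have n2 : ‖⟪(U ^ n) e, w⟫_ℂ‖ ≤ ‖e‖ * ‖w‖ := by
      refine (norm_inner_le_norm _ _).trans ?_
      rw [LinearIsometryEquiv.norm_map]
    have n3 : ‖⟪(U ^ n) e, e⟫_ℂ‖ ≤ ‖e‖ * ‖e‖ := by
      refine (norm_inner_le_norm _ _).trans ?_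
      rw [LinearIsometryEquiv.norm_map]
    have hsum : ‖w‖ * ‖e‖ + (‖e‖ * ‖w‖ + ‖e‖ * ‖e‖) ≤ ε / 2 := by
      have hM' : ‖w‖ ≤ M := by rw [hM]; linarith
      have he1 : ‖e‖ ≤ 1 := heb.trans (min_le_left _ _)
      have he2 : ‖e‖ ≤ ε / (6 * M) := heb.trans (min_le_right _ _)
      have hM1' : 1 ≤ M := by rw [hM]; linarith [norm_nonneg w]
      have k1 : ‖w‖ * ‖e‖ ≤ M * ‖e‖ := mul_le_mul_of_nonneg_right hM' (norm_nonneg _)
      have k2 : ‖e‖ * ‖e‖ ≤ M * ‖e‖ := mul_le_mul_of_nonneg_right (he1.trans hM1') (norm_nonneg _)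
      have k3 : M * ‖e‖ ≤ ε / 6 := by
        calc M * ‖e‖ ≤ M * (ε / (6 * M)) := by gcongr
          _ = ε / 6 := by field_simp
      nlinarith
    calc _ ≤ ‖⟪(U ^ n) w, w⟫_ℂ + ⟪(U ^ n) w, e⟫_ℂ‖ + ‖⟪(U ^ n) e, w⟫_ℂ + ⟪(U ^ n) e, e⟫_ℂ‖ := norm_add_le _ _
      _ ≤ (‖⟪(U ^ n) w, w⟫_ℂ‖ + ‖⟪(U ^ n) w, e⟫_ℂ‖) + (‖⟪(U ^ n) e, w⟫_ℂ‖ + ‖⟪(U ^ n) e, e⟫_ℂ‖) :=
          add_le_add (norm_add_le _ _) (norm_add_le _ _)
      _ ≤ _ := by linarith
  calc ∑ n ∈ range L, ‖∫ x, (f (T^[n] x) - P (T^[n] x)) * conj (f x - P x) ∂ν‖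
      ≤ ∑ n ∈ range L, (‖⟪(U ^ (0 + (n : ℤ))) w, w⟫_ℂ‖ + ε / 2) := by
        refine Finset.sum_le_sum fun n _ => ?_
        rw [hcor]
        exact hbound n
    _ = ∑ n ∈ range L, ‖⟪(U ^ (0 + (n : ℤ))) w, w⟫_ℂ‖ + L * (ε / 2) := by
        rw [Finset.sum_add_distrib, Finset.sum_const, Finset.card_range, nsmul_eq_mul]
    _ ≤ ε / 2 * L + L * (ε / 2) := by gcongr
    _ = ε * L := by ring

end Koop

end Pool.Agent.H80GE
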