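import Pool.Agent.H80GE.WM3

/-!
# Compact group extensions of weakly mixing systems: convergence almost everywhere
-/

set_option autoImplicit false

open MeasureTheory Filter Topology Finset
open scoped ComplexConjugate ENNReal

namespace Pool.Agent.H80GE

section Slot

variable {X : Type*} {T : X → X} {m : ℕ} {a : Fin m → ℕ}

/-- replace one function -/
def slot (f : Fin m → X → ℂ) (j0 : Fin m) (g : X → ℂ) (j : Fin m) : X → ℂ := if j = j0 then g else f j

lemma slot_prod (f : Fin m → X → ℂ) (j0 : Fin m) (g : X → ℂ) (x : Fin m → X) :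
    ∏ j, slot f j0 g j (x j) = g (x j0) * ∏ j ∈ Finset.univ.erase j0, f j (x j) := by
  rw [← Finset.mul_prod_erase Finset.univ _ (Finset.mem_univ j0)]
  congr 1
  · simp [slot]
  · refine Finset.prod_congr rfl fun j hj => ?_
    rw [Finset.mem_erase] at hj
    simp only [slot, if_neg hj.1]

lemma AV_slot_add (f : Fin m → X → ℂ) (j0 : Fin m) (g h : X → ℂ) (N : ℕ) (x : X) :
    AV T a (slot f j0 (g + h)) N x = AV T a (slot f j0 g) N x + AV T a (slot f j0 h) N x := by
  unfold AV av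
  rw [← mul_add, ← Finset.sum_add_distrib]
  congr 1
  refine Finset.sum_congr rfl fun n _ => ?_
  beta_reduce
  rw [slot_prod f j0 (g + h) (fun j => T^[a j * (n + 1)] x), slot_prod f j0 g (fun j => T^[a j * (n + 1)] x),
    slot_prod f j0 h (fun j => T^[a j * (n + 1)] x), Pi.add_apply]
  ring

lemma AV_slot_smul (f : Fin m → X → ℂ) (j0 : Fin m) (c : ℂ) (g : X → ℂ) (N : ℕ) (x : X) :
    AV T a (slot f j0 (c • g)) N x = c * AV T a (slot f j0 g) N x := by
  unfold AV av
  rw [mul_left_comm]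
  congr 1
  rw [Finset.mul_sum]
  refine Finset.sum_congr rfl fun n _ => ?_
  beta_reduce
  rw [slot_prod f j0 (c • g) (fun j => T^[a j * (n + 1)] x), slot_prod f j0 g (fun j => T^[a j * (n + 1)] x),
    Pi.smul_apply, smul_eq_mul]
  ring

lemma slot_self (f : Fin m → X → ℂ) (j0 : Fin m) : slot f j0 (f j0) = f := by
  funext j
  unfold slot
  split_ifs with h
  · rw [h]
  · rfl

end Slot

section Eig

variable {X : Type} [MeasurableSpace X] {ν : Measure X} {T : X → X}

lemma eig_iter (hT : MeasurePreserving T ν ν) {χ : X → ℂ} {θ : ℂ} (h : ∀ᵐ x ∂ν, χ (T x) = θ * χ x) :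
    ∀ᵐ x ∂ν, ∀ n : ℕ, χ (T^[n] x) = θ ^ n * χ x := by
  have h1 : ∀ᵐ x ∂ν, ∀ n : ℕ, χ (T (T^[n] x)) = θ * χ (T^[n] x) :=
    ae_all_iff.2 fun n => (hT.iterate n).quasiMeasurePreserving.ae h
  filter_upwards [h1] with x hx n
  induction n with
  | zero => simp
  | succ n ih =>
    rw [Function.iterate_succ_apply', hx n, ih, pow_succ]
    ring

lemma av_pow_tendsto (z : ℂ) (hz : ‖z‖ = 1) : ∃ L, Tendsto (fun N => av N (fun n => z ^ (n + 1))) atTop (𝓝 L) := by
  by_cases h1 : z = 1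
  · refine ⟨1, ?_⟩
    have h3 : ∀ᶠ N : ℕ in atTop, (1 : ℂ) = av N (fun n => z ^ (n + 1)) := by
      filter_upwards [eventually_gt_atTop 0] with N hN
      unfold av
      simp only [h1, one_pow, Finset.sum_const, Finset.card_range, nsmul_eq_mul, mul_one]
      have : (N : ℂ) ≠ 0 := by exact_mod_cast hN.ne'
      field_simp
    exact tendsto_const_nhds.congr' h3
  · refine ⟨0, ?_⟩
    have hz1 : z - 1 ≠ 0 := sub_ne_zero.2 h1
    have hb : ∀ N : ℕ, ‖∑ n ∈ range N, z ^ (n + 1)‖ ≤ 2 / ‖z - 1‖ := by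
      intro N
      have e : ∑ n ∈ range N, z ^ (n + 1) = z * ((z ^ N - 1) / (z - 1)) := by
        rw [← geom_sum_eq h1, Finset.mul_sum]
        exact Finset.sum_congr rfl fun n _ => by rw [pow_succ]; ring
      rw [e, norm_mul, hz, one_mul, norm_div]
      gcongr
      calc ‖z ^ N - 1‖ ≤ ‖z ^ N‖ + ‖(1 : ℂ)‖ := norm_sub_le _ _
        _ = 2 := by rw [norm_pow, hz, one_pow, norm_one]; norm_num
    rw [tendsto_zero_iff_norm_tendsto_zero]
    refine squeeze_zero (fun N => norm_nonneg _) (fun N => ?_)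
      (tendsto_const_div_atTop_nhds_zero_nat (2 / ‖z - 1‖))
    unfold av
    rw [norm_mul, norm_inv, Complex.norm_natCast, inv_mul_eq_div]
    gcongr
    exact hb N

/-- eigenfunctions only -/
lemma conv_eig (hT : MeasurePreserving T ν ν) {m : ℕ} (a : Fin m → ℕ) (f : Fin m → X → ℂ)
    (hf : ∀ j, f j ∈ EB ν T) : ∀ᵐ x ∂ν, ∃ L, Tendsto (fun N => AV T a f N x) atTop (𝓝 L) := by
  choose hfm hfb θ hθ hfθ using hf
  have h1 : ∀ᵐ x ∂ν, ∀ j, ∀ n : ℕ, f j (T^[n] x) = θ j ^ n * f j x := ae_all_iff.2 fun j => eig_iter hT (hfθ j)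
  filter_upwards [h1] with x hx
  have hz : ‖∏ j, θ j ^ a j‖ = 1 := by
    rw [norm_prod]
    refine Finset.prod_eq_one fun j _ => ?_
    rw [norm_pow, hθ, one_pow]
  obtain ⟨L, hL⟩ := av_pow_tendsto (∏ j, θ j ^ a j) hz
  refine ⟨(∏ j, f j x) * L, (hL.const_mul (∏ j, f j x)).congr fun N => ?_⟩
  unfold AV av
  rw [mul_left_comm]
  congr 1
  rw [Finset.mul_sum]
  refine Finset.sum_congr rfl fun n _ => ?_
  simp only [hx]
  rw [Finset.prod_mul_distrib, ← Finset.prod_pow]
  rw [mul_comm]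
  congr 1
  refine Finset.prod_congr rfl fun j _ => ?_
  rw [← pow_mul]

end Eig

section CV

variable {Y K : Type} [MeasurableSpace Y] [Group K] [MeasurableSpace K] [MeasurableMul₂ K]
  {μ : Measure Y} [IsProbabilityMeasure μ] {ρ : Measure K} [IsProbabilityMeasure ρ] [ρ.IsMulLeftInvariant]
  {S : Y → Y} {σ : Y → K}

lemma cv_eig {q : K → ℝ} (hq : Measurable q) {Q : ℝ}
    (hQ : ∀ l, |q l| ≤ Q) {χ : Y × K → ℂ} (hχ : χ ∈ EB (μ.prod ρ) (sk S σ)) :
    cv ρ q χ ∈ EB (μ.prod ρ) (sk S σ) := by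
  obtain ⟨hm, ⟨C, hC⟩, θ, hθ, hae⟩ := hχ
  refine ⟨cv_meas hq hm, ⟨C * Q, fun z => cv_bound hQ hC z⟩, θ, hθ, ?_⟩
  have h1 := Measure.ae_ae_of_ae_prod hae
  have h2 : ∀ᵐ z ∂(μ.prod ρ), ∀ᵐ κ ∂ρ, χ (sk S σ (z.1, κ)) = θ * χ (z.1, κ) :=
    Measure.quasiMeasurePreserving_fst.ae h1
  filter_upwards [h2] with z hz
  have h3 : ∀ᵐ l ∂ρ, χ (sk S σ (z.1, z.2 * l)) = θ * χ (z.1, z.2 * l) :=
    (measurePreserving_mul_left ρ z.2).quasiMeasurePreserving.ae hz
  unfold cv
  rw [← integral_const_mul]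
  refine integral_congr_ae ?_
  filter_upwards [h3] with l hl
  have e : ((sk S σ z).1, (sk S σ z).2 * l) = sk S σ (z.1, z.2 * l) := by
    simp only [sk, mul_assoc]
  rw [e, hl]
  ring

omit [MeasurableSpace Y] [ρ.IsMulLeftInvariant] in
lemma cv_add [MeasurableSpace Y] {q : K → ℝ} (hq : Measurable q) {Q : ℝ} (hQ : ∀ l, |q l| ≤ Q) {f g : Y × K → ℂ}
    (hf : Measurable f) (hg : Measurable g) {C D : ℝ} (hC : ∀ z, ‖f z‖ ≤ C) (hD : ∀ z, ‖g z‖ ≤ D) :
    cv ρ q (f + g) = cv ρ q f + cv ρ q g := by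
  have hi : ∀ (h : Y × K → ℂ), Measurable h → (∃ E, ∀ z, ‖h z‖ ≤ E) → ∀ z : Y × K,
      Integrable (fun l => h (z.1, z.2 * l) * (q l : ℂ)) ρ := by
    intro h hm hE z
    obtain ⟨E, hE⟩ := hE
    refine Integrable.of_bound ((hm.comp (measurable_const.prodMk (measurable_const_mul _))).mul
      (Complex.measurable_ofReal.comp hq)).aestronglyMeasurable (E * Q) (Eventually.of_forall fun l => ?_)
    rw [norm_mul, Complex.norm_real, Real.norm_eq_abs]
    exact mul_le_mul (hE _) (hQ l) (abs_nonneg _) ((norm_nonneg _).trans (hE z))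
  funext z
  unfold cv
  rw [Pi.add_apply, ← integral_add (hi f hf ⟨C, hC⟩ z) (hi g hg ⟨D, hD⟩ z)]
  refine integral_congr_ae (Eventually.of_forall fun l => ?_)
  simp only [Pi.add_apply]
  ring

omit [MeasurableSpace Y] [MeasurableMul₂ K] [IsProbabilityMeasure ρ] [ρ.IsMulLeftInvariant] in
lemma cv_smul (q : K → ℝ) (c : ℂ) (f : Y × K → ℂ) : cv ρ q (c • f) = c • cv ρ q f := by
  funext z
  unfold cv
  rw [Pi.smul_apply, smul_eq_mul, ← integral_const_mul]
  refine integral_congr_ae (Eventually.of_forall fun l => ?_)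
  simp only [Pi.smul_apply, smul_eq_mul]
  ring

omit [MeasurableSpace Y] [MeasurableMul₂ K] [IsProbabilityMeasure ρ] [ρ.IsMulLeftInvariant] in
lemma cv_zero (q : K → ℝ) : cv ρ q (0 : Y × K → ℂ) = 0 := by
  funext z
  unfold cv
  simp

omit [MeasurableSpace Y] [MeasurableMul₂ K] [ρ.IsMulLeftInvariant] in
lemma cv_prob {q : K → ℝ} (hq : Measurable q) (hq0 : ∀ l, 0 ≤ q l) {Q : ℝ} (hQ : ∀ l, |q l| ≤ Q)
    (hq1 : ∫ l, q l ∂ρ = 1) {f : Y × K → ℂ} {C : ℝ} (hC : ∀ z, ‖f z‖ ≤ C) (z : Y × K) :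
    ‖cv ρ q f z‖ ≤ C := by
  unfold cv
  have hi : Integrable q ρ := Integrable.of_bound hq.aestronglyMeasurable Q
    (Eventually.of_forall fun l => by rw [Real.norm_eq_abs]; exact hQ l)
  calc ‖∫ l, f (z.1, z.2 * l) * ((q l : ℝ) : ℂ) ∂ρ‖ ≤ ∫ l, ‖f (z.1, z.2 * l) * ((q l : ℝ) : ℂ)‖ ∂ρ :=
        norm_integral_le_integral_norm _
    _ ≤ ∫ l, C * q l ∂ρ := by
        refine integral_mono_of_nonneg (Eventually.of_forall fun l => norm_nonneg _) (hi.const_mul C)
          (Eventually.of_forall fun l => ?_)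
        change ‖f (z.1, z.2 * l) * ((q l : ℝ) : ℂ)‖ ≤ C * q l
        rw [norm_mul, Complex.norm_real, Real.norm_eq_abs, abs_of_nonneg (hq0 l)]
        exact mul_le_mul_of_nonneg_right (hC _) (hq0 l)
    _ = C := by rw [integral_const_mul, hq1, mul_one]

end CV

section Main

variable {Y K : Type} [MeasurableSpace Y] [Group K] [TopologicalSpace K] [IsTopologicalGroup K]
  [CompactSpace K] [T2Space K] [SecondCountableTopology K] [MeasurableSpace K] [BorelSpace K]
  {μ : Measure Y} [IsProbabilityMeasure μ] {ρ : Measure K} [ρ.IsHaarMeasure] [IsProbabilityMeasure ρ]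

/-- smallness of the fibre averages when one function has small correlations -/
lemma wm_small (S : Y ≃ᵐ Y) (hS : MeasurePreserving S μ μ) (hE : Ergodic (Prod.map S S) (μ.prod μ)) {σ : Y → K}
    (hσ : Measurable σ) {m : ℕ} (a : Fin m → ℕ) (hinj : Function.Injective a) (ha0 : ∀ j, 0 < a j)
    (hY : ∀ g : Fin m → Y → ℂ, (∀ j, Measurable (g j)) → (∃ C, ∀ j y, ‖g j y‖ ≤ C) →
      ∀ᵐ y ∂μ, ∃ L, Tendsto (fun N => AV S a g N y) atTop (𝓝 L))
    (g : Fin m → Y × K → ℂ) (hg : ∀ j, Measurable (g j)) (C : ℝ) (hC1 : 1 ≤ C) (D : ℝ) (j0 : Fin m)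
    (hgC : ∀ j, j ≠ j0 → ∀ x, ‖g j x‖ ≤ C) (hgD : ∀ j x, ‖g j x‖ ≤ D) (ε3 : ℝ) (hε3 : 0 < ε3) (L0 : ℕ)
    (hL0 : ∀ L : ℕ, L0 ≤ L → ∑ n ∈ range L, ‖∫ x, g j0 ((sk S σ)^[n] x) * conj (g j0 x) ∂(μ.prod ρ)‖ ≤
      ε3 / (4 * (C ^ 2) ^ m * a j0) * L) (η : ℝ) (hη : 0 < η) :
    μ {y | ¬ ∀ᶠ N : ℕ in atTop, BB ρ S σ a g N y ≤ η} ≤ ENNReal.ofReal (ε3 / η) := by
  have hC0 : 0 < C := by linarith
  have haR : (0 : ℝ) < a j0 := by exact_mod_cast ha0 j0
  set H : ℕ := L0 + 1 with hH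
  have hH0 : 0 < H := by omega
  have hHR : (0 : ℝ) < H := by exact_mod_cast hH0
  have hpm : ∀ d j, Measurable (psi ρ S σ a g d j) := fun d j => psi_meas S.measurable hσ hg d j
  have hpb : ∀ d j y, ‖psi ρ S σ a g d j y‖ ≤ D ^ 2 := fun d j y => psi_bound hgD d j y
  -- the limits over the base
  set π : ℕ → ℂ := fun d => ∏ j, ∫ y, psi ρ S σ a g d j y ∂μ with hπ
  have hlim : ∀ d, Tendsto (fun N => av N (mc μ S a (psi ρ S σ a g d))) atTop (𝓝 (π d)) := fun d =>
    mc_tendsto S hS hE a hinj Finset.univ (psi ρ S σ a g d) (hpm d) ⟨D ^ 2, hpb d⟩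
      (fun j hj => absurd (Finset.mem_univ j) hj)
  -- the integrals of the fibre correlations
  have hint : ∀ d j, ∫ y, psi ρ S σ a g d j y ∂μ =
      ∫ x, g j ((sk S σ)^[a j * d] x) * conj (g j x) ∂(μ.prod ρ) := by
    intro d j
    have hm : Measurable (fun x : Y × K => g j ((sk S σ)^[a j * d] x) * conj (g j x)) :=
      ((hg j).comp ((sk_meas S.measurable hσ).iterate _)).mul (Complex.continuous_conj.measurable.comp (hg j))
    rw [integral_prod _ (Integrable.of_bound hm.aestronglyMeasurable (D * D) (Eventually.of_forall fun x => by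
      rw [norm_mul, RCLike.norm_conj]
      exact mul_le_mul (hgD _ _) (hgD _ _) (norm_nonneg _) ((norm_nonneg _).trans (hgD j x))))]
    rfl
  have hπb : ∀ d, ‖π d‖ ≤ (C ^ 2) ^ m * ‖∫ x, g j0 ((sk S σ)^[a j0 * d] x) * conj (g j0 x) ∂(μ.prod ρ)‖ := by
    intro d
    simp only [hπ]
    rw [← Finset.mul_prod_erase Finset.univ _ (Finset.mem_univ j0), norm_mul, hint, mul_comm]
    refine mul_le_mul_of_nonneg_right ?_ (norm_nonneg _)
    rw [norm_prod]
    have h1 : ∏ j ∈ Finset.univ.erase j0, ‖∫ y, psi ρ S σ a g d j y ∂μ‖ ≤ ∏ _j ∈ Finset.univ.erase j0, C ^ 2 := by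
      refine Finset.prod_le_prod (fun _ _ => norm_nonneg _) fun j hj => ?_
      rw [Finset.mem_erase] at hj
      rw [hint]
      refine (norm_integral_le_of_norm_le_const (C := C ^ 2) (Eventually.of_forall fun x => ?_)).trans (by simp)
      rw [norm_mul, RCLike.norm_conj, sq]
      exact mul_le_mul (hgC j hj.1 _) (hgC j hj.1 _) (norm_nonneg _) hC0.le
    refine h1.trans ?_
    rw [Finset.prod_const]
    refine pow_le_pow_right₀ (one_le_pow₀ hC1) ?_
    calc (Finset.univ.erase j0).card ≤ (Finset.univ : Finset (Fin m)).card := Finset.card_le_card (Finset.erase_subset _ _)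
      _ = m := by rw [Finset.card_univ, Fintype.card_fin]
  -- the limit of the double average
  have hGlim : Tendsto (fun N : ℕ => ((H : ℝ)⁻¹) ^ 2 * ∑ h ∈ range H, ∑ h' ∈ range H,
      (av N (mc μ S a (psi ρ S σ a g (Nat.dist h h')))).re) atTop
      (𝓝 (((H : ℝ)⁻¹) ^ 2 * ∑ h ∈ range H, ∑ h' ∈ range H, (π (Nat.dist h h')).re)) := by
    refine Tendsto.const_mul _ (tendsto_finsetSum _ fun h _ => tendsto_finsetSum _ fun h' _ => ?_)
    exact (Complex.continuous_re.tendsto _).comp (hlim _)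
  have hval : ((H : ℝ)⁻¹) ^ 2 * ∑ h ∈ range H, ∑ h' ∈ range H, (π (Nat.dist h h')).re ≤ ε3 / 2 := by
    set l : ℕ → ℝ := fun d => ‖∫ x, g j0 ((sk S σ)^[d] x) * conj (g j0 x) ∂(μ.prod ρ)‖ with hl
    have h1 : ∑ h ∈ range H, ∑ h' ∈ range H, (π (Nat.dist h h')).re ≤
        2 * H * ∑ d ∈ range H, (C ^ 2) ^ m * l (a j0 * d) := by
      refine le_trans ?_ (sum_dist_le H (fun d => (C ^ 2) ^ m * l (a j0 * d))
        fun d => mul_nonneg (by positivity) (norm_nonneg _))
      refine Finset.sum_le_sum fun h _ => Finset.sum_le_sum fun h' _ => ?_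
      exact (Complex.re_le_norm _).trans (hπb _)
    have h2 := sub_sum l (fun n => norm_nonneg _) (a j0) (ha0 j0) H
    have hLH : L0 ≤ a j0 * H := by
      calc L0 ≤ H := by omega
        _ ≤ a j0 * H := Nat.le_mul_of_pos_left _ (ha0 j0)
    have h3 := hL0 (a j0 * H) hLH
    have h4 : (((a j0 * H : ℕ) : ℝ)⁻¹ * ∑ n ∈ range (a j0 * H), l n) ≤ ε3 / (4 * (C ^ 2) ^ m * a j0) := by
      have hpos : (0 : ℝ) < ((a j0 * H : ℕ) : ℝ) := by push_cast; positivity
      rw [inv_mul_le_iff₀ hpos, mul_comm _ (ε3 / _)]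
      exact h3
    have h5 : (H : ℝ)⁻¹ * ∑ d ∈ range H, l (a j0 * d) ≤ ε3 / (4 * (C ^ 2) ^ m) := by
      refine h2.trans ((mul_le_mul_of_nonneg_left h4 haR.le).trans (le_of_eq ?_))
      field_simp
    calc ((H : ℝ)⁻¹) ^ 2 * ∑ h ∈ range H, ∑ h' ∈ range H, (π (Nat.dist h h')).re
        ≤ ((H : ℝ)⁻¹) ^ 2 * (2 * H * ∑ d ∈ range H, (C ^ 2) ^ m * l (a j0 * d)) := by gcongr
      _ = 2 * (C ^ 2) ^ m * ((H : ℝ)⁻¹ * ∑ d ∈ range H, l (a j0 * d)) := by
          rw [← Finset.mul_sum]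
          field_simp
      _ ≤ 2 * (C ^ 2) ^ m * (ε3 / (4 * (C ^ 2) ^ m)) := by gcongr
      _ = ε3 / 2 := by field_simp; ring
  have hev : ∀ᶠ N : ℕ in atTop, ((H : ℝ)⁻¹) ^ 2 * ∑ h ∈ range H, ∑ h' ∈ range H,
      (av N (mc μ S a (psi ρ S σ a g (Nat.dist h h')))).re ≤ ε3 := by
    have := (tendsto_order.1 hGlim).2 ε3 (by linarith)
    filter_upwards [this] with N hN
    exact hN.le
  exact core (μ := μ) (ρ := ρ) (a := a) hS hσ hg hgD (fun d => hY _ (hpm d) ⟨D ^ 2, hpb d⟩) ε3 H hH0 hev η hη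

/-- Convergence when the functions outside `s` are eigenfunctions. -/
theorem wm_conv (S : Y ≃ᵐ Y) (hS : MeasurePreserving S μ μ) (hE : Ergodic (Prod.map S S) (μ.prod μ)) {σ : Y → K}
    (hσ : Measurable σ) {m : ℕ} (a : Fin m → ℕ) (hinj : Function.Injective a) (ha0 : ∀ j, 0 < a j)
    (hY : ∀ g : Fin m → Y → ℂ, (∀ j, Measurable (g j)) → (∃ C, ∀ j y, ‖g j y‖ ≤ C) →
      ∀ᵐ y ∂μ, ∃ L, Tendsto (fun N => AV S a g N y) atTop (𝓝 L)) (s : Finset (Fin m)) :
    ∀ f : Fin m → Y × K → ℂ, (∀ j, Measurable (f j)) → (∃ C, ∀ j x, ‖f j x‖ ≤ C) →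
      (∀ j, j ∉ s → f j ∈ EB (μ.prod ρ) (sk S σ)) →
      ∀ᵐ x ∂(μ.prod ρ), ∃ L, Tendsto (fun N => AV (sk S σ) a f N x) atTop (𝓝 L) := by
  classical
  have hT : MeasurePreserving (sk S σ) (μ.prod ρ) (μ.prod ρ) := mp_sk μ ρ hS hσ
  induction s using Finset.induction_on with
  | empty =>
    intro f _ _ hfE
    exact conv_eig hT a f fun j => hfE j (Finset.notMem_empty j)
  | insert j0 s hj0 ih =>
    intro f hf hfb hfE
    obtain ⟨C0, hC0⟩ := hfb
    set C : ℝ := max C0 1 with hC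
    have hC1 : 1 ≤ C := le_max_right _ _
    have hCpos : 0 < C := by linarith
    have hfC : ∀ j x, ‖f j x‖ ≤ C := fun j x => (hC0 j x).trans (le_max_left _ _)
    apply conv_of_approx (μ.prod ρ) (fun N x => AV (sk S σ) a f N x)
    intro δ hδ ε hε
    -- convolutions
    set ε' : ℝ := ε / 2 * (δ / 2) / (C ^ m * (m + 1) * (m + 1)) with hε'
    have hε'0 : 0 < ε' := by positivity
    have happ := fun j => approx (ρ := ρ) μ (hf j) (hfC j) ε' hε'0
    choose q hqm hq0 hqQ hq1 hqa using happ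
    choose Q hQ using hqQ
    obtain ⟨Q', hQ'0, hQ'⟩ : ∃ Q' : ℝ, 0 < Q' ∧ ∀ j l, |q j l| ≤ Q' := by
      refine ⟨∑ j, |Q j| + 1, by positivity, fun j l => ?_⟩
      rw [abs_of_nonneg (hq0 j l)]
      have h1 : |Q j| ≤ ∑ j, |Q j| := Finset.single_le_sum (f := fun j => |Q j|) (fun _ _ => abs_nonneg _)
        (Finset.mem_univ j)
      have h2 := hQ j l
      have h3 := le_abs_self (Q j)
      linarith
    set F : Fin m → Y × K → ℂ := fun j => cv ρ (q j) (f j) with hF
    have hFm : ∀ j, Measurable (F j) := fun j => cv_meas (hqm j) (hf j)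
    have hFC : ∀ j x, ‖F j x‖ ≤ C := fun j x => cv_prob (hqm j) (hq0 j) (hQ' j) (hq1 j) (hfC j) x
    have hcl := close (μ.prod ρ) hT a f F hf hFm C hC1 hfC hFC ε' hqa (δ / 2) (by positivity)
    have hcl2 : (μ.prod ρ) {x | ¬ ∀ᶠ N : ℕ in atTop, ‖AV (sk S σ) a f N x - AV (sk S σ) a F N x‖ ≤ δ / 2} ≤
        ENNReal.ofReal (ε / 2) := by
      refine hcl.trans (ENNReal.ofReal_le_ofReal ?_)
      have e : (m : ℝ) * (C ^ m * (m + 1) * ε' / (δ / 2)) = ε / 2 * (m / (m + 1)) := by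
        rw [hε']; field_simp
      rw [e]
      have e3 : (m : ℝ) / (m + 1) ≤ 1 := by rw [div_le_one (by positivity)]; linarith
      nlinarith
    -- parameters
    set η : ℝ := (δ / (2 * Q' ^ m)) ^ 2 with hη
    have hη0 : 0 < η := by positivity
    set ε3 : ℝ := η * (ε / 2) with hε3
    have hε30 : 0 < ε3 := by positivity
    have haR : (0 : ℝ) < a j0 := by exact_mod_cast ha0 j0
    -- the decomposition
    have hTE : MeasurePreserving (skE S σ) (μ.prod ρ) (μ.prod ρ) := hT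
    have hTi : MeasurePreserving (skE S σ).symm (μ.prod ρ) (μ.prod ρ) := by
      have := mp_zpow hTE (skE_symm_meas S hσ) (-1)
      rwa [zpow_neg_one] at this
    obtain ⟨P, hP, L0, hL0⟩ := eig_dec hTE hTi (hf j0) (hfC j0) (ε3 / (4 * (C ^ 2) ^ m * a j0)) (by positivity)
    have hP' : P ∈ Submodule.span ℂ (EB (μ.prod ρ) (sk S σ)) := hP
    obtain ⟨hPm, CP, hCP⟩ := span_bdd (sk S σ) hP'
    set r : Y × K → ℂ := f j0 - P with hr
    have hrm : Measurable r := (hf j0).sub hPm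
    set D : ℝ := C + |CP| with hD
    have hrD : ∀ x, ‖r x‖ ≤ D := fun x => (norm_sub_le _ _).trans (add_le_add (hfC j0 x)
      ((hCP x).trans (le_abs_self _)))
    set g : Fin m → Y × K → ℂ := slot f j0 r with hg
    have hgm : ∀ j, Measurable (g j) := by
      intro j
      simp only [hg, slot]
      split_ifs
      · exact hrm
      · exact hf j
    have hgj0 : g j0 = r := by simp [hg, slot]
    have hgC : ∀ j, j ≠ j0 → ∀ x, ‖g j x‖ ≤ C := by
      intro j hj x
      simp only [hg, slot, if_neg hj]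
      exact hfC j x
    have hgD : ∀ j x, ‖g j x‖ ≤ D := by
      intro j x
      by_cases hj : j = j0
      · rw [hj, hgj0]; exact hrD x
      · exact (hgC j hj x).trans (by rw [hD]; linarith [abs_nonneg CP])
    have hsmall := wm_small (ρ := ρ) S hS hE hσ a hinj ha0 hY g hgm C hC1 D j0 hgC hgD ε3 hε30 L0
      (fun L hL => by
        rw [hgj0]
        exact hL0 L hL) η hη0
    have hsmall2 : μ {y | ¬ ∀ᶠ N : ℕ in atTop, BB ρ S σ a g N y ≤ η} ≤ ENNReal.ofReal (ε / 2) := by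
      refine hsmall.trans (le_of_eq ?_)
      rw [hε3]
      congr 1
      field_simp
    -- the structured part
    refine ⟨fun N x => AV (sk S σ) a (slot F j0 (cv ρ (q j0) P)) N x, ?_, ?_⟩
    · clear hL0 hsmall hsmall2 hgD hgC hgj0 hgm hg g hrD hD D hrm hr r hCP hPm
      have key : ∀ P ∈ Submodule.span ℂ (EB (μ.prod ρ) (sk S σ)),
          ∀ᵐ x ∂(μ.prod ρ), ∃ L, Tendsto (fun N => AV (sk S σ) a (slot F j0 (cv ρ (q j0) P)) N x) atTop (𝓝 L) := by
        intro P hP
        induction hP using Submodule.span_induction with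
        | mem χ hχ =>
          have hχE := cv_eig (hqm j0) (hQ' j0) hχ
          obtain ⟨Cχ, hCχ⟩ := hχE.2.1
          refine ih (slot F j0 (cv ρ (q j0) χ)) (fun j => ?_) ⟨max C Cχ, fun j x => ?_⟩ (fun j hj => ?_)
          · simp only [slot]
            split_ifs
            · exact hχE.1
            · exact hFm j
          · simp only [slot]
            split_ifs
            · exact (hCχ x).trans (le_max_right _ _)
            · exact (hFC j x).trans (le_max_left _ _)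
          · simp only [slot]
            split_ifs with h
            · exact hχE
            · refine cv_eig (hqm j) (hQ' j) (hfE j ?_)
              rw [Finset.mem_insert]
              tauto
        | zero =>
          refine Eventually.of_forall fun x => ⟨0, ?_⟩
          have e : ∀ N, AV (sk S σ) a (slot F j0 (cv ρ (q j0) 0)) N x = 0 := by
            intro N
            rw [cv_zero]
            have := AV_slot_smul (T := sk S σ) (a := a) F j0 0 0 N x
            rw [zero_smul, zero_mul] at this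
            exact this
          simp only [e]
          exact tendsto_const_nhds
        | add P1 P2 hP1 hP2 h1 h2 =>
          obtain ⟨m1, C1, b1⟩ := span_bdd (sk S σ) hP1
          obtain ⟨m2, C2, b2⟩ := span_bdd (sk S σ) hP2
          filter_upwards [h1, h2] with x hx1 hx2
          obtain ⟨L1, hL1⟩ := hx1
          obtain ⟨L2, hL2⟩ := hx2
          refine ⟨L1 + L2, (hL1.add hL2).congr fun N => ?_⟩
          rw [cv_add (hqm j0) (hQ' j0) m1 m2 b1 b2, AV_slot_add]
        | smul c P1 _ h1 =>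
          filter_upwards [h1] with x hx1
          obtain ⟨L1, hL1⟩ := hx1
          refine ⟨c * L1, (hL1.const_mul c).congr fun N => ?_⟩
          rw [cv_smul, AV_slot_smul]
      exact key P hP'
    · -- the error
      have hsub : {x | ¬ ∀ᶠ N : ℕ in atTop, ‖AV (sk S σ) a f N x - AV (sk S σ) a (slot F j0 (cv ρ (q j0) P)) N x‖ ≤ δ} ⊆
          {x | ¬ ∀ᶠ N : ℕ in atTop, ‖AV (sk S σ) a f N x - AV (sk S σ) a F N x‖ ≤ δ / 2} ∪
          {y | ¬ ∀ᶠ N : ℕ in atTop, BB ρ S σ a g N y ≤ η} ×ˢ (Set.univ : Set K) := by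
        intro x hx
        by_contra hcon
        rw [Set.mem_union, not_or] at hcon
        obtain ⟨hc1, hc2⟩ := hcon
        apply hx
        have h1 : ∀ᶠ N : ℕ in atTop, ‖AV (sk S σ) a f N x - AV (sk S σ) a F N x‖ ≤ δ / 2 := by
          by_contra hne
          exact hc1 hne
        have h2 : ∀ᶠ N : ℕ in atTop, BB ρ S σ a g N x.1 ≤ η := by
          by_contra hne
          exact hc2 ⟨hne, Set.mem_univ _⟩
        filter_upwards [h1, h2] with N hN1 hN2
        have hlin : AV (sk S σ) a F N x - AV (sk S σ) a (slot F j0 (cv ρ (q j0) P)) N x =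
            AV (sk S σ) a (fun j => cv ρ (q j) (g j)) N x := by
          have e1 : F j0 = cv ρ (q j0) P + cv ρ (q j0) r := by
            rw [← cv_add (hqm j0) (hQ' j0) hPm hrm hCP hrD, hr]
            simp only [hF]
            congr 1
            abel
          have e2 : AV (sk S σ) a F N x = AV (sk S σ) a (slot F j0 (cv ρ (q j0) P)) N x +
              AV (sk S σ) a (slot F j0 (cv ρ (q j0) r)) N x := by
            rw [← AV_slot_add, ← e1, slot_self]
          have e3 : (fun j => cv ρ (q j) (g j)) = slot F j0 (cv ρ (q j0) r) := by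
            funext j
            simp only [hg, slot, hF]
            split_ifs with h
            · rw [h]
            · rfl
          rw [e2, e3]
          ring
        have hsm := smooth_le (ρ := ρ) (a := a) S.measurable hσ hgm hgD q hqm hQ'0 hQ' N x.1 x.2
        have hsm2 : ‖AV (sk S σ) a (fun j => cv ρ (q j) (g j)) N x‖ ^ 2 ≤ (δ / 2) ^ 2 := by
          refine (le_trans hsm ?_)
          calc (Q' ^ m) ^ 2 * BB ρ S σ a g N x.1 ≤ (Q' ^ m) ^ 2 * η := by gcongr
            _ = (δ / 2) ^ 2 := by rw [hη]; field_simp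
        have hsm3 := (pow_le_pow_iff_left₀ (norm_nonneg _) (by positivity) two_ne_zero).1 hsm2
        have e4 : AV (sk S σ) a f N x - AV (sk S σ) a (slot F j0 (cv ρ (q j0) P)) N x =
            (AV (sk S σ) a f N x - AV (sk S σ) a F N x) +
            (AV (sk S σ) a F N x - AV (sk S σ) a (slot F j0 (cv ρ (q j0) P)) N x) := by ring
        rw [e4, hlin]
        exact (norm_add_le _ _).trans (by linarith)
      refine (measure_mono hsub).trans ((measure_union_le _ _).trans ?_)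
      rw [Measure.prod_prod, measure_univ, mul_one]
      refine (add_le_add hcl2 hsmall2).trans (le_of_eq ?_)
      rw [← ENNReal.ofReal_add (by positivity) (by positivity)]
      congr 1
      ring

end Main

end Pool.Agent.H80GE
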